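import Mathlib
import Pool.Agent.TH715.RS.Colour

/-!
# The sum over the linked colourings
-/

set_option autoImplicit false

namespace Pool.Agent.TH715.CN

open Finset

open Pool.Agent.W262.RK (Jr)

open Pool.Agent.TH715.RS

/-- **the sum over the linked colourings** -/
theorem sum_linked (R : Type) [Fintype R] [DecidableEq R] : ∃ (C : ℝ) (D : ℕ), 1 ≤ C ∧
    ∀ (j y : ℕ) (Q : Finset ℕ), (∀ q ∈ Q, q.Prime ∧ q ≠ 2 ∧ q ≤ y) →
      (y : ℝ) ^ (19 / 20 : ℝ) ≤ Q.card → C * ((j : ℝ) + 1) ^ D ≤ Q.card →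
      ∀ χ : (R → Bool × Bool) → ℕ → ℝ, (∀ v p, |χ v p| ≤ 1) →
        ∑ u ∈ univ.filter (fun u : Fin j → R → Bool × Bool => ∃ i l,
          Odd (nn (u i) (u l) + nn (u l) (u i))), |∑ x ∈ PQ (Fin j) Q, tm χ u x| ≤
          C * ((j : ℝ) + 1) * (Q.card : ℝ) ^ (-(1 / 40) : ℝ) *
            (((2 : ℝ) ^ Fintype.card R) ^ j * (Q.card : ℝ) ^ j) := by
  classical
  obtain ⟨C₀, E, hC₀, hT⟩ := tm_bound
  obtain ⟨C₂, hC₂, hnum⟩ := numer C₀ hC₀ E
  set n : ℕ := Fintype.card (R → Bool × Bool) with hn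
  have hn1 : 1 ≤ n := by
    rw [hn]
    exact Fintype.card_pos
  have hnr : (1 : ℝ) ≤ n := by exact_mod_cast hn1
  set C₃ : ℝ := (C₂ * (n : ℝ) ^ (2 * n)) ^ 20 with hC₃
  refine ⟨max C₃ (C₂ * (3 * 2 ^ n)), 20 * (2 + 2 * n), ?_, ?_⟩
  · refine le_trans ?_ (le_max_right _ _)
    have : (1 : ℝ) ≤ 2 ^ n := one_le_pow₀ (by norm_num)
    nlinarith
  intro j y Q hQ hyQ hjQ χ hχ
  set C : ℝ := max C₃ (C₂ * (3 * 2 ^ n)) with hC
  have hC3 : C₃ ≤ C := le_max_left _ _
  have hC4 : C₂ * (3 * 2 ^ n) ≤ C := le_max_right _ _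
  set N : ℝ := (Q.card : ℝ) with hN
  have hj1 : (1 : ℝ) ≤ (j : ℝ) + 1 := by
    have : (0 : ℝ) ≤ j := Nat.cast_nonneg j
    linarith
  have hC30 : 1 ≤ C₃ := one_le_pow₀ (by
    have : (1 : ℝ) ≤ (n : ℝ) ^ (2 * n) := one_le_pow₀ hnr
    nlinarith)
  have hN1 : 1 ≤ N := by
    refine le_trans ?_ hjQ
    have : (1 : ℝ) ≤ ((j : ℝ) + 1) ^ (20 * (2 + 2 * n)) := one_le_pow₀ hj1
    nlinarith
  have hne : Q.Nonempty := by
    rw [nonempty_iff_ne_empty]
    rintro rfl
    rw [hN, card_empty, Nat.cast_zero] at hN1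
    linarith
  have hNy : N ≤ y := by
    have h1 : Q ⊆ Icc 1 y := by
      intro q hq
      rw [mem_Icc]
      exact ⟨(hQ q hq).1.one_lt.le, (hQ q hq).2.2⟩
    have h2 := card_le_card h1
    rw [Nat.card_Icc, Nat.add_sub_cancel] at h2
    rw [hN]
    exact_mod_cast h2
  have hyr : (1 : ℝ) ≤ y := hN1.trans hNy
  have hy1 : 1 ≤ y := by exact_mod_cast hyr
  have hy0 : (0 : ℝ) < y := by linarith
  -- the size of `y`
  have hy20 : C₂ * (n : ℝ) ^ (2 * n) * ((j : ℝ) + 1) ^ (2 + 2 * n) ≤ (y : ℝ) ^ (1 / 20 : ℝ) := by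
    have h1 : (C₂ * (n : ℝ) ^ (2 * n) * ((j : ℝ) + 1) ^ (2 + 2 * n)) ^ 20 ≤ y := by
      calc (C₂ * (n : ℝ) ^ (2 * n) * ((j : ℝ) + 1) ^ (2 + 2 * n)) ^ 20
          = C₃ * ((j : ℝ) + 1) ^ (20 * (2 + 2 * n)) := by
            rw [mul_pow, hC₃, ← pow_mul ((j : ℝ) + 1), mul_comm (2 + 2 * n) 20]
        _ ≤ C * ((j : ℝ) + 1) ^ (20 * (2 + 2 * n)) :=
            mul_le_mul_of_nonneg_right hC3 (by positivity)
        _ ≤ y := hjQ.trans hNy
    have h2 : 0 ≤ C₂ * (n : ℝ) ^ (2 * n) * ((j : ℝ) + 1) ^ (2 + 2 * n) := by positivity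
    have h3 := Real.rpow_le_rpow (by positivity) h1 (by norm_num : (0 : ℝ) ≤ 1 / 20)
    rw [← Real.rpow_natCast, ← Real.rpow_mul h2] at h3
    norm_num at h3
    exact h3
  set ρ : ℝ := C₂ * ((j : ℝ) + 1) ^ 2 * (y : ℝ) ^ (-(1 / 20) : ℝ) with hρ
  have hρ0 : 0 < ρ := by positivity
  have hρle : ρ ≤ (1 / (((j : ℝ) + 1) * n)) ^ (2 * n) := by
    have h1 : (y : ℝ) ^ (-(1 / 20) : ℝ) = ((y : ℝ) ^ (1 / 20 : ℝ))⁻¹ := Real.rpow_neg hy0.le _
    rw [hρ, h1, ← div_eq_mul_inv, div_le_iff₀ (by positivity)]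
    have h2 : (1 / (((j : ℝ) + 1) * n)) ^ (2 * n) *
        (C₂ * (n : ℝ) ^ (2 * n) * ((j : ℝ) + 1) ^ (2 + 2 * n)) ≤
        (1 / (((j : ℝ) + 1) * n)) ^ (2 * n) * (y : ℝ) ^ (1 / 20 : ℝ) :=
      mul_le_mul_of_nonneg_left hy20 (by positivity)
    refine le_trans (le_of_eq ?_) h2
    rw [div_pow, one_pow, mul_pow, pow_add]
    field_simp
  set τ : ℝ := Real.sqrt ρ with hτ
  have hτ0 : 0 < τ := Real.sqrt_pos.2 hρ0
  have hτ2 : τ ^ 2 = ρ := Real.sq_sqrt hρ0.le
  have hτle : τ ≤ (1 / (((j : ℝ) + 1) * n)) ^ n := by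
    rw [hτ]
    refine Real.sqrt_le_iff.2 ⟨by positivity, ?_⟩
    rw [← pow_mul, mul_comm n 2]
    exact hρle
  have hτ1 : τ ≤ 1 := by
    refine hτle.trans (pow_le_one₀ (by positivity) ?_)
    rw [div_le_one (by positivity)]
    nlinarith
  set η : ℝ := τ ^ (1 / (n : ℝ)) with hη
  have hη0 : 0 < η := Real.rpow_pos_of_pos hτ0 _
  have hηn : η ^ n = τ := by
    rw [hη, ← Real.rpow_natCast, ← Real.rpow_mul hτ0.le, one_div_mul_cancel (by positivity),
      Real.rpow_one]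
  have hηle : η ≤ 1 / (((j : ℝ) + 1) * n) := by
    have h1 : η ^ n ≤ (1 / (((j : ℝ) + 1) * n)) ^ n := by rw [hηn]; exact hτle
    exact (pow_le_pow_iff_left₀ hη0.le (by positivity) (by omega)).1 h1
  have hη1 : η ≤ 1 := by
    refine hηle.trans ?_
    rw [div_le_one (by positivity)]
    nlinarith
  have hηj : (j : ℝ) * (n * η) ≤ 1 := by
    have h1 : (((j : ℝ) + 1) * n) * η ≤ 1 := by
      rw [le_div_iff₀ (by positivity)] at hηle
      linarith
    have h2 : (j : ℝ) * (n * η) ≤ (((j : ℝ) + 1) * n) * η := by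
      have : 0 ≤ n * η := by positivity
      nlinarith
    linarith
  -- one colouring
  have hone : ∀ u : Fin j → R → Bool × Bool, (∃ i l, Odd (nn (u i) (u l) + nn (u l) (u i))) →
      ∃ U : Finset (R → Bool × Bool),
      (∀ a ∈ U, ∀ b ∈ U, Even (nn a b + nn b a)) ∧
      |∑ x ∈ PQ (Fin j) Q, tm χ u x| ≤ τ * (N ^ j * ∏ i, if u i ∈ U then 1 else η) := by
    intro u hlk
    obtain ⟨s, U, hU, hcard, hs⟩ := exists_linked u
    refine ⟨U, hU, ?_⟩
    have hprod : ∏ i, (if u i ∈ U then 1 else η) = η ^ (univ.filter (fun i => u i ∉ U)).card := by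
      rw [prod_ite, prod_const_one, one_mul, prod_const]
    rw [hprod]
    rcases Nat.eq_zero_or_pos s with h0 | h1
    · exfalso
      rw [h0, mul_zero, Nat.le_zero, card_eq_zero, filter_eq_empty_iff] at hcard
      obtain ⟨i, l, hil⟩ := hlk
      have hi : u i ∈ U := by
        by_contra h
        exact hcard (mem_univ i) h
      have hl : u l ∈ U := by
        by_contra h
        exact hcard (mem_univ l) h
      exact (Nat.not_even_iff_odd.2 hil) (hU _ hi _ hl)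
    · obtain ⟨hsj, A, B, v, w, hA, hB, hAB, huA, huB, hvw, hwv⟩ := hs h1
      rw [Fintype.card_fin] at hsj
      have h2 := hT (Fin j) R Q y A B s hQ hne hy1 h1 hA hB hAB χ u v w hχ huA huB hvw hwv
      rw [Fintype.card_fin] at h2
      refine h2.trans ?_
      have h3 := hnum s y N h1 hy1 hyQ
      have h4 : C₂ * (s : ℝ) ^ 2 * (y : ℝ) ^ (-(1 / 20) : ℝ) ≤ ρ := by
        refine mul_le_mul_of_nonneg_right (mul_le_mul_of_nonneg_left ?_ (by linarith))
          (by positivity)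
        have : (s : ℝ) ≤ j := by exact_mod_cast hsj
        exact pow_le_pow_left₀ (Nat.cast_nonneg s) (by linarith) 2
      have h5 : (C₂ * (s : ℝ) ^ 2 * (y : ℝ) ^ (-(1 / 20) : ℝ)) ^ s ≤
          τ * η ^ (univ.filter (fun i => u i ∉ U)).card := by
        calc (C₂ * (s : ℝ) ^ 2 * (y : ℝ) ^ (-(1 / 20) : ℝ)) ^ s ≤ ρ ^ s :=
              pow_le_pow_left₀ (by positivity) h4 s
          _ = τ ^ s * τ ^ s := by rw [← hτ2, ← mul_pow, ← sq]
          _ ≤ τ * τ ^ s := by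
              refine mul_le_mul_of_nonneg_right ?_ (by positivity)
              calc τ ^ s ≤ τ ^ 1 := pow_le_pow_of_le_one hτ0.le hτ1 h1
                _ = τ := pow_one τ
          _ = τ * η ^ (n * s) := by rw [pow_mul, hηn]
          _ ≤ _ := mul_le_mul_of_nonneg_left (pow_le_pow_of_le_one hη0.le hη1 hcard) hτ0.le
      calc _ ≤ N ^ j * (τ * η ^ (univ.filter (fun i => u i ∉ U)).card) :=
            mul_le_mul_of_nonneg_left (h3.trans h5) (by positivity)
        _ = _ := by ring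
  -- the sum
  set UU : Finset (Finset (R → Bool × Bool)) := univ.filter (fun U =>
    ∀ a ∈ U, ∀ b ∈ U, Even (nn a b + nn b a)) with hUU
  have hfU : ∀ U ∈ UU, ∑ v, (if v ∈ U then (1 : ℝ) else η) ≤
      2 ^ Fintype.card R * (1 + n * η) := by
    intro U hU
    have h1 := card_unlinked U (mem_filter.1 hU).2
    have h2 : ∑ v, (if v ∈ U then (1 : ℝ) else η) ≤ (U.card : ℝ) + n * η := by
      rw [sum_ite, sum_const, sum_const, nsmul_eq_mul, nsmul_eq_mul, mul_one]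
      have h3 : (univ.filter (fun v => v ∈ U)).card = U.card := by
        congr 1
        ext v
        simp
      have h4 : ((univ.filter (fun v => v ∉ U)).card : ℝ) ≤ n := by
        rw [hn, ← card_univ]
        exact_mod_cast card_le_card (filter_subset _ _)
      rw [h3]
      exact add_le_add le_rfl (mul_le_mul_of_nonneg_right h4 hη0.le)
    have h3 : (U.card : ℝ) ≤ 2 ^ Fintype.card R := by exact_mod_cast h1
    have h4 : (1 : ℝ) ≤ 2 ^ Fintype.card R := one_le_pow₀ (by norm_num)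
    have h5 : 0 ≤ n * η := by positivity
    nlinarith
  have hexp : (1 + n * η) ^ j ≤ 3 := by
    calc (1 + n * η) ^ j ≤ (Real.exp (n * η)) ^ j :=
          pow_le_pow_left₀ (by positivity) (by linarith [Real.add_one_le_exp (n * η)]) j
      _ = Real.exp (j * (n * η)) := (Real.exp_nat_mul _ _).symm
      _ ≤ Real.exp 1 := Real.exp_le_exp.2 hηj
      _ ≤ 3 := by linarith [Real.exp_one_lt_d9]
  have hτN : τ ≤ C₂ * ((j : ℝ) + 1) * N ^ (-(1 / 40) : ℝ) := by
    rw [hτ]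
    refine Real.sqrt_le_iff.2 ⟨by positivity, ?_⟩
    have h1 : (N ^ (-(1 / 40) : ℝ)) ^ 2 = N ^ (-(1 / 20) : ℝ) := by
      rw [← Real.rpow_natCast, ← Real.rpow_mul (by linarith)]
      norm_num
    have h2 : (y : ℝ) ^ (-(1 / 20) : ℝ) ≤ N ^ (-(1 / 20) : ℝ) :=
      Real.rpow_le_rpow_of_nonpos (by linarith) hNy (by norm_num)
    have h3 : 0 ≤ N ^ (-(1 / 20) : ℝ) := Real.rpow_nonneg (by linarith) _
    rw [mul_pow, mul_pow, h1, hρ]
    have h4 : C₂ ≤ C₂ ^ 2 := by nlinarith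
    calc C₂ * ((j : ℝ) + 1) ^ 2 * (y : ℝ) ^ (-(1 / 20) : ℝ)
        ≤ C₂ ^ 2 * ((j : ℝ) + 1) ^ 2 * (y : ℝ) ^ (-(1 / 20) : ℝ) := by
          refine mul_le_mul_of_nonneg_right (mul_le_mul_of_nonneg_right h4 (by positivity))
            (by positivity)
      _ ≤ _ := mul_le_mul_of_nonneg_left h2 (by positivity)
  calc ∑ u ∈ univ.filter (fun u : Fin j → R → Bool × Bool => ∃ i l,
          Odd (nn (u i) (u l) + nn (u l) (u i))), |∑ x ∈ PQ (Fin j) Q, tm χ u x|
      ≤ ∑ u ∈ univ.filter (fun u : Fin j → R → Bool × Bool => ∃ i l,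
          Odd (nn (u i) (u l) + nn (u l) (u i))), ∑ U ∈ UU,
          τ * (N ^ j * ∏ i, (if u i ∈ U then 1 else η)) := by
        refine sum_le_sum fun u hu => ?_
        obtain ⟨U, hU, h1⟩ := hone u (mem_filter.1 hu).2
        refine h1.trans (single_le_sum
          (f := fun U => τ * (N ^ j * ∏ i, (if u i ∈ U then 1 else η)))
          (fun U _ => ?_) (mem_filter.2 ⟨mem_univ U, hU⟩))
        refine mul_nonneg hτ0.le (mul_nonneg (by positivity) (prod_nonneg fun i _ => ?_))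
        split_ifs <;> positivity
    _ ≤ ∑ u : Fin j → R → Bool × Bool, ∑ U ∈ UU,
          τ * (N ^ j * ∏ i, (if u i ∈ U then 1 else η)) := by
        refine sum_le_sum_of_subset_of_nonneg (subset_univ _) fun u _ _ =>
          sum_nonneg fun U _ => mul_nonneg hτ0.le (mul_nonneg (by positivity)
            (prod_nonneg fun i _ => ?_))
        split_ifs <;> positivity
    _ = ∑ U ∈ UU, τ * (N ^ j * (∑ v, (if v ∈ U then (1 : ℝ) else η)) ^ j) := by
        rw [sum_comm]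
        refine sum_congr rfl fun U _ => ?_
        rw [← mul_sum, ← mul_sum]
        congr 2
        have h1 := sum_colour (ι := Fin j) (fun v : R → Bool × Bool => if v ∈ U then (1 : ℝ) else η)
        rw [Fintype.card_fin] at h1
        rw [← h1]
    _ ≤ ∑ U ∈ UU, τ * (N ^ j * ((2 ^ Fintype.card R) ^ j * 3)) := by
        refine sum_le_sum fun U hU => mul_le_mul_of_nonneg_left (mul_le_mul_of_nonneg_left ?_
          (by positivity)) hτ0.le
        calc (∑ v, (if v ∈ U then (1 : ℝ) else η)) ^ j ≤ (2 ^ Fintype.card R * (1 + n * η)) ^ j := by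
              refine pow_le_pow_left₀ (sum_nonneg fun v _ => ?_) (hfU U hU) j
              split_ifs <;> positivity
          _ = (2 ^ Fintype.card R) ^ j * (1 + n * η) ^ j := mul_pow _ _ _
          _ ≤ _ := mul_le_mul_of_nonneg_left hexp (by positivity)
    _ = (UU.card : ℝ) * (τ * (3 * (2 ^ Fintype.card R) ^ j * N ^ j)) := by
        rw [sum_const, nsmul_eq_mul]
        ring
    _ ≤ 2 ^ n * (τ * (3 * (2 ^ Fintype.card R) ^ j * N ^ j)) := by
        refine mul_le_mul_of_nonneg_right ?_ (by positivity)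
        have h1 : UU.card ≤ (univ : Finset (Finset (R → Bool × Bool))).card :=
          card_le_card (filter_subset _ _)
        rw [card_univ, Fintype.card_finset] at h1
        exact_mod_cast h1
    _ ≤ 2 ^ n * ((C₂ * ((j : ℝ) + 1) * N ^ (-(1 / 40) : ℝ)) *
          (3 * (2 ^ Fintype.card R) ^ j * N ^ j)) :=
        mul_le_mul_of_nonneg_left (mul_le_mul_of_nonneg_right hτN (by positivity)) (by positivity)
    _ = (C₂ * (3 * 2 ^ n)) * (((j : ℝ) + 1) * N ^ (-(1 / 40) : ℝ) *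
          ((2 ^ Fintype.card R) ^ j * N ^ j)) := by ring
    _ ≤ C * (((j : ℝ) + 1) * N ^ (-(1 / 40) : ℝ) * ((2 ^ Fintype.card R) ^ j * N ^ j)) := by
        refine mul_le_mul_of_nonneg_right hC4 ?_
        have : 0 ≤ N ^ (-(1 / 40) : ℝ) := Real.rpow_nonneg (by linarith) _
        positivity
    _ = _ := by ring

end Pool.Agent.TH715.CN
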