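import Mathlib
import Pool.Agent.TH841.SH.Main
import Pool.Agent.TH841.SH.SelR
import Pool.Agent.W307.RT.Defs

/-!
# The rank, the 2-torsion and the Tate-Shafarevich group, bounded by the 2-Selmer group
-/

set_option autoImplicit false

namespace Pool.Agent.TH715.CN

open WeierstrassCurve

open scoped Classical

open Pool.Agent.W262.SH (QB Pt act IsCoc IsCob LocTriv shaCoc cob Sha)

open Pool.Agent.TH841.SH

open Pool.Agent.H437R2.Man.MW (crv pt_fg)

open Pool.Agent.W307.RT (Sh)

/-- the rank and the 2-torsion, for a group without elements of order four -/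
theorem rkb4 {G : Type} [AddCommGroup G] (hG : AddGroup.FG G) (H T : Finset G)
    (hH : ∀ h ∈ H, h + h = 0) (hno : ∀ q : G, (q + q) + (q + q) = 0 → q + q = 0)
    (hcov : ∀ g : G, ∃ t ∈ T, ∃ q : G, g = t + (q + q)) :
    H.card * 2 ^ Module.finrank ℤ G ≤ T.card := by
  have : Module.Finite ℤ G := Module.Finite.iff_addGroup_fg.mpr hG
  let M := G ⧸ Submodule.torsion ℤ G
  have hr : Module.finrank ℤ M = Module.finrank ℤ G :=
    finrank_quotient_eq_of_le_torsion le_rfl
  rw [← hr]
  have : Module.Finite ℤ M := inferInstance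
  have : Module.Free ℤ M := inferInstance
  let r := Module.finrank ℤ M
  let b : Module.Basis (Fin r) ℤ M := Module.finBasis ℤ M
  let φ : G → (Fin r → ZMod 2) := fun g i =>
    ((b.repr ((Submodule.torsion ℤ G).mkQ g) i : ℤ) : ZMod 2)
  have hφadd : ∀ g h, φ (g + h) = φ g + φ h := by
    intro g h
    ext i
    simp [φ]
  have hφsurj : Function.Surjective φ := by
    intro v
    obtain ⟨g, hg⟩ := (Submodule.torsion ℤ G).mkQ_surjective
      (b.equivFun.symm (fun i => ((v i).val : ℤ)))
    refine ⟨g, ?_⟩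
    ext i
    simp only [φ, hg]
    rw [← Module.Basis.equivFun_apply, LinearEquiv.apply_symm_apply]
    simp
  have hφtor : ∀ h : G, h + h = 0 → φ h = 0 := by
    intro h hh
    have h1 : h ∈ Submodule.torsion ℤ G := by
      rw [Submodule.mem_torsion_iff]
      refine ⟨⟨2, mem_nonZeroDivisors_of_ne_zero two_ne_zero⟩, ?_⟩
      change (2 : ℤ) • h = 0
      rw [two_smul]
      exact hh
    have h2 : (Submodule.torsion ℤ G).mkQ h = 0 := by
      rw [Submodule.mkQ_apply, Submodule.Quotient.mk_eq_zero]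
      exact h1
    funext i
    change ((b.repr ((Submodule.torsion ℤ G).mkQ h) i : ℤ) : ZMod 2) = 0
    rw [h2, map_zero]
    simp
  have hφ2 : ∀ q : G, φ q + φ q = 0 := by
    intro q
    ext i
    exact CharTwo.add_self_eq_zero _
  have hfib : ∀ v : Fin r → ZMod 2, H.card ≤ (T.filter (fun t => φ t = v)).card := by
    intro v
    obtain ⟨g, rfl⟩ := hφsurj v
    choose t ht q hq using fun h : G => hcov (g + h)
    refine Finset.card_le_card_of_injOn t ?_ ?_
    · intro h hh
      rw [Finset.mem_coe, Finset.mem_filter]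
      refine ⟨ht h, ?_⟩
      have e1 := congrArg φ (hq h)
      rw [hφadd, hφadd, hφadd, hφtor h (hH h hh), hφ2, add_zero, add_zero] at e1
      exact e1.symm
    · intro h hh h' hh' he
      have e1 := hq h
      have e2 := hq h'
      have e3 : h - h' = (q h - q h') + (q h - q h') := by
        have e4 : h = t h + (q h + q h) - g := by rw [← e1]; abel
        have e5 : h' = t h' + (q h' + q h') - g := by rw [← e2]; abel
        have he' : t h = t h' := he
        calc h - h' = (t h + (q h + q h) - g) - (t h' + (q h' + q h') - g) := by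
              rw [← e4, ← e5]
          _ = _ := by rw [he']; abel
      have e4 := hno (q h - q h') (by
        rw [← e3]
        have e6 := hH h hh
        have e7 := hH h' hh'
        calc (h - h') + (h - h') = (h + h) - (h' + h') := by abel
          _ = 0 := by rw [e6, e7, sub_zero])
      rw [← e3] at e4
      exact sub_eq_zero.1 e4
  calc H.card * 2 ^ Module.finrank ℤ M = ∑ v : Fin r → ZMod 2, H.card := by
        rw [Finset.sum_const, Finset.card_univ, Fintype.card_fun, ZMod.card, Fintype.card_fin,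
          smul_eq_mul, mul_comm]
    _ ≤ ∑ v : Fin r → ZMod 2, (T.filter (fun t => φ t = v)).card :=
        Finset.sum_le_sum fun v _ => hfib v
    _ = T.card := (Finset.card_eq_sum_card_fiberwise (f := φ) (t := Finset.univ)
        (fun _ _ => Finset.mem_coe.2 (Finset.mem_univ _))).symm

section

variable {W : WeierstrassCurve ℚ} {a b c : ℚ}

/-- **The rank, the 2-torsion, the Tate-Shafarevich group and the Selmer homomorphisms.** -/
theorem card_le4 (h : IsR W a b c) (hab : a ≠ b) (hac : a ≠ c) (hbc : b ≠ c)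
    (hfg : AddGroup.FG W.toAffine.Point) [Finite (selHom W)] (H : Finset W.toAffine.Point)
    (hH : ∀ h ∈ H, h + h = 0)
    (hno : ∀ q : W.toAffine.Point, (q + q) + (q + q) = 0 → q + q = 0) :
    H.card * 2 ^ Module.finrank ℤ W.toAffine.Point * Nat.card {x : Sha W // x + x = 0} ≤
      Nat.card (selHom W) := by
  have e1 : Nat.card {x : Sha W // x + x = 0} = Nat.card (toSha h).range :=
    Nat.card_congr (Equiv.subtypeEquivRight (fun x => (toSha_range h hab hac hbc x).symm))
  have hfr : Finite (toSha h).range := Finite.of_surjective _ (toSha h).rangeRestrict_surjective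
  have e2 : Nat.card (selHom W) = Nat.card (toSha h).range * Nat.card (toSha h).ker := by
    rw [AddSubgroup.card_eq_card_quotient_mul_card_addSubgroup (toSha h).ker]
    congr 1
    exact Nat.card_congr (QuotientAddGroup.quotientKerEquivRange (toSha h)).toEquiv
  rw [e1, e2, mul_comm]
  refine Nat.mul_le_mul_left _ ?_
  obtain ⟨j, hj, hjσ, hjf⟩ := exists_rat W
  have hinj : Function.Injective (algebraMap ℚ QB) := (algebraMap ℚ QB).injective
  have : Fintype (toSha h).ker := Fintype.ofFinite _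
  let R : (toSha h).ker → W.toAffine.Point → Prop := fun f g =>
    ∃ Q : Pt W QB, Q + Q = j g ∧ ∀ σ, (f.1 : (QB ≃ₐ[ℚ] QB) → Pt W QB) σ =
      act W σ.toAlgHom Q - Q
  let T : Finset W.toAffine.Point :=
    Finset.univ.image (fun f : (toSha h).ker => if hd : ∃ g, R f g then hd.choose else 0)
  have hT : T.card ≤ Nat.card (toSha h).ker := by
    rw [Nat.card_eq_fintype_card]
    exact Finset.card_image_le.trans_eq Finset.card_univ
  refine (rkb4 hfg H T hH hno (fun g => ?_)).trans hT
  obtain ⟨Q, hQ⟩ := (h.base QB).div two_ne_zero (hinj.ne hab) (hinj.ne hac) (hinj.ne hbc) (j g)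
  have hsel : (fun σ : QB ≃ₐ[ℚ] QB => act W σ.toAlgHom Q - Q) ∈ selHom W := by
    apply cob_sel h
    intro σ
    have e3 : act W σ.toAlgHom Q - Q + (act W σ.toAlgHom Q - Q) =
      (act W σ.toAlgHom Q + act W σ.toAlgHom Q) - (Q + Q) := by abel
    rw [e3, ← map_add, ← hQ, hjσ, sub_self]
  have hker : (⟨_, hsel⟩ : selHom W) ∈ (toSha h).ker := by
    rw [toSha_ker]
    exact ⟨Q, fun σ => rfl⟩
  set f : (toSha h).ker := ⟨⟨_, hsel⟩, hker⟩ with hf
  have hex : ∃ g', R f g' := ⟨g, Q, hQ.symm, fun σ => rfl⟩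
  obtain ⟨Q', hQ', hf'⟩ := hex.choose_spec
  refine ⟨hex.choose, ?_, ?_⟩
  · refine Finset.mem_image.2 ⟨f, Finset.mem_univ _, ?_⟩
    rw [dif_pos hex]
  · have hfix : ∀ σ : QB ≃ₐ[ℚ] QB, act W σ.toAlgHom (Q - Q') = Q - Q' := by
      intro σ
      have e4 : act W σ.toAlgHom Q - Q = act W σ.toAlgHom Q' - Q' := hf' σ
      rw [map_sub]
      have e5 : act W σ.toAlgHom Q = act W σ.toAlgHom Q' - Q' + Q := by
        rw [← e4]
        abel
      rw [e5]
      abel
    obtain ⟨q, hq⟩ := hjf _ hfix
    refine ⟨q, hj ?_⟩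
    rw [map_add, map_add, hq, ← hQ', hQ]
    abel

/-- a double that is a 2-torsion point is zero, if some differences of the roots are not squares -/
lemma no_four (h : IsR W a b c)
    (ha : ¬ (IsSquare (a - b) ∧ IsSquare (a - c)))
    (hb : ¬ (IsSquare (b - a) ∧ IsSquare (b - c)))
    (hc : ¬ (IsSquare (c - a) ∧ IsSquare (c - b))) (q : W.toAffine.Point)
    (hq : (q + q) + (q + q) = 0) : q + q = 0 := by
  by_contra hne
  rcases q with _ | ⟨u, v, hn⟩
  · exact hne (add_zero _)
  have hv : v ≠ 0 := fun h0 => hne ((h.add_self two_ne_zero hn).2 h0)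
  obtain ⟨X, Y, hn1, e1, f1⟩ := h.dup two_ne_zero hn hv
  obtain ⟨X2, Y2, hn2, e2, f2⟩ := h.swap.dup two_ne_zero hn hv
  obtain ⟨X3, Y3, hn3, e3, f3⟩ := h.rot.rot.dup two_ne_zero hn hv
  have hX2 : X2 = X := by
    have := e2.symm.trans e1
    rw [Affine.Point.some.injEq] at this
    exact this.1
  have hX3 : X3 = X := by
    have := e3.symm.trans e1
    rw [Affine.Point.some.injEq] at this
    exact this.1
  rw [hX2] at f2
  rw [hX3] at f3
  have s1 : IsSquare (X - a) := ⟨_, by rw [f1, sq]⟩
  have s2 : IsSquare (X - b) := ⟨_, by rw [f2, sq]⟩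
  have s3 : IsSquare (X - c) := ⟨_, by rw [f3, sq]⟩
  rcases h.tors two_ne_zero hq with h0 | ⟨hn', h0⟩ | ⟨hn', h0⟩ | ⟨hn', h0⟩
  · exact hne h0
  · have := e1.symm.trans h0
    rw [Affine.Point.some.injEq] at this
    rw [this.1] at s2 s3
    exact ha ⟨s2, s3⟩
  · have := e1.symm.trans h0
    rw [Affine.Point.some.injEq] at this
    rw [this.1] at s1 s3
    exact hb ⟨s1, s3⟩
  · have := e1.symm.trans h0
    rw [Affine.Point.some.injEq] at this
    rw [this.1] at s1 s2
    exact hc ⟨s1, s2⟩

end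

/-- **Main theorem for one curve, with the 2-torsion.** -/
theorem main4 (W : WeierstrassCurve ℚ) (a b c : ℤ) (h : IsR W (a : ℚ) (b : ℚ) (c : ℚ))
    (hab : a ≠ b) (hac : a ≠ c) (hbc : b ≠ c) (hS : (SelG a b c).Finite)
    (ha : ¬ (IsSquare ((a : ℚ) - b) ∧ IsSquare ((a : ℚ) - c)))
    (hb : ¬ (IsSquare ((b : ℚ) - a) ∧ IsSquare ((b : ℚ) - c)))
    (hc : ¬ (IsSquare ((c : ℚ) - a) ∧ IsSquare ((c : ℚ) - b))) :
    4 * 2 ^ Module.finrank ℤ W.toAffine.Point * Nat.card {x : Sha W // x + x = 0} ≤
      (SelG a b c).ncard := by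
  have qab : (a : ℚ) ≠ b := by exact_mod_cast hab
  have qac : (a : ℚ) ≠ c := by exact_mod_cast hac
  have qbc : (b : ℚ) ≠ c := by exact_mod_cast hbc
  obtain ⟨Φ, hΦ, hΦS⟩ := sel_inj h hab hac hbc
  have hfin : Finite (SelG a b c) := hS
  have hfin' : Finite (selHom W) :=
    Finite.of_injective (fun f => (⟨Φ f, hΦS f⟩ : SelG a b c))
      (fun f g hfg => hΦ (congrArg Subtype.val hfg))
  have hcard : Nat.card (selHom W) ≤ (SelG a b c).ncard := by
    rw [← Nat.card_coe_set_eq]
    exact Nat.card_le_card_of_injective (fun f => (⟨Φ f, hΦS f⟩ : SelG a b c))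
      (fun f g hfg => hΦ (congrArg Subtype.val hfg))
  have hW : W = crv (-(a : ℚ)) (-(b : ℚ)) (-(c : ℚ)) := by
    apply WeierstrassCurve.ext
    · rw [h.h1]
      rfl
    · rw [h.h2]
      show _ = -(a : ℚ) + -(b : ℚ) + -(c : ℚ)
      ring
    · rw [h.h3]
      rfl
    · rw [h.h4]
      show _ = -(a : ℚ) * -(b : ℚ) + -(a : ℚ) * -(c : ℚ) + -(b : ℚ) * -(c : ℚ)
      ring
    · rw [h.h6]
      show _ = -(a : ℚ) * -(b : ℚ) * -(c : ℚ)
      ring
  have hfg : AddGroup.FG W.toAffine.Point := by
    rw [hW]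
    exact pt_fg (fun h => qab (neg_injective h)) (fun h => qac (neg_injective h))
      (fun h => qbc (neg_injective h))
  have h2 : (2 : ℚ) ≠ 0 := two_ne_zero
  have na := h.nons h2 qab qac qbc (x := a) (y := 0) (by ring)
  have nb := h.nons h2 qab qac qbc (x := b) (y := 0) (by ring)
  have nc := h.nons h2 qab qac qbc (x := c) (y := 0) (by ring)
  set Pa : W.toAffine.Point := .some (a : ℚ) 0 na with hPa
  set Pb : W.toAffine.Point := .some (b : ℚ) 0 nb with hPb
  set Pc : W.toAffine.Point := .some (c : ℚ) 0 nc with hPc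
  have e1 : Pa + Pa = 0 := (h.add_self h2 na).2 rfl
  have e2 : Pb + Pb = 0 := (h.add_self h2 nb).2 rfl
  have e3 : Pc + Pc = 0 := (h.add_self h2 nc).2 rfl
  have d1 : Pa ≠ 0 := Affine.Point.some_ne_zero _
  have d2 : Pb ≠ 0 := Affine.Point.some_ne_zero _
  have d3 : Pc ≠ 0 := Affine.Point.some_ne_zero _
  have d4 : Pa ≠ Pb := by
    intro h0
    rw [hPa, hPb, Affine.Point.some.injEq] at h0
    exact qab h0.1
  have d5 : Pa ≠ Pc := by
    intro h0
    rw [hPa, hPc, Affine.Point.some.injEq] at h0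
    exact qac h0.1
  have d6 : Pb ≠ Pc := by
    intro h0
    rw [hPb, hPc, Affine.Point.some.injEq] at h0
    exact qbc h0.1
  have hH : ∀ x ∈ ({0, Pa, Pb, Pc} : Finset W.toAffine.Point), x + x = 0 := by
    intro x hx
    simp only [Finset.mem_insert, Finset.mem_singleton] at hx
    rcases hx with rfl | rfl | rfl | rfl
    · exact add_zero _
    · exact e1
    · exact e2
    · exact e3
  have hHc : ({0, Pa, Pb, Pc} : Finset W.toAffine.Point).card = 4 := by
    rw [Finset.card_insert_of_notMem, Finset.card_insert_of_notMem,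
      Finset.card_insert_of_notMem, Finset.card_singleton]
    · rw [Finset.mem_singleton]
      exact d6
    · simp only [Finset.mem_insert, Finset.mem_singleton, not_or]
      exact ⟨d4, d5⟩
    · simp only [Finset.mem_insert, Finset.mem_singleton, not_or]
      exact ⟨d1.symm, d2.symm, d3.symm⟩
  have h5 := card_le4 h qab qac qbc hfg _ hH (no_four h ha hb hc)
  rw [hHc] at h5
  exact h5.trans hcard

end Pool.Agent.TH715.CN
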