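import Mathlib
import Pool.Agent.W612.SE.Seld
import Pool.Agent.W405.SE.GoodP
import Pool.Agent.W407.SE.Ratp
import Pool.Agent.W342.RK2.LocL
import Pool.Agent.TH715.RS.Sel
import Pool.Agent.TH715.CN.Rk

/-!
# The 2-Selmer group of `y² = x³ - D² x` and the local count
-/

set_option autoImplicit false

namespace Pool.Agent.TH715.CN

open Finset Pool.Agent.W262.RK Pool.Agent.W307.SE Pool.Agent.W214.RK2 Pool.Agent.W599.RK
open Pool.Agent.W612.SE
open Pool.Agent.TH715.RS (LT sqf_prod locH_tw)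

/-- the 2-Selmer group and the local count, with the set of the outer data -/
theorem seld_out {m : ℕ} {L : ℕ → Bool → Bool → Bool → Bool → Prop} {A B : ℤ} (hA : A ≠ 0)
    (hB : B ≠ 0) (hAB : A ≠ B) (hm : Squarefree m)
    (hL : ∀ p, p.Prime → p ∣ m → XC (L p))
    (hloc : ∀ (p : ℕ) [Fact p.Prime], p ∣ m → ∀ x y : ℚ_[p], y ≠ 0 →
      y ^ 2 = x * (x - A) * (x - B) →
      ∀ e1 e2 : ℤ, Squarefree e1 → Squarefree e2 → IsSquare (x * e1) → IsSquare ((x - A) * e2) →
      L p (dv p e1) (dv p e2) (sgn p e1) (sgn p e2))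
    (OP : Finset ℕ) (hOP : ∀ q : ℕ, q.Prime → (q : ℤ) ∣ 2 * A * B * (A - B) → ¬ q ∣ m → q ∈ OP)
    (G : Finset (Out OP)) (hG : ∀ d ∈ Sel A B, outs OP d ∈ G) :
    (Sel A B).Finite ∧ (Sel A B).ncard ≤ G.card * NL m L := by
  classical
  have hgood : Pool.Agent.W307.SE.GOODP :=
    Pool.Agent.W405.SE.goodp_of Pool.Agent.W407.SE.ratp
  set F : Finset (ℕ × ℕ) := (m.divisors ×ˢ m.divisors).filter (fun d : ℕ × ℕ =>
    ∀ p ∈ m.primeFactors, L p (dv p d.1) (dv p d.2) (sgn p d.1) (sgn p d.2)) with hF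
  have hFcard : F.card = NL m L := by
    unfold NL
    rw [hF]
  -- comparison of two pairs with the same outer data
  have hcmp : ∀ d d' : ℤ × ℤ, d ∈ Sel A B → d' ∈ Sel A B → outs OP d = outs OP d' →
      (0 < d.1 ↔ 0 < d'.1) ∧ (0 < d.2 ↔ 0 < d'.2) ∧
      (∀ q : ℕ, q.Prime → ¬ q ∣ m →
        ((q : ℤ) ∣ d.1 ↔ (q : ℤ) ∣ d'.1) ∧ ((q : ℤ) ∣ d.2 ↔ (q : ℤ) ∣ d'.2)) := by
    intro d d' hd hd' ho
    have h1 : decide (0 < d.1) = decide (0 < d'.1) := congrArg Prod.fst ho
    have h23 := congrArg Prod.snd ho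
    have h2 : decide (0 < d.2) = decide (0 < d'.2) := congrArg Prod.fst h23
    have h3 := congrArg Prod.snd h23
    refine ⟨decide_eq_decide.mp h1, decide_eq_decide.mp h2, fun q hq hqm => ?_⟩
    by_cases hD : (q : ℤ) ∣ 2 * A * B * (A - B)
    · have h4 := congrFun h3 ⟨q, hOP q hq hD hqm⟩
      have h5 : decide ((q : ℤ) ∣ d.1) = decide ((q : ℤ) ∣ d'.1) := congrArg Prod.fst h4
      have h6 : decide ((q : ℤ) ∣ d.2) = decide ((q : ℤ) ∣ d'.2) := congrArg Prod.snd h4
      exact ⟨decide_eq_decide.mp h5, decide_eq_decide.mp h6⟩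
    · have : Fact q.Prime := ⟨hq⟩
      obtain ⟨a1, a2⟩ := hgood q A B d.1 d.2 hD hd.1 hd.2.1 (hd.2.2.2 q)
      obtain ⟨b1, b2⟩ := hgood q A B d'.1 d'.2 hD hd'.1 hd'.2.1 (hd'.2.2.2 q)
      exact ⟨⟨fun h => absurd h a1, fun h => absurd h b1⟩,
        ⟨fun h => absurd h a2, fun h => absurd h b2⟩⟩
  -- the local data
  have hdat : ∀ a b : ℤ, Squarefree a → Squarefree b → (0 < a ↔ 0 < b) →
      (∀ q : ℕ, q.Prime → ¬ q ∣ m → ((q : ℤ) ∣ a ↔ (q : ℤ) ∣ b)) →
      ∀ p : ℕ, p.Prime → dv p (dd m a b) = xor (dv p a) (dv p b) ∧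
        sgn p (dd m a b) = xor (sgn p a) (sgn p b) := by
    intro a b ha hb hs hv p hp
    have h1 := dd_sq m hm (a : ℚ) (b : ℚ) (by exact_mod_cast ha.ne_zero)
      (by exact_mod_cast hb.ne_zero) (by exact_mod_cast hs) (by
        intro q hq hqm
        rw [even_val a ha q hq, even_val b hb q hq, hv q hq hqm])
    have h2 : IsSquare (a * b * ((dd m a b : ℕ) : ℤ)) := by
      rw [← Rat.isSquare_intCast_iff]
      push_cast
      exact h1
    exact key p hp a b _ ha hb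
      (Int.squarefree_natCast.mpr (hm.squarefree_of_dvd (dd_dvd m hm a b))) h2
  have hFmem : ∀ d d' : ℤ × ℤ, d ∈ Sel A B → d' ∈ Sel A B → outs OP d = outs OP d' →
      (dd m d.1 d'.1, dd m d.2 d'.2) ∈ F := by
    intro d d' hd hd' ho
    obtain ⟨c1, c2, c3⟩ := hcmp d d' hd hd' ho
    rw [hF, Finset.mem_filter, Finset.mem_product]
    refine ⟨⟨Nat.mem_divisors.mpr ⟨dd_dvd m hm _ _, hm.ne_zero⟩,
      Nat.mem_divisors.mpr ⟨dd_dvd m hm _ _, hm.ne_zero⟩⟩, fun p hp => ?_⟩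
    rw [Nat.mem_primeFactors] at hp
    have : Fact p.Prime := ⟨hp.1⟩
    obtain ⟨x, y, hy, hxy, s1, s2⟩ := hd.2.2.2 p
    obtain ⟨x', y', hy', hxy', s1', s2'⟩ := hd'.2.2.2 p
    have l1 := hloc p hp.2.1 x y hy hxy d.1 d.2 hd.1 hd.2.1 s1 s2
    have l2 := hloc p hp.2.1 x' y' hy' hxy' d'.1 d'.2 hd'.1 hd'.2.1 s1' s2'
    obtain ⟨k1, k2⟩ := hdat d.1 d'.1 hd.1 hd'.1 c1 (fun q hq hqm => (c3 q hq hqm).1) p hp.1
    obtain ⟨k3, k4⟩ := hdat d.2 d'.2 hd.2.1 hd'.2.1 c2 (fun q hq hqm => (c3 q hq hqm).2) p hp.1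
    show L p (dv p (dd m d.1 d'.1)) (dv p (dd m d.2 d'.2))
      (sgn p (dd m d.1 d'.1)) (sgn p (dd m d.2 d'.2))
    rw [k1, k2, k3, k4]
    exact (hL p hp.1 hp.2.1).2 _ _ _ _ _ _ _ _ l1 l2
  -- the counting map
  by_cases hne : (Sel A B).Nonempty
  · have : Nonempty (Sel A B) := hne.to_subtype
    obtain ⟨rep, hrep⟩ : ∃ rep : Out OP → Sel A B, ∀ d : Sel A B,
        outs OP (rep (outs OP d.1)).1 = outs OP d.1 :=
      ⟨Function.invFun (fun d : Sel A B => outs OP d.1), fun d =>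
        Function.invFun_eq (f := fun d : Sel A B => outs OP d.1) ⟨d, rfl⟩⟩
    obtain ⟨kk, hkk⟩ : ∃ kk : Sel A B → Out OP × (ℕ × ℕ), ∀ d : Sel A B,
        kk d = (outs OP d.1, (dd m d.1.1 (rep (outs OP d.1)).1.1,
          dd m d.1.2 (rep (outs OP d.1)).1.2)) := ⟨_, fun d => rfl⟩
    have hmem : ∀ d : Sel A B, kk d ∈ G ×ˢ F := by
      intro d
      rw [hkk, Finset.mem_product]
      exact ⟨hG d.1 d.2, hFmem d.1 _ d.2 (rep _).2 (hrep d).symm⟩
    have hinj : Function.Injective kk := by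
      intro d e hde
      rw [hkk, hkk] at hde
      have h1 : outs OP d.1 = outs OP e.1 := congrArg Prod.fst hde
      have h2 := congrArg (fun z => z.2.1) hde
      have h3 := congrArg (fun z => z.2.2) hde
      simp only at h2 h3
      rw [← h1] at h2 h3
      obtain ⟨c1, c2, c3⟩ := hcmp d.1 e.1 d.2 e.2 h1
      obtain ⟨u1, u2, u3⟩ := hcmp d.1 _ d.2 (rep (outs OP d.1)).2 (hrep d).symm
      obtain ⟨v1, v2, v3⟩ := hcmp e.1 (rep (outs OP d.1)).1 e.2 (rep (outs OP d.1)).2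
        (h1.symm.trans (hrep d).symm)
      apply Subtype.ext
      apply Prod.ext
      · apply eq_of_dvd _ _ d.2.1 e.2.1 c1
        intro p hp
        have k1 := (hdat d.1.1 _ d.2.1 (rep (outs OP d.1)).2.1 u1
          (fun q hq hqm => (u3 q hq hqm).1) p hp).1
        have k2 := (hdat e.1.1 _ e.2.1 (rep (outs OP d.1)).2.1 v1
          (fun q hq hqm => (v3 q hq hqm).1) p hp).1
        rw [h2, k2] at k1
        revert k1
        generalize dv p d.1.1 = a
        generalize dv p e.1.1 = b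
        generalize dv p (rep (outs OP d.1)).1.1 = c
        cases a <;> cases b <;> cases c <;> simp
      · apply eq_of_dvd _ _ d.2.2.1 e.2.2.1 c2
        intro p hp
        have k1 := (hdat d.1.2 _ d.2.2.1 (rep (outs OP d.1)).2.2.1 u2
          (fun q hq hqm => (u3 q hq hqm).2) p hp).1
        have k2 := (hdat e.1.2 _ e.2.2.1 (rep (outs OP d.1)).2.2.1 v2
          (fun q hq hqm => (v3 q hq hqm).2) p hp).1
        rw [h3, k2] at k1
        revert k1
        generalize dv p d.1.2 = a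
        generalize dv p e.1.2 = b
        generalize dv p (rep (outs OP d.1)).1.2 = c
        cases a <;> cases b <;> cases c <;> simp
    have hfin : Finite (Sel A B) :=
      Finite.of_injective
        (fun d : Sel A B => (⟨kk d, hmem d⟩ : {z // z ∈ G ×ˢ F}))
        (fun d e hde => hinj (congrArg Subtype.val hde))
    refine ⟨Set.toFinite _, ?_⟩
    have hcard : (Sel A B).ncard ≤ (G ×ˢ F).card := by
      rw [← Nat.card_coe_set_eq]
      have := Fintype.ofFinite (Sel A B)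
      rw [Nat.card_eq_fintype_card, ← Finset.card_univ]
      exact Finset.card_le_card_of_injOn kk (fun d _ => hmem d) hinj.injOn
    refine hcard.trans ?_
    rw [Finset.card_product, hFcard]
  · rw [Set.not_nonempty_iff_eq_empty] at hne
    rw [hne]
    exact ⟨Set.finite_empty, by simp⟩

/-- the real condition -/
lemma real_sign {D : ℤ} (hD : 0 < D) {d1 d2 : ℤ} (h1 : d1 ≠ 0) (h2 : d2 ≠ 0)
    (h : Loc ℝ D (-D) d1 d2) : 0 < d1 ↔ 0 < d2 := by
  obtain ⟨x, y, hy, hxy, hs1, hs2⟩ := h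
  have hDr : (0 : ℝ) < D := by exact_mod_cast hD
  push_cast at hxy
  have hprod : 0 < x * (x - D) * (x - -D) := by
    rw [← hxy]
    positivity
  have hx0 : x ≠ 0 := by
    rintro rfl
    simp at hprod
  have hxD0 : x - D ≠ 0 := by
    intro h0
    rw [h0] at hprod
    simp at hprod
  have h1r : (d1 : ℝ) ≠ 0 := by exact_mod_cast h1
  have h2r : (d2 : ℝ) ≠ 0 := by exact_mod_cast h2
  have p1 : 0 < x * d1 := lt_of_le_of_ne hs1.nonneg (mul_ne_zero hx0 h1r).symm
  have p2 : 0 < (x - D) * d2 := lt_of_le_of_ne hs2.nonneg (mul_ne_zero hxD0 h2r).symm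
  rcases lt_or_gt_of_ne hx0 with hx | hx
  · have hxD : x - D < 0 := by linarith
    have n1 : (d1 : ℝ) < 0 := by
      by_contra h
      push Not at h
      nlinarith
    have n2 : (d2 : ℝ) < 0 := by
      by_contra h
      push Not at h
      nlinarith
    have m1 : d1 < 0 := by exact_mod_cast n1
    have m2 : d2 < 0 := by exact_mod_cast n2
    constructor <;> intro h <;> omega
  · have hxD : 0 < x - D := by
      by_contra h
      push Not at h
      have h3 : 0 < x - -D := by linarith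
      have h4 : x * (x - D) ≤ 0 := mul_nonpos_of_nonneg_of_nonpos hx.le h
      nlinarith
    have n1 : (0 : ℝ) < d1 := by
      by_contra h
      push Not at h
      nlinarith
    have n2 : (0 : ℝ) < d2 := by
      by_contra h
      push Not at h
      nlinarith
    have m1 : 0 < d1 := by exact_mod_cast n1
    have m2 : 0 < d2 := by exact_mod_cast n2
    exact ⟨fun _ => m2, fun _ => m1⟩

/-- the condition at two -/
lemma two_odd {A B : ℤ} (hA : ¬ (2 : ℤ) ∣ A) (hB : ¬ (2 : ℤ) ∣ B) {d1 d2 : ℤ}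
    (h1 : Squarefree d1) [Fact (Nat.Prime 2)] (h : Loc ℚ_[2] A B d1 d2) : ¬ (2 : ℤ) ∣ d1 := by
  obtain ⟨x, y, hy, hxy, hs1, -⟩ := h
  have hprod : x * (x - A) * (x - B) ≠ 0 := by
    rw [← hxy]
    exact pow_ne_zero 2 hy
  have hx0 : x ≠ 0 := left_ne_zero_of_mul (left_ne_zero_of_mul hprod)
  have hxA0 : x - A ≠ 0 := right_ne_zero_of_mul (left_ne_zero_of_mul hprod)
  have hxB0 : x - B ≠ 0 := right_ne_zero_of_mul hprod
  have hev : Even (x.valuation + (x - A).valuation + (x - B).valuation) := by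
    rw [← Padic.valuation_mul hx0 hxA0, ← Padic.valuation_mul (mul_ne_zero hx0 hxA0) hxB0, ← hxy,
      sq, Padic.valuation_mul hy hy]
    exact ⟨_, rfl⟩
  have hu : ∀ C : ℤ, ¬ (2 : ℤ) ∣ C → ‖(C : ℚ_[2])‖ = 1 := by
    intro C hC
    have h3 := Padic.norm_intCast_eq_one_iff (p := 2) (z := C)
    rw [h3]
    rw [Int.isCoprime_iff_gcd_eq_one, Int.gcd_comm]
    exact (Int.isCoprime_iff_gcd_eq_one.1 ((Int.prime_two.coprime_iff_not_dvd).2 hC))
  have hval : ∀ z : ℚ_[2], z ≠ 0 → ‖z‖ = (2 : ℝ) ^ (-z.valuation) := by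
    intro z hz
    have := Padic.norm_eq_zpow_neg_valuation hz
    exact_mod_cast this
  -- the valuation of `x` is even
  have hxev : Even x.valuation := by
    rcases lt_trichotomy ‖x‖ 1 with hlt | heq | hgt
    · -- units
      have key : ∀ C : ℤ, ¬ (2 : ℤ) ∣ C → x - C ≠ 0 → (x - C).valuation = 0 := by
        intro C hC hxC
        have h3 : ‖x - C‖ = 1 := by
          have h4 : ‖x‖ ≠ ‖-(C : ℚ_[2])‖ := by
            rw [norm_neg, hu C hC]
            exact hlt.ne
          rw [sub_eq_add_neg, Padic.add_eq_max_of_ne h4, norm_neg, hu C hC, max_eq_right hlt.le]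
        rw [hval _ hxC] at h3
        have h5 : -(x - C).valuation = 0 := by
          have := (zpow_eq_one_iff_right₀ (by norm_num : (0 : ℝ) ≤ 2) (by norm_num)).1 h3
          exact this
        omega
      rw [key A hA hxA0, key B hB hxB0] at hev
      simpa using hev
    · rw [hval _ hx0] at heq
      have := (zpow_eq_one_iff_right₀ (by norm_num : (0 : ℝ) ≤ 2) (by norm_num)).1 heq
      have h5 : x.valuation = 0 := by omega
      rw [h5]
      exact ⟨0, rfl⟩
    · have key : ∀ C : ℤ, ¬ (2 : ℤ) ∣ C → x - C ≠ 0 → (x - C).valuation = x.valuation := by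
        intro C hC hxC
        have h3 : ‖x - C‖ = ‖x‖ := by
          have h4 : ‖x‖ ≠ ‖-(C : ℚ_[2])‖ := by
            rw [norm_neg, hu C hC]
            exact hgt.ne'
          rw [sub_eq_add_neg, Padic.add_eq_max_of_ne h4, norm_neg, hu C hC, max_eq_left hgt.le]
        rw [hval _ hxC, hval _ hx0] at h3
        have h5 := (zpow_right_inj₀ (by norm_num : (0 : ℝ) < 2) (by norm_num)).1 h3
        omega
      rw [key A hA hxA0, key B hB hxB0] at hev
      rw [Int.even_iff] at hev ⊢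
      omega
  have hd0 : (d1 : ℚ_[2]) ≠ 0 := by exact_mod_cast h1.ne_zero
  have e2 := Pool.Agent.W405.SE.even_val hx0 hd0 hs1
  have := Pool.Agent.W405.SE.not_dvd (p := 2) h1 ((Int.even_add.mp e2).mp hxev)
  exact this

end Pool.Agent.TH715.CN
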