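import Mathlib
import Pool.Agent.TH715.CN.Sel4

/-!
# The curve `y² = x³ - D² x`, `D` a product of different odd primes
-/

set_option autoImplicit false

namespace Pool.Agent.TH715.CN

open Finset

open scoped Classical

open Pool.Agent.W262.RK (NL LocH sg0 XC)
open Pool.Agent.W307.SE (Sel Loc)
open Pool.Agent.W599.RK (Out)
open Pool.Agent.W612.SE (outs)
open Pool.Agent.TH715.RS (LT sqf_prod locH_tw)
open Pool.Agent.W307.RT (Sh)
open Pool.Agent.TH841.SH (SelG IsR LocC)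
open Pool.Agent.W262.SH (Sha)

/-- the coefficients of the congruent number curve -/
def kc : Fin 3 → ℤ := ![1, -1, 2]

/-- the 2-Selmer group of `y² = x³ - D² x` -/
theorem sel_cn {T : Finset ℕ} (hT : ∀ p ∈ T, p.Prime ∧ p ≠ 2) :
    (Sel ((∏ q ∈ T, q : ℕ) : ℤ) (-((∏ q ∈ T, q : ℕ) : ℤ))).Finite ∧
    (Sel ((∏ q ∈ T, q : ℕ) : ℤ) (-((∏ q ∈ T, q : ℕ) : ℤ))).ncard ≤
      4 * NL (∏ q ∈ T, q) (LT kc (∏ q ∈ T, q)) := by
  classical
  have hT' : ∀ p ∈ T, p.Prime ∧ ¬ (p : ℤ) ∣ 2 * kc 0 * kc 1 * kc 2 := by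
    intro p hp
    refine ⟨(hT p hp).1, fun h => ?_⟩
    have h1 : 2 * kc 0 * kc 1 * kc 2 = -(2 ^ 2) := by decide
    rw [h1, dvd_neg] at h
    have h2 : (p : ℤ) ∣ 2 := (Nat.prime_iff_prime_int.1 (hT p hp).1).dvd_of_dvd_pow h
    have h3 : p ∣ 2 := by exact_mod_cast h2
    exact (hT p hp).2 ((Nat.prime_dvd_prime_iff_eq (hT p hp).1 Nat.prime_two).1 h3)
  have hloc := fun p hp => locH_tw (a := kc) (by decide) hT' (p := p) hp
  set m := ∏ q ∈ T, q with hm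
  have hmem : ∀ p : ℕ, p.Prime → p ∣ m → p ∈ T := by
    intro p hp h
    obtain ⟨q, hq, h1⟩ := (hp.prime.dvd_finsetProd_iff _).1 h
    rw [(Nat.prime_dvd_prime_iff_eq hp (hT q hq).1).1 h1]
    exact hq
  have hm0 : m ≠ 0 := prod_ne_zero_iff.2 fun q hq => (hT q hq).1.ne_zero
  have hmZ : (m : ℤ) ≠ 0 := by exact_mod_cast hm0
  have hmpos : (0 : ℤ) < m := by
    have := Nat.pos_of_ne_zero hm0
    exact_mod_cast this
  have hodd : ¬ (2 : ℤ) ∣ m := by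
    intro h
    have h1 : 2 ∣ m := by exact_mod_cast h
    exact (hT 2 (hmem 2 Nat.prime_two h1)).2 rfl
  have hk0 : kc 0 * (m : ℤ) = m := by
    unfold kc
    simp
  have hk1 : kc 1 * (m : ℤ) = -m := by
    unfold kc
    simp
  have hnk : ∀ p ∈ T, ∀ k, ¬ (p : ℤ) ∣ kc k := by
    intro p hp k h
    apply (hT' p hp).2
    fin_cases k
    · exact ((h.mul_left 2).mul_right _).mul_right _
    · exact (h.mul_left _).mul_right _
    · exact h.mul_left _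
  set OP : Finset ℕ := {2} with hOP
  have h2mem : (2 : ℕ) ∈ OP := mem_singleton_self 2
  set G : Finset (Out OP) := univ.filter (fun o => o.1 = o.2.1 ∧ ∀ q, (o.2.2 q).1 = false) with hG
  have hGc : G.card ≤ 4 := by
    have h1 : G.card ≤ (univ : Finset (Bool × Bool)).card := by
      refine card_le_card_of_injOn (fun o => (o.1, (o.2.2 ⟨2, h2mem⟩).2)) (fun _ _ => mem_univ _) ?_
      intro o ho o' ho' h
      obtain ⟨-, h1, h2⟩ := mem_filter.1 ho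
      obtain ⟨-, h1', h2'⟩ := mem_filter.1 ho'
      have h' : (o.1, (o.2.2 ⟨2, h2mem⟩).2) = (o'.1, (o'.2.2 ⟨2, h2mem⟩).2) := h
      obtain ⟨e1, e2⟩ := Prod.mk.inj h'
      refine Prod.ext e1 (Prod.ext (h1.symm.trans (e1.trans h1')) ?_)
      funext q
      have hq : q = ⟨2, h2mem⟩ := by
        apply Subtype.ext
        exact mem_singleton.1 q.2
      rw [hq]
      exact Prod.ext ((h2 _).trans (h2' _).symm) e2
    exact h1.trans (by decide)
  have h5 := seld_out (m := m) (L := LT kc m) (A := (m : ℤ)) (B := -(m : ℤ)) hmZ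
    (neg_ne_zero.2 hmZ) (by omega) (sqf_prod T fun p hp => (hT p hp).1)
    (fun p hp hpd => Pool.Agent.W342.RK2.xcl 3 kc _ p hp (hT p (hmem p hp hpd)).2
      (hnk p (hmem p hp hpd)))
    (fun p hp hpd x x' hx' hcurve e1 e2 he1 he2 hsq1 hsq2 => by
      have hpp : p.Prime := Fact.out
      have h6 := hloc p (hmem p hpp hpd)
      rw [hk0, hk1] at h6
      exact Pool.Agent.W307.SE.loclp_of Pool.Agent.W407.SE.ratp 3 kc _ p _ _
        (hT p (hmem p hpp hpd)).2 (hnk p (hmem p hpp hpd))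
        h6 x x' hx' hcurve e1 e2 he1 he2 hsq1 hsq2)
    OP (fun q hq hqd hqm => by
      rw [hOP, mem_singleton]
      have h7 : 2 * (m : ℤ) * (-(m : ℤ)) * ((m : ℤ) - -(m : ℤ)) = -(2 ^ 2 * (m : ℤ) ^ 3) := by ring
      rw [h7, dvd_neg] at hqd
      rcases (Nat.prime_iff_prime_int.1 hq).dvd_or_dvd hqd with h8 | h8
      · have h9 : (q : ℤ) ∣ 2 := (Nat.prime_iff_prime_int.1 hq).dvd_of_dvd_pow h8
        have h10 : q ∣ 2 := by exact_mod_cast h9
        exact (Nat.prime_dvd_prime_iff_eq hq Nat.prime_two).1 h10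
      · have h9 : (q : ℤ) ∣ m := (Nat.prime_iff_prime_int.1 hq).dvd_of_dvd_pow h8
        exact absurd (by exact_mod_cast h9) hqm)
    G (fun d hd => by
      rw [hG, mem_filter]
      refine ⟨mem_univ _, ?_, fun q => ?_⟩
      · unfold outs
        change decide (0 < d.1) = decide (0 < d.2)
        rw [decide_eq_decide]
        exact real_sign hmpos hd.1.ne_zero hd.2.1.ne_zero hd.2.2.1
      · unfold outs
        change decide (((q.1 : ℕ) : ℤ) ∣ d.1) = false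
        rw [decide_eq_false_iff_not]
        have hq : q.1 = 2 := mem_singleton.1 q.2
        rw [hq]
        have : Fact (Nat.Prime 2) := ⟨Nat.prime_two⟩
        have h8 := two_odd (A := (m : ℤ)) (B := -(m : ℤ)) hodd (fun h => hodd (by
          rwa [dvd_neg] at h)) hd.1 (hd.2.2.2 2)
        exact_mod_cast h8)
  exact ⟨h5.1, h5.2.trans (Nat.mul_le_mul_right _ hGc)⟩

lemma not_sq_two : ¬ IsSquare (2 : ℚ) := by
  rintro ⟨r, hr⟩
  have h1 : Irrational (Real.sqrt 2) := irrational_sqrt_two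
  apply h1
  refine ⟨|r|, ?_⟩
  have h2 : (2 : ℝ) = (r : ℝ) ^ 2 := by
    rw [sq]
    exact_mod_cast hr
  rw [h2, Real.sqrt_sq_eq_abs]
  push_cast
  rfl

/-- **the rank and the Tate-Shafarevich group of `y² = x³ - D² x`** -/
theorem cn_bound {T : Finset ℕ} (hT : ∀ p ∈ T, p.Prime ∧ p ≠ 2) :
    Finite {x : Sha (Sh (-((∏ q ∈ T, q : ℕ) : ℤ) ^ 2) 0) // x + x = 0} ∧
    2 ^ Module.finrank ℤ (Sh (-((∏ q ∈ T, q : ℕ) : ℤ) ^ 2) 0).toAffine.Point *
      Nat.card {x : Sha (Sh (-((∏ q ∈ T, q : ℕ) : ℤ) ^ 2) 0) // x + x = 0} ≤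
      NL (∏ q ∈ T, q) (LT kc (∏ q ∈ T, q)) := by
  classical
  obtain ⟨h1, h2⟩ := sel_cn hT
  have hm0 : (∏ q ∈ T, q) ≠ 0 := prod_ne_zero_iff.2 fun q hq => (hT q hq).1.ne_zero
  set m := ∏ q ∈ T, q with hm
  have hmpos : (0 : ℤ) < m := by
    have := Nat.pos_of_ne_zero hm0
    exact_mod_cast this
  have hmq : (0 : ℚ) < ((m : ℤ) : ℚ) := by exact_mod_cast hmpos
  have hsub : ∀ (K : Type) [Field K] (d1 d2 : ℤ), LocC K 0 (m : ℤ) (-(m : ℤ)) d1 d2 →
      Loc K (m : ℤ) (-(m : ℤ)) d1 d2 := by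
    rintro K _ d1 d2 ⟨x, y, hy, hxy, hs1, hs2⟩
    rw [Int.cast_zero, sub_zero] at hxy hs1
    exact ⟨x, y, hy, hxy, hs1, hs2⟩
  have hss : SelG 0 (m : ℤ) (-(m : ℤ)) ⊆ Sel (m : ℤ) (-(m : ℤ)) := by
    rintro d ⟨a1, a2, a3, a4⟩
    exact ⟨a1, a2, hsub ℝ _ _ a3, fun p _ => hsub ℚ_[p] _ _ (a4 p)⟩
  have hfin : (SelG 0 (m : ℤ) (-(m : ℤ))).Finite := h1.subset hss
  have hcard : (SelG 0 (m : ℤ) (-(m : ℤ))).ncard ≤ (Sel (m : ℤ) (-(m : ℤ))).ncard :=
    Set.ncard_le_ncard hss h1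
  have hR : IsR (Sh (-(m : ℤ) ^ 2) 0) ((0 : ℤ) : ℚ) ((m : ℤ) : ℚ) ((-(m : ℤ) : ℤ) : ℚ) := by
    refine ⟨rfl, ?_, rfl, ?_, ?_⟩
    · show (0 : ℚ) = _
      push_cast
      ring
    · show ((-(m : ℤ) ^ 2 : ℤ) : ℚ) = _
      push_cast
      ring
    · show ((0 : ℤ) : ℚ) = _
      push_cast
      ring
  have n1 : (0 : ℤ) ≠ (m : ℤ) := by omega
  have n2 : (0 : ℤ) ≠ -(m : ℤ) := by omega
  have n3 : (m : ℤ) ≠ -(m : ℤ) := by omega
  have h3 := Pool.Agent.TH841.SH.main _ 0 (m : ℤ) (-(m : ℤ)) hR n1 n2 n3 hfin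
  have h4 := main4 _ 0 (m : ℤ) (-(m : ℤ)) hR n1 n2 n3 hfin
    (by
      rintro ⟨h, -⟩
      have := h.nonneg
      push_cast at this hmq
      linarith)
    (by
      rintro ⟨⟨r, hr⟩, ⟨s, hs⟩⟩
      have hr0 : r ≠ 0 := by
        rintro rfl
        push_cast at hr hmq
        linarith
      apply not_sq_two
      refine ⟨s / r, ?_⟩
      rw [div_mul_div_comm, ← hr, ← hs]
      push_cast at hmq ⊢
      rw [sub_zero, sub_neg_eq_add, eq_div_iff hmq.ne']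
      ring)
    (by
      rintro ⟨h, -⟩
      have := h.nonneg
      push_cast at this hmq
      linarith)
  refine ⟨h3.1, ?_⟩
  have h5 := (h4.trans hcard).trans h2
  rw [mul_assoc] at h5
  exact Nat.le_of_mul_le_mul_left h5 (Nat.succ_pos 3)

end Pool.Agent.TH715.CN
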