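import Mathlib
import Pool.Agent.TH715.RS.Exp
import Pool.Agent.TH715.CN.Cn

/-!
# The local conditions for primes that are three modulo eight
-/

set_option autoImplicit false

namespace Pool.Agent.TH715.CN

open Finset

open Pool.Agent.W262.RK (Jr NL LL dv sgn sg0)

open Pool.Agent.TH715.RS

/-- a Boolean as an element of the field with two elements -/
def bz (b : Bool) : ZMod 2 := if b then 1 else 0

lemma bz_xor (a b : Bool) : bz (xor a b) = bz a + bz b := by
  revert a b
  decide

lemma bz_and (a b : Bool) : bz (a && b) = bz a * bz b := by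
  revert a b
  decide

lemma bz_inj {a b : Bool} (h : bz a = bz b) : a = b := by
  revert a b
  decide

lemma bz_iff {a b : Bool} : a = b ↔ bz a = bz b := ⟨fun h => by rw [h], bz_inj⟩

lemma sg_one (p : ℕ) : sg0 p 1 = false := by
  unfold sg0
  rw [jacobiSym.one_left]
  decide

lemma three_eight {p : ℕ} (hp : p % 8 = 3) :
    sg0 p (-1) = true ∧ sg0 p 2 = true ∧ sg0 p (-2) = false := by
  have hodd : Odd p := by
    rw [Nat.odd_iff]
    omega
  have h8 : (p : ZMod 8) = 3 := by
    have h1 : ((p % 8 : ℕ) : ZMod 8) = (p : ZMod 8) := ZMod.natCast_mod p 8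
    rw [← h1, hp]
    rfl
  have h4 : (p : ZMod 4) = 3 := by
    have h1 : ((p % 4 : ℕ) : ZMod 4) = (p : ZMod 4) := ZMod.natCast_mod p 4
    have h2 : p % 4 = 3 := by omega
    rw [← h1, h2]
    rfl
  unfold sg0
  rw [jacobiSym.at_neg_one hodd, jacobiSym.at_two hodd, jacobiSym.at_neg_two hodd, h8, h4]
  decide

lemma E1_kc {p : ℕ} (hp : p % 8 = 3) (v w : Bool) : E1 kc p v w = w := by
  obtain ⟨h1, h2, h3⟩ := three_eight hp
  have e0 : kc 0 = 1 := rfl
  have e1 : kc 0 * kc 1 = -1 := by decide
  have e2 : kc 1 = -1 := rfl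
  unfold E1
  rw [e1, e0, e2, sg_one, h1]
  cases v <;> cases w <;> rfl

lemma E2_kc {p : ℕ} (hp : p % 8 = 3) (v w : Bool) : E2 kc p v w = xor v w := by
  obtain ⟨h1, h2, h3⟩ := three_eight hp
  have e0 : -kc 0 = -1 := rfl
  have e1 : kc 0 * kc 2 = 2 := by decide
  have e2 : -kc 2 = -2 := rfl
  unfold E2
  rw [e1, e0, e2, h1, h2, h3]
  cases v <;> cases w <;> rfl

lemma fin_check : ∀ a b c d n n' : ZMod 2, (n * (a + c) = b ∧ n * (b + d) = a + b ∧
    n' * (a + c) = d ∧ n' * (b + d) = c + d) → c = a ∧ d = b := by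
  decide

section

variable {j : ℕ} (x : Fin j → ℕ)

/-- the symbol of `x l` modulo `x i` -/
def Ab (i l : Fin j) : ZMod 2 := bz (sg0 (x i) ((x l : ℕ) : ℤ))

/-- the conditions, over the field with two elements -/
def Sol (V W : Fin j → ZMod 2) : Prop := ∀ i,
  (∑ l ∈ univ.erase i, Ab x i l * (V l + V i) = W i) ∧
    ∑ l ∈ univ.erase i, Ab x i l * (W l + W i) = V i + W i

variable {x} (hx : Function.Injective x) (hp : ∀ i, (x i).Prime)

include hx hp

lemma unit_xl {i l : Fin j} (h : l ≠ i) : jacobiSym ((x l : ℕ) : ℤ) (x i) = 1 ∨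
    jacobiSym ((x l : ℕ) : ℤ) (x i) = -1 := by
  refine jacobiSym.eq_one_or_neg_one ?_
  rw [Int.gcd_natCast_natCast]
  exact (Nat.coprime_primes (hp l) (hp i)).2 (hx.ne h)

lemma bz_prod (i : Fin j) (S : Finset (Fin j)) (hi : i ∉ S) :
    bz (sg0 (x i) ((∏ l ∈ S, x l : ℕ) : ℤ)) = ∑ l ∈ S, Ab x i l := by
  classical
  induction S using Finset.induction_on with
  | empty =>
    rw [prod_empty, sum_empty, Nat.cast_one, sg_one]
    rfl
  | insert a S ha ih =>
    rw [mem_insert, not_or] at hi
    rw [prod_insert ha, sum_insert ha, ← ih hi.2]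
    have h1 := unit_xl hx hp (i := i) (l := a) (Ne.symm hi.1)
    have h2 := jr_unit hx hp S i hi.2
    unfold Ab
    rw [← bz_xor]
    congr 1
    unfold sg0
    rw [Nat.cast_mul, jacobiSym.mul_left]
    rcases h1 with h1 | h1 <;> rcases h2 with h2 | h2 <;> rw [h1, h2] <;> decide

lemma bz_ng (i : Fin j) : bz (ng x i) = ∑ l ∈ univ.erase i, Ab x i l := by
  classical
  unfold ng
  have h0 : univ.filter (fun l => l ≠ i) = univ.erase i := by
    ext l
    simp
  rw [h0]
  exact bz_prod hx hp i _ (by simp)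

lemma bz_hh (φ : Fin j → Bool) (i : Fin j) :
    bz (hh1 x φ i) = ∑ l ∈ univ.erase i, Ab x i l * bz (φ l) := by
  classical
  unfold hh1
  have h0 : univ.filter (fun l => l ≠ i ∧ φ l = true) =
      (univ.erase i).filter (fun l => φ l = true) := by
    ext l
    simp
  rw [bz_prod hx hp i _ (by simp), h0, sum_filter]
  refine sum_congr rfl fun l _ => ?_
  unfold bz
  split_ifs <;> simp

omit hx hp in
lemma char_two_iff (a b c : ZMod 2) : a = b + c ↔ a + b = c := by
  revert a b c
  decide

lemma ll_iff (h8 : ∀ i, x i % 8 = 3) (φ : Fin j → Bool × Bool) :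
    (∀ i, LL 3 kc (ng x i) (x i) (φ i).1 (φ i).2 (hh1 x (fun l => (φ l).1) i)
      (hh1 x (fun l => (φ l).2) i)) ↔ Sol x (fun l => bz (φ l).1) (fun l => bz (φ l).2) := by
  classical
  unfold Sol
  refine forall_congr' fun i => ?_
  rw [LL_iff, E1_kc (h8 i), E2_kc (h8 i), bz_iff, bz_iff (a := hh1 x (fun l => (φ l).2) i),
    bz_xor, bz_xor, bz_xor, bz_and, bz_and, bz_hh hx hp, bz_hh hx hp, bz_ng hx hp,
    char_two_iff, char_two_iff]
  have h1 : ∀ V : Fin j → ZMod 2, ∑ l ∈ univ.erase i, Ab x i l * V l +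
      V i * ∑ l ∈ univ.erase i, Ab x i l = ∑ l ∈ univ.erase i, Ab x i l * (V l + V i) := by
    intro V
    rw [mul_sum, ← sum_add_distrib]
    refine sum_congr rfl fun l _ => ?_
    ring
  rw [h1 (fun l => bz (φ l).1), h1 (fun l => bz (φ l).2)]

lemma recip (h8 : ∀ i, x i % 8 = 3) {i l : Fin j} (h : l ≠ i) : Ab x i l + Ab x l i = 1 := by
  have h1 := unit_xl hx hp h
  have h2 := unit_xl hx hp h.symm
  have h3 := jacobiSym.quadratic_reciprocity_three_mod_four (a := x l) (b := x i)
    (by have := h8 l; omega) (by have := h8 i; omega)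
  unfold Ab sg0
  rcases h1 with h1 | h1 <;> rcases h2 with h2 | h2 <;> rw [h1, h2] at h3 ⊢ <;>
    first | decide | (exfalso; revert h3; decide)

/-- the sum of a solution is zero -/
lemma sol_sum (h8 : ∀ i, x i % 8 = 3) {V W : Fin j → ZMod 2} (h : Sol x V W) :
    ∑ i, V i = 0 ∧ ∑ i, W i = 0 := by
  classical
  have key : ∀ V : Fin j → ZMod 2, ∑ i, ∑ l ∈ univ.erase i, Ab x i l * (V l + V i) =
      ((j : ZMod 2) - 1) * ∑ i, V i := by
    intro V
    have h1 : ∑ i, ∑ l ∈ univ.erase i, Ab x i l * V l =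
        ∑ i, ∑ l ∈ univ.erase i, Ab x l i * V i := by
      have h2 : ∀ F : Fin j → Fin j → ZMod 2, ∑ i, ∑ l ∈ univ.erase i, F i l =
          ∑ i, ∑ l, if l = i then 0 else F i l := by
        intro F
        refine sum_congr rfl fun i _ => ?_
        rw [← filter_ne' univ i, sum_filter]
        refine sum_congr rfl fun l _ => ?_
        by_cases hl : l = i
        · rw [if_pos hl, if_neg (not_not.2 hl)]
        · rw [if_neg hl, if_pos hl]
      rw [h2, h2, sum_comm]
      refine sum_congr rfl fun l _ => sum_congr rfl fun i _ => ?_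
      by_cases hl : l = i
      · rw [if_pos hl, if_pos hl.symm]
      · rw [if_neg hl, if_neg (Ne.symm hl)]
    have h2 : ∑ i, ∑ l ∈ univ.erase i, Ab x i l * (V l + V i) =
        ∑ i, ∑ l ∈ univ.erase i, (Ab x l i * V i + Ab x i l * V i) := by
      have h3 : ∑ i, ∑ l ∈ univ.erase i, Ab x i l * (V l + V i) =
          ∑ i, ∑ l ∈ univ.erase i, Ab x i l * V l + ∑ i, ∑ l ∈ univ.erase i, Ab x i l * V i := by
        rw [← sum_add_distrib]
        refine sum_congr rfl fun i _ => ?_
        rw [← sum_add_distrib]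
        refine sum_congr rfl fun l _ => ?_
        ring
      rw [h3, h1, ← sum_add_distrib]
      refine sum_congr rfl fun i _ => ?_
      rw [← sum_add_distrib]
    rw [h2, mul_sum]
    refine sum_congr rfl fun i _ => ?_
    have h3 : ∀ l ∈ univ.erase i, Ab x l i * V i + Ab x i l * V i = V i := by
      intro l hl
      rw [← add_mul, add_comm (Ab x l i), recip hx hp h8 (ne_of_mem_erase hl), one_mul]
    rw [sum_congr rfl h3, sum_const, card_erase_of_mem (mem_univ i), card_univ, Fintype.card_fin,
      nsmul_eq_mul]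
    congr 1
    have hj : 1 ≤ j := by
      have := i.2
      omega
    rw [Nat.cast_sub hj, Nat.cast_one]
  have e1 : ((j : ZMod 2) - 1) * ∑ i, V i = ∑ i, W i := by
    rw [← key V]
    exact sum_congr rfl fun i _ => (h i).1
  have e2 : ((j : ZMod 2) - 1) * ∑ i, W i = ∑ i, V i + ∑ i, W i := by
    rw [← key W, ← sum_add_distrib]
    exact sum_congr rfl fun i _ => (h i).2
  generalize ((j : ZMod 2) - 1) = c at e1 e2
  generalize ∑ i, V i = s at e1 e2 ⊢
  generalize ∑ i, W i = t at e1 e2 ⊢
  revert c s t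
  decide

omit hx hp in
/-- a nonzero solution has at least three values -/
lemma sol_three {V W : Fin j → ZMod 2} (h : Sol x V W)
    (h3 : ∀ i0 i1 i2 : Fin j, (V i0, W i0) = (V i1, W i1) ∨ (V i0, W i0) = (V i2, W i2) ∨
      (V i1, W i1) = (V i2, W i2)) (i : Fin j) : V i = 0 ∧ W i = 0 := by
  classical
  -- the condition at an index, if the values differ from the value there by multiples of one
  have key : ∀ i, ∀ a b : ZMod 2, (∀ l, ∃ t : ZMod 2, V l + V i = t * a ∧ W l + W i = t * b) →
      ∃ n : ZMod 2, n * a = W i ∧ n * b = V i + W i := by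
    intro i a b hab
    choose t ht1 ht2 using hab
    refine ⟨∑ l ∈ univ.erase i, Ab x i l * t l, ?_, ?_⟩
    · rw [← (h i).1, sum_mul]
      refine sum_congr rfl fun l _ => ?_
      rw [ht1 l]
      ring
    · rw [← (h i).2, sum_mul]
      refine sum_congr rfl fun l _ => ?_
      rw [ht2 l]
      ring
  by_cases hc : ∀ l, (V l, W l) = (V i, W i)
  · obtain ⟨n, h1, h2⟩ := key i 0 0 fun l => ⟨0, by
      have := hc l
      rw [Prod.mk.injEq] at this
      rw [this.1, this.2]
      generalize V i = a
      generalize W i = b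
      revert a b
      decide⟩
    rw [mul_zero] at h1 h2
    rw [← h1] at h2 ⊢
    exact ⟨by simpa using h2.symm, rfl⟩
  · push Not at hc
    obtain ⟨i', hi'⟩ := hc
    have hval : ∀ l, (V l, W l) = (V i, W i) ∨ (V l, W l) = (V i', W i') := by
      intro l
      rcases h3 i' i l with h4 | h4 | h4
      · exact absurd h4 hi'
      · exact Or.inr h4.symm
      · exact Or.inl h4.symm
    obtain ⟨n, h1, h2⟩ := key i (V i + V i') (W i + W i') fun l => by
      rcases hval l with h4 | h4
      · refine ⟨0, ?_⟩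
        rw [Prod.mk.injEq] at h4
        rw [h4.1, h4.2]
        generalize V i = a
        generalize W i = b
        generalize V i' = c
        generalize W i' = d
        revert a b c d
        decide
      · refine ⟨1, ?_⟩
        rw [Prod.mk.injEq] at h4
        rw [h4.1, h4.2]
        generalize V i = a
        generalize W i = b
        generalize V i' = c
        generalize W i' = d
        revert a b c d
        decide
    obtain ⟨n', h1', h2'⟩ := key i' (V i + V i') (W i + W i') fun l => by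
      rcases hval l with h4 | h4
      · refine ⟨1, ?_⟩
        rw [Prod.mk.injEq] at h4
        rw [h4.1, h4.2]
        generalize V i = a
        generalize W i = b
        generalize V i' = c
        generalize W i' = d
        revert a b c d
        decide
      · refine ⟨0, ?_⟩
        rw [Prod.mk.injEq] at h4
        rw [h4.1, h4.2]
        generalize V i = a
        generalize W i = b
        generalize V i' = c
        generalize W i' = d
        revert a b c d
        decide
    exfalso
    obtain ⟨e1, e2⟩ := fin_check _ _ _ _ n n' ⟨h1, h2, h1', h2'⟩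
    exact hi' (by rw [e1, e2])

omit hx hp in
lemma sol_rot {V W : Fin j → ZMod 2} (h : Sol x V W) : Sol x W (fun i => V i + W i) := by
  intro i
  obtain ⟨h1, h2⟩ := h i
  refine ⟨h2, ?_⟩
  have h3 : ∑ l ∈ univ.erase i, Ab x i l * (V l + W l + (V i + W i)) =
      ∑ l ∈ univ.erase i, Ab x i l * (V l + V i) + ∑ l ∈ univ.erase i, Ab x i l * (W l + W i) := by
    rw [← sum_add_distrib]
    refine sum_congr rfl fun l _ => ?_
    ring
  rw [h3, h1, h2]

end

end Pool.Agent.TH715.CN
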