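import Mathlib
import Pool.Agent.TH715.CN.Sym
import Pool.Agent.TH715.CN.Lin

/-!
# One pair of divisors
-/

set_option autoImplicit false

namespace Pool.Agent.TH715.CN

open Finset

open Pool.Agent.W262.RK (Jr NL LL dv sgn sg0)

open Pool.Agent.TH715.RS

/-- the colour -/
def colour (a p : Bool × Bool) : Bool → Bool × Bool :=
  fun r => if r then (a.2, p.2) else (a.1, p.1)

/-- the linking of two colours -/
def par (a b p q : Bool × Bool) : Bool :=
  xor ((xor p.1 q.1) && (xor a.1 b.1)) ((xor p.2 q.2) && (xor a.2 b.2))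

lemma nn_colour (a b p q : Bool × Bool) : nn (colour a p) (colour b q) =
    (if e0 (a.2, p.2) (b.2, q.2) then 1 else 0) + (if e0 (a.1, p.1) (b.1, q.1) then 1 else 0) := by
  unfold nn
  rw [card_filter, Fintype.sum_bool]
  rfl

lemma odd_iff (a b p q : Bool × Bool) :
    Odd (nn (colour a p) (colour b q) + nn (colour b q) (colour a p)) ↔ par a b p q = true := by
  rw [nn_colour, nn_colour]
  revert a b p q
  decide

lemma triple_card : ∀ a b c : Bool × Bool, a ≠ b ∧ a ≠ c ∧ b ≠ c →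
    (univ.filter (fun p : (Bool × Bool) × (Bool × Bool) × (Bool × Bool) =>
      par a b p.1 p.2.1 = false ∧ par a c p.1 p.2.2 = false ∧
        par b c p.2.1 p.2.2 = false)).card ≤ 8 := by
  decide +kernel

/-- orthogonality -/
def orth (t a d : Bool × Bool) : Bool := xor (t.1 && xor a.1 d.1) (t.2 && xor a.2 d.2)

lemma orth_of : ∀ a d p s s' : Bool × Bool, par a d p s = false ∧ par a d p s' = false →
    orth (xor s.1 s'.1, xor s.2 s'.2) a d = false := by
  decide +kernel

lemma orth_three : ∀ a b c d t : Bool × Bool, (a ≠ b ∧ a ≠ c ∧ b ≠ c) ∧ orth t a d = false ∧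
    orth t b d = false ∧ orth t c d = false → t = (false, false) := by
  decide +kernel

lemma xor_eq : ∀ s s' : Bool × Bool, (xor s.1 s'.1, xor s.2 s'.2) = (false, false) → s = s' := by
  decide

/-- the number of the compatible functions -/
lemma compat_card {j : ℕ} (φ : Fin j → Bool × Bool) {i0 i1 i2 : Fin j}
    (h : φ i0 ≠ φ i1 ∧ φ i0 ≠ φ i2 ∧ φ i1 ≠ φ i2) :
    (univ.filter (fun ψ : Fin j → Bool × Bool => ¬ ∃ i l, par (φ i) (φ l) (ψ i) (ψ l) = true)).card
      ≤ 8 := by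
  classical
  refine le_trans (card_le_card_of_injOn (fun ψ => (ψ i0, ψ i1, ψ i2)) ?_ ?_)
    (triple_card (φ i0) (φ i1) (φ i2) h)
  · intro ψ hψ
    have h1 := (mem_filter.1 hψ).2
    push Not at h1
    have h2 : ∀ i l, par (φ i) (φ l) (ψ i) (ψ l) = false := fun i l => by
      simpa using h1 i l
    rw [mem_coe, mem_filter]
    exact ⟨mem_univ _, h2 _ _, h2 _ _, h2 _ _⟩
  · intro ψ hψ ψ' hψ' he
    have h1 := (mem_filter.1 hψ).2
    have h1' := (mem_filter.1 hψ').2
    push Not at h1 h1'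
    have h2 : ∀ i l, par (φ i) (φ l) (ψ i) (ψ l) = false := fun i l => by
      simpa using h1 i l
    have h2' : ∀ i l, par (φ i) (φ l) (ψ' i) (ψ' l) = false := fun i l => by
      simpa using h1' i l
    have he' : (ψ i0, ψ i1, ψ i2) = (ψ' i0, ψ' i1, ψ' i2) := he
    obtain ⟨f0, f12⟩ := Prod.mk.inj he'
    obtain ⟨f1, f2⟩ := Prod.mk.inj f12
    funext l
    apply xor_eq
    refine orth_three (φ i0) (φ i1) (φ i2) (φ l) _ ⟨h, ?_, ?_, ?_⟩
    · exact orth_of _ _ (ψ i0) _ _ ⟨h2 i0 l, by rw [f0]; exact h2' i0 l⟩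
    · exact orth_of _ _ (ψ i1) _ _ ⟨h2 i1 l, by rw [f1]; exact h2' i1 l⟩
    · exact orth_of _ _ (ψ i2) _ _ ⟨h2 i2 l, by rw [f2]; exact h2' i2 l⟩

section one

variable {j : ℕ} {x : Fin j → ℕ} (hx : Function.Injective x) (hp : ∀ i, (x i).Prime)

include hx hp

open Classical in
/-- the expansion for one pair of divisors -/
lemma count_one (κ : Fin 3 → ℤ) (φ : Fin j → Bool × Bool) :
    (∏ i, if LL 3 κ (ng x i) (x i) (φ i).1 (φ i).2
      (hh1 x (fun l => (φ l).1) i) (hh1 x (fun l => (φ l).2) i) then (1 : ℝ) else 0) =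
      (1 / 4) ^ j * ∑ ψ : Fin j → Bool × Bool,
        tm (ch1 κ) (fun i => colour (φ i) (ψ i)) x := by
  classical
  change _ = (1 / 4) ^ j * ∑ ψ : Fin j → Bool × Bool,
        tm (ch1 κ) (fun i r => if r then ((φ i).2, (ψ i).2) else ((φ i).1, (ψ i).1)) x
  have h2 : ∀ i, (if LL 3 κ (ng x i) (x i) (φ i).1 (φ i).2
      (hh1 x (fun l => (φ l).1) i) (hh1 x (fun l => (φ l).2) i) then (1 : ℝ) else 0) =
      1 / 4 * ∑ ψ : Bool × Bool, (if ψ.1 then sb (hh1 x (fun l => (φ l).1) i) *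
        sb (xor ((φ i).1 && ng x i) (E1 κ (x i) (φ i).1 (φ i).2)) else 1) *
        (if ψ.2 then sb (hh1 x (fun l => (φ l).2) i) *
        sb (xor ((φ i).2 && ng x i) (E2 κ (x i) (φ i).1 (φ i).2)) else 1) := by
    intro i
    rw [← ind_four]
    refine if_congr (LL_iff _ _ _ _ _ _ _) rfl rfl
  rw [prod_congr rfl fun i _ => h2 i, prod_mul_distrib, prod_const, card_univ, Fintype.card_fin]
  congr 1
  have h3 := Finset.prod_univ_sum (fun _ : Fin j => (univ : Finset (Bool × Bool)))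
    (fun i ψ => (if ψ.1 then sb (hh1 x (fun l => (φ l).1) i) *
        sb (xor ((φ i).1 && ng x i) (E1 κ (x i) (φ i).1 (φ i).2)) else 1) *
        (if ψ.2 then sb (hh1 x (fun l => (φ l).2) i) *
        sb (xor ((φ i).2 && ng x i) (E2 κ (x i) (φ i).1 (φ i).2)) else 1))
  rw [Fintype.piFinset_univ] at h3
  rw [h3]
  refine sum_congr rfl fun ψ _ => ?_
  have h4 : ∀ i, (if (ψ i).1 then sb (hh1 x (fun l => (φ l).1) i) *
        sb (xor ((φ i).1 && ng x i) (E1 κ (x i) (φ i).1 (φ i).2)) else 1) *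
        (if (ψ i).2 then sb (hh1 x (fun l => (φ l).2) i) *
        sb (xor ((φ i).2 && ng x i) (E2 κ (x i) (φ i).1 (φ i).2)) else 1) =
      ch1 κ (fun r => if r then ((φ i).2, (ψ i).2) else ((φ i).1, (ψ i).1)) (x i) *
      ∏ l, Jr (x l) (x i) ^ nn
        (fun r : Bool => if r then ((φ l).2, (ψ l).2) else ((φ l).1, (ψ l).1))
        (fun r : Bool => if r then ((φ i).2, (ψ i).2) else ((φ i).1, (ψ i).1)) := by
    intro i
    rw [one_plane hx hp (fun l => (φ l).1) (fun l => (ψ l).1) i,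
      one_plane hx hp (fun l => (φ l).2) (fun l => (ψ l).2) i]
    have h5 : ∀ l, nn
        (fun r : Bool => if r then ((φ l).2, (ψ l).2) else ((φ l).1, (ψ l).1))
        (fun r : Bool => if r then ((φ i).2, (ψ i).2) else ((φ i).1, (ψ i).1)) =
        (if e0 ((φ l).1, (ψ l).1) ((φ i).1, (ψ i).1) then 1 else 0) +
        (if e0 ((φ l).2, (ψ l).2) ((φ i).2, (ψ i).2) then 1 else 0) := by
      intro l
      unfold nn
      rw [card_filter, Fintype.sum_bool]
      simp only [if_true, Bool.false_eq_true, if_false]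
      rw [add_comm]
    have h6 : ∏ l, Jr (x l) (x i) ^ nn
        (fun r : Bool => if r then ((φ l).2, (ψ l).2) else ((φ l).1, (ψ l).1))
        (fun r : Bool => if r then ((φ i).2, (ψ i).2) else ((φ i).1, (ψ i).1)) =
        (∏ l, Jr (x l) (x i) ^ (if e0 ((φ l).1, (ψ l).1) ((φ i).1, (ψ i).1) then 1 else 0)) *
        ∏ l, Jr (x l) (x i) ^ (if e0 ((φ l).2, (ψ l).2) ((φ i).2, (ψ i).2) then 1 else 0) := by
      rw [← prod_mul_distrib]
      refine prod_congr rfl fun l _ => ?_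
      rw [h5 l, pow_add]
    rw [h6]
    unfold ch1
    simp only [if_true, Bool.false_eq_true, if_false]
    ring
  rw [prod_congr rfl fun i _ => h4 i, prod_mul_distrib]
  unfold tm
  rw [if_pos hx, one_mul, prod_comm]

end one

end Pool.Agent.TH715.CN
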