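import Mathlib
import Pool.Agent.TH715.CN.Cmp
import Pool.Agent.TH715.RS.Avg

/-!
# The average of the number of solutions is at most three
-/

set_option autoImplicit false

namespace Pool.Agent.TH715.CN

open Finset

open Pool.Agent.W262.RK (Jr NL LL dv sgn sg0)

open Pool.Agent.TH715.RS

/-- the local conditions -/
def Cond {j : ℕ} (x : Fin j → ℕ) (φ : Fin j → Bool × Bool) (i : Fin j) : Prop :=
  LL 3 kc (ng x i) (x i) (φ i).1 (φ i).2 (hh1 x (fun l => (φ l).1) i) (hh1 x (fun l => (φ l).2) i)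

open Classical in
/-- the solutions of the local conditions -/
noncomputable def SS {j : ℕ} (x : Fin j → ℕ) : Finset (Fin j → Bool × Bool) :=
  univ.filter (fun φ => ∀ i, Cond x φ i)

open Classical in
/-- the indicator -/
noncomputable def ind {j : ℕ} (x : Fin j → ℕ) (φ : Fin j → Bool × Bool) : ℝ :=
  ∏ i, if Cond x φ i then (1 : ℝ) else 0

lemma ind_eq {j : ℕ} (x : Fin j → ℕ) (φ : Fin j → Bool × Bool) :
    (φ ∈ SS x → ind x φ = 1) ∧ (φ ∉ SS x → ind x φ = 0) := by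
  classical
  unfold ind SS
  rw [mem_filter]
  constructor
  · rintro ⟨-, h⟩
    exact prod_eq_one fun i _ => if_pos (h i)
  · intro h
    have h1 : ¬ ∀ i, Cond x φ i := fun h2 => h ⟨mem_univ _, h2⟩
    push Not at h1
    obtain ⟨i, hi⟩ := h1
    exact prod_eq_zero (mem_univ i) (if_neg hi)

lemma ind_nonneg {j : ℕ} (x : Fin j → ℕ) (φ : Fin j → Bool × Bool) : 0 ≤ ind x φ := by
  classical
  unfold ind
  refine prod_nonneg fun i _ => ?_
  split_ifs <;> norm_num

lemma card_SS {j : ℕ} (x : Fin j → ℕ) : ((SS x).card : ℝ) = ∑ φ, ind x φ := by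
  classical
  have h1 : ∑ φ, ind x φ = ∑ φ ∈ SS x, (1 : ℝ) := by
    rw [← sum_filter_add_sum_filter_not univ (fun φ => φ ∈ SS x)]
    have h2 : ∑ φ ∈ univ.filter (fun φ => ¬ φ ∈ SS x), ind x φ = 0 :=
      sum_eq_zero fun φ hφ => (ind_eq x φ).2 (mem_filter.1 hφ).2
    have h3 : univ.filter (fun φ => φ ∈ SS x) = SS x := by
      ext φ
      simp
    rw [h2, add_zero, h3]
    exact sum_congr rfl fun φ hφ => (ind_eq x φ).1 hφ
  rw [h1, sum_const, nsmul_eq_mul, mul_one]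

/-- the possible nonzero solutions -/
noncomputable def Phi (j : ℕ) : Finset (Fin j → Bool × Bool) := by
  classical
  exact univ.filter (fun φ => (∃ i0 i1 i2, φ i0 ≠ φ i1 ∧ φ i0 ≠ φ i2 ∧ φ i1 ≠ φ i2) ∧
    ∑ i, bz (φ i).1 = 0 ∧ ∑ i, bz (φ i).2 = 0)

lemma card_Phi (j : ℕ) : 4 * (Phi j).card ≤ 4 ^ j := by
  classical
  rcases j with _ | n
  · have h1 : Phi 0 = ∅ := by
      unfold Phi
      rw [filter_eq_empty_iff]
      rintro φ - ⟨⟨i0, _⟩, _⟩
      exact Fin.elim0 i0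
    rw [h1]
    simp
  · have hz : ∀ a b : ZMod 2, a + b = 0 → a = b := by decide
    have h1 : ((Phi (n + 1)) ×ˢ (univ : Finset (Bool × Bool))).card ≤
        (univ : Finset (Fin (n + 1) → Bool × Bool)).card := by
      refine card_le_card_of_injOn (fun z => Fin.cons (α := fun _ => Bool × Bool)
        (xor (z.1 0).1 z.2.1, xor (z.1 0).2 z.2.2) (fun i => z.1 i.succ)) (fun _ _ => mem_univ _) ?_
      rintro ⟨φ, a⟩ hφ ⟨φ', a'⟩ hφ' he
      rw [mem_coe, mem_product] at hφ hφ'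
      obtain ⟨-, -, s1, s2⟩ := mem_filter.1 hφ.1
      obtain ⟨-, -, s1', s2'⟩ := mem_filter.1 hφ'.1
      change ∑ i, bz (φ i).1 = 0 at s1
      change ∑ i, bz (φ i).2 = 0 at s2
      change ∑ i, bz (φ' i).1 = 0 at s1'
      change ∑ i, bz (φ' i).2 = 0 at s2'
      have hs : ∀ i : Fin n, φ i.succ = φ' i.succ := by
        intro i
        have := congrFun he i.succ
        simpa using this
      have h0 : ((xor (φ 0).1 a.1, xor (φ 0).2 a.2) : Bool × Bool) =
          (xor (φ' 0).1 a'.1, xor (φ' 0).2 a'.2) := by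
        have := congrFun he 0
        simpa using this
      rw [Fin.sum_univ_succ] at s1 s2 s1' s2'
      have e1 : bz (φ 0).1 = bz (φ' 0).1 := by
        rw [hz _ _ s1, hz _ _ s1']
        exact sum_congr rfl fun i _ => by rw [hs i]
      have e2 : bz (φ 0).2 = bz (φ' 0).2 := by
        rw [hz _ _ s2, hz _ _ s2']
        exact sum_congr rfl fun i _ => by rw [hs i]
      have e3 : φ 0 = φ' 0 := Prod.ext (bz_inj e1) (bz_inj e2)
      have e4 : φ = φ' := by
        funext i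
        refine Fin.cases e3 (fun i => hs i) i
      subst e4
      have e5 : a = a' := by
        obtain ⟨f1, f2⟩ := Prod.mk.inj h0
        refine Prod.ext ?_ ?_
        · revert f1
          cases (φ 0).1 <;> cases a.1 <;> cases a'.1 <;> simp
        · revert f2
          cases (φ 0).2 <;> cases a.2 <;> cases a'.2 <;> simp
      rw [e5]
    rw [card_product, card_univ, card_univ, Fintype.card_fun, Fintype.card_prod, Fintype.card_bool,
      Fintype.card_fin] at h1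
    have h22 : (2 * 2 : ℕ) = 4 := by norm_num
    rw [h22] at h1
    rw [mul_comm]
    exact h1

section

variable {j : ℕ} {x : Fin j → ℕ} (hx : Function.Injective x) (hp : ∀ i, (x i).Prime)
  (h8 : ∀ i, x i % 8 = 3)

include hx hp h8

lemma mem_SS (φ : Fin j → Bool × Bool) :
    φ ∈ SS x ↔ Sol x (fun l => bz (φ l).1) (fun l => bz (φ l).2) := by
  classical
  unfold SS
  rw [mem_filter]
  constructor
  · rintro ⟨-, h⟩
    exact (ll_iff hx hp h8 φ).1 h
  · intro h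
    exact ⟨mem_univ _, (ll_iff hx hp h8 φ).2 h⟩

lemma zero_mem : (fun _ => (false, false)) ∈ SS x := by
  rw [mem_SS hx hp h8]
  intro i
  have h0 : bz false = 0 := rfl
  constructor <;> simp [h0]

lemma rot_mem {φ : Fin j → Bool × Bool} (h : φ ∈ SS x) :
    (fun i => ((φ i).2, xor (φ i).1 (φ i).2)) ∈ SS x := by
  rw [mem_SS hx hp h8] at h ⊢
  have h1 := sol_rot h
  have h2 : (fun l => bz (xor (φ l).1 (φ l).2)) = fun l => bz (φ l).1 + bz (φ l).2 := by
    funext l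
    exact bz_xor _ _
  change Sol x (fun l => bz (φ l).2) (fun l => bz (xor (φ l).1 (φ l).2))
  rw [h2]
  exact h1

/-- one solution or at least four -/
lemma one_or_four : (SS x).card = 1 ∨ 4 ≤ (SS x).card := by
  classical
  by_cases h : ∀ φ ∈ SS x, φ = fun _ => (false, false)
  · left
    rw [card_eq_one]
    refine ⟨fun _ => (false, false), ?_⟩
    ext φ
    rw [mem_singleton]
    exact ⟨h φ, fun h1 => h1 ▸ zero_mem hx hp h8⟩
  · right
    push Not at h
    obtain ⟨φ, hφ, hne⟩ := h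
    obtain ⟨i, hi⟩ := Function.ne_iff.1 hne
    have m1 := rot_mem hx hp h8 hφ
    have m2 := rot_mem hx hp h8 m1
    set φ1 : Fin j → Bool × Bool := fun i => ((φ i).2, xor (φ i).1 (φ i).2) with hφ1
    set φ2 : Fin j → Bool × Bool := fun i => ((φ1 i).2, xor (φ1 i).1 (φ1 i).2) with hφ2
    have hd : ∀ a : Bool × Bool, a ≠ (false, false) →
        ((false, false) : Bool × Bool) ≠ (a.2, xor a.1 a.2) ∧
        ((false, false) : Bool × Bool) ≠ (xor a.1 a.2, xor a.2 (xor a.1 a.2)) ∧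
        a ≠ (a.2, xor a.1 a.2) ∧ a ≠ (xor a.1 a.2, xor a.2 (xor a.1 a.2)) ∧
        ((a.2, xor a.1 a.2) : Bool × Bool) ≠ (xor a.1 a.2, xor a.2 (xor a.1 a.2)) := by
      decide
    obtain ⟨d1, d2, d3, d4, d5⟩ := hd (φ i) hi
    have hcard : ({fun _ => (false, false), φ, φ1, φ2} : Finset (Fin j → Bool × Bool)).card = 4 := by
      rw [card_insert_of_notMem, card_insert_of_notMem, card_insert_of_notMem, card_singleton]
      · rw [mem_singleton]
        intro h
        exact d5 (congrFun h i)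
      · simp only [mem_insert, mem_singleton, not_or]
        exact ⟨fun h => d3 (congrFun h i), fun h => d4 (congrFun h i)⟩
      · simp only [mem_insert, mem_singleton, not_or]
        exact ⟨fun h => hi (congrFun h i).symm, fun h => d1 (congrFun h i),
          fun h => d2 (congrFun h i)⟩
    rw [← hcard]
    refine card_le_card ?_
    intro z hz
    simp only [mem_insert, mem_singleton] at hz
    rcases hz with rfl | rfl | rfl | rfl
    · exact zero_mem hx hp h8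
    · exact hφ
    · exact m1
    · exact m2

/-- the nonzero solutions -/
lemma mem_Phi {φ : Fin j → Bool × Bool} (h : φ ∈ SS x) (h0 : φ ≠ fun _ => (false, false)) :
    φ ∈ Phi j := by
  classical
  rw [mem_SS hx hp h8] at h
  obtain ⟨s1, s2⟩ := sol_sum hx hp h8 h
  unfold Phi
  rw [mem_filter]
  refine ⟨mem_univ _, ?_, s1, s2⟩
  by_contra h3
  push Not at h3
  apply h0
  funext i
  have h4 := sol_three h (fun i0 i1 i2 => by
    by_cases h5 : φ i0 = φ i1
    · left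
      rw [h5]
    · by_cases h6 : φ i0 = φ i2
      · right; left
        rw [h6]
      · right; right
        rw [h3 i0 i1 i2 h5 h6]) i
  have h5 : bz false = 0 := rfl
  exact Prod.ext (bz_inj (h4.1.trans h5.symm)) (bz_inj (h4.2.trans h5.symm))

lemma card_SS_le : ((SS x).card : ℝ) ≤ 1 + ∑ φ ∈ Phi j, ind x φ := by
  classical
  rw [card_SS]
  have h1 : ∑ φ, ind x φ = ∑ φ ∈ insert (fun _ => (false, false)) (Phi j), ind x φ := by
    symm
    refine sum_subset (subset_univ _) fun φ _ hφ => ?_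
    rw [mem_insert, not_or] at hφ
    refine (ind_eq x φ).2 fun h => hφ.2 (mem_Phi hx hp h8 h hφ.1)
  rw [h1]
  by_cases h2 : (fun _ => (false, false)) ∈ Phi j
  · rw [insert_eq_of_mem h2]
    linarith
  · rw [sum_insert h2, (ind_eq x _).1 (zero_mem hx hp h8)]

end

/-- **the average over the tuples** -/
theorem avg3 : ∃ (C : ℝ) (D : ℕ), 1 ≤ C ∧
    ∀ (j y : ℕ) (Q : Finset ℕ), (∀ q ∈ Q, q.Prime ∧ q % 8 = 3 ∧ q ≤ y) →
      (y : ℝ) ^ (19 / 20 : ℝ) ≤ Q.card → C * ((j : ℝ) + 1) ^ D ≤ Q.card →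
        ∑ x ∈ (PQ (Fin j) Q).filter Function.Injective, ((SS x).card : ℝ) ≤
          (3 + C * ((j : ℝ) + 1) * (Q.card : ℝ) ^ (-(1 / 40) : ℝ)) * (Q.card : ℝ) ^ j := by
  classical
  obtain ⟨C, D, hC, h⟩ := sum_linked Bool
  refine ⟨C, D, hC, ?_⟩
  intro j y Q hQ hyQ hjQ
  have hQ' : ∀ q ∈ Q, q.Prime ∧ q ≠ 2 ∧ q ≤ y := by
    intro q hq
    obtain ⟨h1, h2, h3⟩ := hQ q hq
    exact ⟨h1, by omega, h3⟩
  have h0 := h j y Q hQ' hyQ hjQ (ch1 kc) (fun v p => ch1_abs kc v p)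
  rw [Fintype.card_bool] at h0
  set N : ℝ := (Q.card : ℝ) with hN
  have hN0 : 0 ≤ N := Nat.cast_nonneg _
  set P : Finset (Fin j → ℕ) := (PQ (Fin j) Q).filter Function.Injective with hP
  have hPc : (P.card : ℝ) ≤ N ^ j := by
    have h1 : (P.card : ℝ) ≤ ((PQ (Fin j) Q).card : ℝ) := by
      exact_mod_cast card_le_card (filter_subset _ _)
    refine h1.trans (le_of_eq ?_)
    rw [card_PQ, Fintype.card_fin]
  have hPm : ∀ x ∈ P, Function.Injective x ∧ (∀ i, (x i).Prime) ∧ ∀ i, x i % 8 = 3 := by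
    intro x hx
    obtain ⟨h1, h2⟩ := mem_filter.1 hx
    exact ⟨h2, fun i => (hQ _ (Fintype.mem_piFinset.1 h1 i)).1,
      fun i => (hQ _ (Fintype.mem_piFinset.1 h1 i)).2.1⟩
  set F : (Fin j → Bool × Bool) → (Fin j → Bool × Bool) → ℝ := fun φ ψ =>
    |∑ x ∈ PQ (Fin j) Q, tm (ch1 kc) (fun i => colour (φ i) (ψ i)) x| with hF
  have hF0 : ∀ φ ψ, 0 ≤ F φ ψ := fun φ ψ => abs_nonneg _
  have hF1 : ∀ φ ψ, F φ ψ ≤ N ^ j := by
    intro φ ψ
    refine (abs_sum_le_sum_abs _ _).trans ((sum_le_sum fun x _ =>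
      tm_abs (ch1_abs kc) _ x).trans ?_)
    rw [sum_const, nsmul_eq_mul, mul_one, card_PQ, Fintype.card_fin]
  -- one function
  have hone : ∀ φ, ∑ x ∈ P, ind x φ ≤ (1 / 4) ^ j * ∑ ψ, F φ ψ := by
    intro φ
    have h1 : ∀ x ∈ P, ind x φ = (1 / 4) ^ j * ∑ ψ : Fin j → Bool × Bool,
        tm (ch1 kc) (fun i => colour (φ i) (ψ i)) x := by
      intro x hx
      obtain ⟨h2, h3, -⟩ := hPm x hx
      rw [← count_one h2 h3 kc φ]
      unfold ind Cond
      rfl
    rw [sum_congr rfl h1, ← mul_sum, sum_comm]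
    refine mul_le_mul_of_nonneg_left (sum_le_sum fun ψ _ => ?_) (by positivity)
    have h2 : ∑ x ∈ P, tm (ch1 kc) (fun i => colour (φ i) (ψ i)) x =
        ∑ x ∈ PQ (Fin j) Q, tm (ch1 kc) (fun i => colour (φ i) (ψ i)) x := by
      rw [hP, sum_filter]
      refine sum_congr rfl fun x _ => ?_
      by_cases hx : Function.Injective x
      · rw [if_pos hx]
      · rw [if_neg hx]
        unfold tm
        rw [if_neg hx]
        ring
    rw [h2]
    exact le_abs_self _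
  -- the linked colourings
  have hlink : ∑ φ ∈ Phi j, ∑ ψ ∈ univ.filter (fun ψ : Fin j → Bool × Bool =>
      ∃ i l, par (φ i) (φ l) (ψ i) (ψ l) = true), F φ ψ ≤
      C * ((j : ℝ) + 1) * N ^ (-(1 / 40) : ℝ) * (((2 : ℝ) ^ 2) ^ j * N ^ j) := by
    refine le_trans ?_ h0
    rw [sum_sigma']
    refine le_trans (le_of_eq ?_) (sum_le_sum_of_subset_of_nonneg (s := image
      (fun z : (_ : Fin j → Bool × Bool) × (Fin j → Bool × Bool) =>
        (fun i => colour (z.1 i) (z.2 i) : Fin j → Bool → Bool × Bool))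
      ((Phi j).sigma fun φ => univ.filter (fun ψ : Fin j → Bool × Bool =>
        ∃ i l, par (φ i) (φ l) (ψ i) (ψ l) = true))) ?_ (fun u _ _ => abs_nonneg _))
    · rw [sum_image]
      rintro ⟨φ, ψ⟩ _ ⟨φ', ψ'⟩ _ he
      have h1 : ∀ i, colour (φ i) (ψ i) = colour (φ' i) (ψ' i) := fun i => congrFun he i
      have h2 : ∀ i, φ i = φ' i ∧ ψ i = ψ' i := by
        intro i
        have e1 := congrFun (h1 i) true
        have e2 := congrFun (h1 i) false
        obtain ⟨f1, f2⟩ := Prod.mk.inj e1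
        obtain ⟨f3, f4⟩ := Prod.mk.inj e2
        exact ⟨Prod.ext f3 f1, Prod.ext f4 f2⟩
      have h3 : φ = φ' := funext fun i => (h2 i).1
      have h4 : ψ = ψ' := funext fun i => (h2 i).2
      rw [h3, h4]
    · intro u hu
      obtain ⟨⟨φ, ψ⟩, hz, rfl⟩ := mem_image.1 hu
      obtain ⟨-, h2⟩ := mem_sigma.1 hz
      obtain ⟨i, l, hil⟩ := (mem_filter.1 h2).2
      rw [mem_filter]
      exact ⟨mem_univ _, i, l, (odd_iff _ _ _ _).2 hil⟩
  -- the unlinked colourings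
  have hunl : ∑ φ ∈ Phi j, ∑ ψ ∈ univ.filter (fun ψ : Fin j → Bool × Bool =>
      ¬ ∃ i l, par (φ i) (φ l) (ψ i) (ψ l) = true), F φ ψ ≤ 2 * 4 ^ j * N ^ j := by
    have h1 : ∀ φ ∈ Phi j, ∑ ψ ∈ univ.filter (fun ψ : Fin j → Bool × Bool =>
        ¬ ∃ i l, par (φ i) (φ l) (ψ i) (ψ l) = true), F φ ψ ≤ 8 * N ^ j := by
      intro φ hφ
      unfold Phi at hφ
      obtain ⟨-, ⟨i0, i1, i2, h3⟩, -, -⟩ := mem_filter.1 hφ
      refine (sum_le_card_nsmul _ _ (N ^ j) fun ψ _ => hF1 φ ψ).trans ?_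
      rw [nsmul_eq_mul]
      refine mul_le_mul_of_nonneg_right ?_ (by positivity)
      exact_mod_cast compat_card φ h3
    refine (sum_le_sum h1).trans ?_
    rw [sum_const, nsmul_eq_mul]
    have h2 : (4 : ℝ) * ((Phi j).card : ℝ) ≤ 4 ^ j := by exact_mod_cast card_Phi j
    have h3 : 0 ≤ N ^ j := by positivity
    nlinarith [mul_le_mul_of_nonneg_right h2 h3]
  have h1 : ∑ x ∈ P, ((SS x).card : ℝ) ≤ ∑ x ∈ P, (1 + ∑ φ ∈ Phi j, ind x φ) :=
    sum_le_sum fun x hx => by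
      obtain ⟨h2, h3, h4⟩ := hPm x hx
      exact card_SS_le h2 h3 h4
  refine h1.trans ?_
  rw [sum_add_distrib, sum_const, nsmul_eq_mul, mul_one, sum_comm]
  have h2 : ∑ φ ∈ Phi j, ∑ x ∈ P, ind x φ ≤ (1 / 4) ^ j * (2 * 4 ^ j * N ^ j +
      C * ((j : ℝ) + 1) * N ^ (-(1 / 40) : ℝ) * (((2 : ℝ) ^ 2) ^ j * N ^ j)) := by
    calc ∑ φ ∈ Phi j, ∑ x ∈ P, ind x φ ≤ ∑ φ ∈ Phi j, (1 / 4) ^ j * ∑ ψ, F φ ψ :=
          sum_le_sum fun φ _ => hone φ
      _ = (1 / 4) ^ j * ∑ φ ∈ Phi j, (∑ ψ ∈ univ.filter (fun ψ : Fin j → Bool × Bool =>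
            ∃ i l, par (φ i) (φ l) (ψ i) (ψ l) = true), F φ ψ +
          ∑ ψ ∈ univ.filter (fun ψ : Fin j → Bool × Bool =>
            ¬ ∃ i l, par (φ i) (φ l) (ψ i) (ψ l) = true), F φ ψ) := by
          rw [← mul_sum]
          congr 1
          refine sum_congr rfl fun φ _ => ?_
          rw [sum_filter_add_sum_filter_not]
      _ ≤ _ := by
          refine mul_le_mul_of_nonneg_left ?_ (by positivity)
          rw [sum_add_distrib]
          linarith
  have h3 : (1 / 4 : ℝ) ^ j * (2 * 4 ^ j * N ^ j +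
      C * ((j : ℝ) + 1) * N ^ (-(1 / 40) : ℝ) * (((2 : ℝ) ^ 2) ^ j * N ^ j)) =
      (2 + C * ((j : ℝ) + 1) * N ^ (-(1 / 40) : ℝ)) * N ^ j := by
    have h4 : (1 / 4 : ℝ) ^ j * 4 ^ j = 1 := by
      rw [← mul_pow]
      norm_num
    have h5 : ((2 : ℝ) ^ 2) ^ j = 4 ^ j := by norm_num
    rw [h5]
    calc _ = ((1 / 4 : ℝ) ^ j * 4 ^ j) *
          ((2 + C * ((j : ℝ) + 1) * N ^ (-(1 / 40) : ℝ)) * N ^ j) := by ring
      _ = _ := by rw [h4, one_mul]
  rw [h3] at h2
  calc (P.card : ℝ) + ∑ φ ∈ Phi j, ∑ x ∈ P, ind x φ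
      ≤ N ^ j + (2 + C * ((j : ℝ) + 1) * N ^ (-(1 / 40) : ℝ)) * N ^ j := add_le_add hPc h2
    _ = _ := by ring

end Pool.Agent.TH715.CN
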