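import Mathlib
import Pool.Agent.TH715.CN.Avg3

/-!
# Twists of rank zero
-/

set_option autoImplicit false

namespace Pool.Agent.TH715.CN

open Finset

open scoped Classical

open Pool.Agent.W262.RK (NL)
open Pool.Agent.W307.RT (Sh)
open Pool.Agent.W262.SH (Sha)

open Pool.Agent.TH715.RS

/-- the curve `y² = x³ - D² x`, `D` the product of the elements of `T` -/
noncomputable def ET (T : Finset ℕ) : WeierstrassCurve ℚ := Sh (-((∏ q ∈ T, q : ℕ) : ℤ) ^ 2) 0

/-- the rank times the order of the 2-torsion of the Tate-Shafarevich group -/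
noncomputable def rr (T : Finset ℕ) : ℝ :=
  2 ^ Module.finrank ℤ (ET T).toAffine.Point * (Nat.card {x : Sha (ET T) // x + x = 0} : ℝ)

lemma rr_nonneg (T : Finset ℕ) : 0 ≤ rr T := by
  unfold rr
  positivity

/-- rank zero and no 2-torsion in the Tate-Shafarevich group -/
def Good (T : Finset ℕ) : Prop :=
  Module.finrank ℤ (ET T).toAffine.Point = 0 ∧ ∀ z : Sha (ET T), z + z = 0 → z = 0

section

variable {j : ℕ} {x : Fin j → ℕ} (hx : Function.Injective x) (hp : ∀ i, (x i).Prime)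
  (h8 : ∀ i, x i % 8 = 3)

include hx hp h8

lemma rr_le : rr (univ.image x) ≤ ((SS x).card : ℝ) := by
  have hT : ∀ p ∈ univ.image x, p.Prime ∧ p ≠ 2 := by
    intro p h
    obtain ⟨i, _, rfl⟩ := mem_image.1 h
    refine ⟨hp i, ?_⟩
    have := h8 i
    omega
  have h1 := (cn_bound hT).2
  have h2 : ∏ q ∈ univ.image x, q = ∏ i, x i := prod_image (f := fun p : ℕ => p) hx.injOn
  have h3 := nl_le hx hp kc
  have h4 := count_eq hx hp kc
  have h5 : rr (univ.image x) ≤ (NL (∏ i, x i) (LT kc (∏ i, x i)) : ℝ) := by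
    unfold rr ET
    rw [← h2]
    exact_mod_cast h1
  refine h5.trans (h3.trans ?_)
  rw [← h4, card_SS]
  refine le_of_eq (sum_congr rfl fun φ _ => ?_)
  unfold ind Cond
  rfl

lemma good_of (h : (SS x).card = 1) : Good (univ.image x) := by
  have hT : ∀ p ∈ univ.image x, p.Prime ∧ p ≠ 2 := by
    intro p h
    obtain ⟨i, _, rfl⟩ := mem_image.1 h
    refine ⟨hp i, ?_⟩
    have := h8 i
    omega
  have hfin : Finite {z : Sha (ET (univ.image x)) // z + z = 0} := (cn_bound hT).1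
  have h1 := rr_le hx hp h8
  rw [h] at h1
  unfold rr at h1
  have h2 : 2 ^ Module.finrank ℤ (ET (univ.image x)).toAffine.Point *
      Nat.card {z : Sha (ET (univ.image x)) // z + z = 0} ≤ 1 := by exact_mod_cast h1
  have hne : Nonempty {z : Sha (ET (univ.image x)) // z + z = 0} := ⟨⟨0, add_zero 0⟩⟩
  have h3 : 1 ≤ Nat.card {z : Sha (ET (univ.image x)) // z + z = 0} := Nat.card_pos
  have h4 : 1 ≤ 2 ^ Module.finrank ℤ (ET (univ.image x)).toAffine.Point := Nat.one_le_two_pow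
  refine ⟨?_, ?_⟩
  · by_contra h5
    have h6 : 2 ≤ 2 ^ Module.finrank ℤ (ET (univ.image x)).toAffine.Point := by
      calc 2 = 2 ^ 1 := (pow_one 2).symm
        _ ≤ _ := Nat.pow_le_pow_right (by norm_num) (Nat.one_le_iff_ne_zero.2 h5)
    nlinarith
  · have h5 : Nat.card {z : Sha (ET (univ.image x)) // z + z = 0} = 1 := by nlinarith
    obtain ⟨hs, -⟩ := Nat.card_eq_one_iff_unique.1 h5
    intro z hz
    have := hs.elim (⟨z, hz⟩ : {z : Sha (ET (univ.image x)) // z + z = 0}) ⟨0, add_zero 0⟩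
    exact congrArg Subtype.val this

end

lemma pow_choose (N j : ℕ) (h : 2 * j ^ 2 ≤ N) (hN : 0 < N) :
    (N : ℝ) ^ j * (1 - (j : ℝ) ^ 2 / N) ≤ (j.factorial : ℝ) * (N.choose j : ℝ) := by
  have hN0 : (0 : ℝ) < N := by exact_mod_cast hN
  have hjN : j ≤ N := by nlinarith
  have h1 : (N + 1 - j) ^ j ≤ N.descFactorial j := Nat.pow_sub_le_descFactorial N j
  rw [Nat.descFactorial_eq_factorial_mul_choose] at h1
  have h2 : (((N + 1 - j : ℕ) : ℝ)) ^ j ≤ (j.factorial : ℝ) * (N.choose j : ℝ) := by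
    exact_mod_cast h1
  have h3 : (N : ℝ) - j ≤ ((N + 1 - j : ℕ) : ℝ) := by
    have : (N : ℤ) - j ≤ ((N + 1 - j : ℕ) : ℤ) := by omega
    exact_mod_cast this
  have h4 : (0 : ℝ) ≤ (N : ℝ) - j := by
    have : (j : ℝ) ≤ N := by exact_mod_cast hjN
    linarith
  have h5 : (1 : ℝ) + j * (-((j : ℝ) / N)) ≤ (1 + -((j : ℝ) / N)) ^ j := by
    refine one_add_mul_le_pow ?_ j
    have : (j : ℝ) / N ≤ 1 := div_le_one_of_le₀ (by exact_mod_cast hjN) hN0.le
    linarith
  have h7 : ((N : ℝ) - j) ^ j = (N : ℝ) ^ j * (1 + -((j : ℝ) / N)) ^ j := by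
    rw [← mul_pow]
    congr 1
    field_simp
    ring
  have h8 : (N : ℝ) ^ j * (1 - (j : ℝ) ^ 2 / N) ≤ ((N : ℝ) - j) ^ j := by
    rw [h7]
    refine mul_le_mul_of_nonneg_left (le_trans (le_of_eq ?_) h5) (by positivity)
    ring
  exact h8.trans ((pow_le_pow_left₀ h4 h3 j).trans h2)

/-- **the main theorem** -/
theorem main : ∃ (C : ℝ) (D : ℕ), 1 ≤ C ∧
    ∀ (m y : ℕ) (Q : Finset ℕ), (∀ q ∈ Q, q.Prime ∧ q % 8 = 3 ∧ q ≤ y) →
      (y : ℝ) ^ (19 / 20 : ℝ) ≤ Q.card → C * ((m : ℝ) + 1) ^ D ≤ Q.card →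
      ∑ T ∈ Q.powersetCard m, rr T ≤
        (3 + C * ((m : ℝ) + 1) * (Q.card : ℝ) ^ (-(1 / 40) : ℝ)) * (Q.card.choose m : ℝ) ∧
      (1 / 3 - C * ((m : ℝ) + 1) * (Q.card : ℝ) ^ (-(1 / 40) : ℝ)) * (Q.card.choose m : ℝ) ≤
        ((Q.powersetCard m).filter Good).card := by
  obtain ⟨C, D, hC, h⟩ := avg3
  refine ⟨2 * C + 6, D + 2, by linarith, ?_⟩
  intro m y Q hQ hyQ hmQ
  have hm1 : (1 : ℝ) ≤ (m : ℝ) + 1 := by
    have : (0 : ℝ) ≤ m := Nat.cast_nonneg m
    linarith
  have hmD : (1 : ℝ) ≤ ((m : ℝ) + 1) ^ D := one_le_pow₀ hm1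
  have hm2 : (1 : ℝ) ≤ ((m : ℝ) + 1) ^ 2 := one_le_pow₀ hm1
  have hCm : C * ((m : ℝ) + 1) ^ D ≤ Q.card := by
    refine le_trans ?_ hmQ
    rw [pow_add]
    have h1 : 0 ≤ C * ((m : ℝ) + 1) ^ D := by positivity
    calc C * ((m : ℝ) + 1) ^ D ≤ C * ((m : ℝ) + 1) ^ D * ((m : ℝ) + 1) ^ 2 :=
          le_mul_of_one_le_right h1 hm2
      _ ≤ (2 * C + 6) * (((m : ℝ) + 1) ^ D * ((m : ℝ) + 1) ^ 2) := by
          rw [mul_assoc]
          exact mul_le_mul_of_nonneg_right (by linarith) (by positivity)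
  have h6m : 6 * ((m : ℝ) + 1) ^ 2 ≤ Q.card := by
    refine le_trans ?_ hmQ
    rw [pow_add]
    calc 6 * ((m : ℝ) + 1) ^ 2 ≤ (2 * C + 6) * ((m : ℝ) + 1) ^ 2 :=
          mul_le_mul_of_nonneg_right (by linarith) (by positivity)
      _ ≤ (2 * C + 6) * (((m : ℝ) + 1) ^ D * ((m : ℝ) + 1) ^ 2) := by
          refine mul_le_mul_of_nonneg_left ?_ (by positivity)
          exact le_mul_of_one_le_left (by positivity) hmD
  set N : ℝ := (Q.card : ℝ) with hN
  have hN1 : 1 ≤ N := by nlinarith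
  have hN0 : 0 < N := by linarith
  have hcardpos : 0 < Q.card := by
    have : (0 : ℝ) < Q.card := hN0
    exact_mod_cast this
  have h2m : 2 * m ^ 2 ≤ Q.card := by
    have h1 : (2 : ℝ) * (m : ℝ) ^ 2 ≤ Q.card := by nlinarith
    exact_mod_cast h1
  set e : ℝ := ((m : ℝ) + 1) * N ^ (-(1 / 40) : ℝ) with he
  have he0 : 0 ≤ e := by positivity
  have h3 := h m y Q hQ hyQ hCm
  rw [← hN] at h3
  have hCe : C * ((m : ℝ) + 1) * N ^ (-(1 / 40) : ℝ) = C * e := by rw [he]; ring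
  have hCe' : (2 * C + 6) * ((m : ℝ) + 1) * N ^ (-(1 / 40) : ℝ) = (2 * C + 6) * e := by
    rw [he]; ring
  rw [hCe] at h3
  rw [hCe']
  -- the size of `t = m² / N`
  set t : ℝ := (m : ℝ) ^ 2 / N with ht
  have ht0 : 0 ≤ t := by positivity
  have ht2 : t ≤ 1 / 6 := by
    rw [ht, div_le_iff₀ hN0]
    nlinarith
  have hte : t ≤ e := by
    have h1 : (m : ℝ) + 1 ≤ N ^ (1 / 2 : ℝ) := by
      rw [← Real.sqrt_eq_rpow]
      refine Real.le_sqrt_of_sq_le ?_
      nlinarith
    have h2 : t ≤ ((m : ℝ) + 1) * (N ^ (1 / 2 : ℝ) * N⁻¹) := by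
      rw [ht, div_eq_mul_inv]
      have h4 : (m : ℝ) ^ 2 ≤ ((m : ℝ) + 1) * N ^ (1 / 2 : ℝ) := by
        have h5 : (m : ℝ) * m ≤ ((m : ℝ) + 1) * N ^ (1 / 2 : ℝ) :=
          mul_le_mul (by linarith) (by linarith) (Nat.cast_nonneg m) (by linarith)
        rw [sq]
        exact h5
      calc (m : ℝ) ^ 2 * N⁻¹ ≤ (((m : ℝ) + 1) * N ^ (1 / 2 : ℝ)) * N⁻¹ :=
            mul_le_mul_of_nonneg_right h4 (by positivity)
        _ = _ := by ring
    refine h2.trans ?_
    rw [he]
    refine mul_le_mul_of_nonneg_left ?_ (by linarith)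
    rw [← Real.rpow_neg_one N, ← Real.rpow_add hN0]
    exact Real.rpow_le_rpow_of_exponent_le hN1 (by norm_num)
  have hpc := pow_choose Q.card m h2m hcardpos
  rw [← hN, ← ht] at hpc
  set B : ℝ := (Q.card.choose m : ℝ) with hB
  have hB0 : 0 ≤ B := Nat.cast_nonneg _
  have hfac : (0 : ℝ) < m.factorial := by exact_mod_cast m.factorial_pos
  have hNm : N ^ m ≤ (m.factorial : ℝ) * B * (1 + 2 * t) := by
    have h1 : 1 ≤ (1 - t) * (1 + 2 * t) := by nlinarith
    have h2 : 0 ≤ N ^ m := by positivity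
    calc N ^ m = N ^ m * 1 := (mul_one _).symm
      _ ≤ N ^ m * ((1 - t) * (1 + 2 * t)) := mul_le_mul_of_nonneg_left h1 h2
      _ = (N ^ m * (1 - t)) * (1 + 2 * t) := by ring
      _ ≤ _ := mul_le_mul_of_nonneg_right hpc (by linarith)
  set P : Finset (Fin m → ℕ) := (PQ (Fin m) Q).filter Function.Injective with hP
  have hPm : ∀ x ∈ P, Function.Injective x ∧ (∀ i, (x i).Prime) ∧ ∀ i, x i % 8 = 3 := by
    intro x hx
    obtain ⟨h1, h2⟩ := mem_filter.1 hx
    exact ⟨h2, fun i => (hQ _ (Fintype.mem_piFinset.1 h1 i)).1,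
      fun i => (hQ _ (Fintype.mem_piFinset.1 h1 i)).2.1⟩
  constructor
  · have h4 := subsets_le Q m rr rr_nonneg
    have h5 : ∑ x ∈ P, rr (univ.image x) ≤ ∑ x ∈ P, ((SS x).card : ℝ) :=
      sum_le_sum fun x hx => by
        obtain ⟨a1, a2, a3⟩ := hPm x hx
        exact rr_le a1 a2 a3
    have h6 : (m.factorial : ℝ) * ∑ T ∈ Q.powersetCard m, rr T ≤
        (m.factorial : ℝ) * ((3 + (2 * C + 6) * e) * B) := by
      calc (m.factorial : ℝ) * ∑ T ∈ Q.powersetCard m, rr T ≤ (3 + C * e) * N ^ m :=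
            (h4.trans h5).trans h3
        _ ≤ (3 + C * e) * ((m.factorial : ℝ) * B * (1 + 2 * t)) :=
            mul_le_mul_of_nonneg_left hNm (by positivity)
        _ = ((m.factorial : ℝ) * B) * ((3 + C * e) * (1 + 2 * t)) := by ring
        _ ≤ ((m.factorial : ℝ) * B) * (3 + (2 * C + 6) * e) := by
            refine mul_le_mul_of_nonneg_left ?_ (by positivity)
            have h7 : 0 ≤ C * e := by positivity
            have h8 : C * e * t ≤ C * e * (1 / 6) := mul_le_mul_of_nonneg_left ht2 h7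
            nlinarith
        _ = _ := by ring
    exact le_of_mul_le_mul_left h6 hfac
  · -- the bad sets
    have h4 := subsets_le Q m (fun T => if Good T then 0 else 1) (fun T => by
      split_ifs <;> norm_num)
    have h4' := subsets_le Q m (fun _ => 1) (fun _ => zero_le_one)
    rw [sum_const, card_powersetCard, nsmul_eq_mul, mul_one, sum_const, nsmul_eq_mul,
      mul_one] at h4'
    -- `3` times the number of the bad tuples
    have h5 : ∑ x ∈ P, (if Good (univ.image x) then (0 : ℝ) else 1) * 3 + (P.card : ℝ) ≤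
        ∑ x ∈ P, ((SS x).card : ℝ) := by
      have h6 : (P.card : ℝ) = ∑ x ∈ P, (1 : ℝ) := by rw [sum_const, nsmul_eq_mul, mul_one]
      rw [h6, ← sum_add_distrib]
      refine sum_le_sum fun x hx => ?_
      obtain ⟨a1, a2, a3⟩ := hPm x hx
      rcases one_or_four a1 a2 a3 with h7 | h7
      · rw [if_pos (good_of a1 a2 a3 h7), h7]
        norm_num
      · have h8 : (4 : ℝ) ≤ (SS x).card := by exact_mod_cast h7
        split_ifs <;> linarith
    rw [← sum_mul] at h5
    have h6 : ∑ T ∈ Q.powersetCard m, (if Good T then (0 : ℝ) else 1) =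
        (((Q.powersetCard m).filter (fun T => ¬ Good T)).card : ℝ) := by
      rw [card_filter]
      push_cast
      refine sum_congr rfl fun T _ => ?_
      split_ifs <;> rfl
    rw [h6] at h4
    have h7 : (((Q.powersetCard m).filter Good).card : ℝ) +
        (((Q.powersetCard m).filter (fun T => ¬ Good T)).card : ℝ) = B := by
      rw [hB, ← card_powersetCard m Q]
      exact_mod_cast card_filter_add_card_filter_not (s := Q.powersetCard m) Good
    set b : ℝ := (((Q.powersetCard m).filter (fun T => ¬ Good T)).card : ℝ) with hb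
    have h8 : (m.factorial : ℝ) * (3 * b + B) ≤ (m.factorial : ℝ) *
        ((3 + C * e) * (1 + 2 * t) * B) := by
      calc (m.factorial : ℝ) * (3 * b + B) = 3 * ((m.factorial : ℝ) * b) + (m.factorial : ℝ) * B := by
            ring
        _ ≤ 3 * (∑ x ∈ P, (if Good (univ.image x) then (0 : ℝ) else 1)) + (P.card : ℝ) := by
            linarith
        _ ≤ (3 + C * e) * N ^ m := by linarith
        _ ≤ (3 + C * e) * ((m.factorial : ℝ) * B * (1 + 2 * t)) :=
            mul_le_mul_of_nonneg_left hNm (by positivity)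
        _ = _ := by ring
    have h9 := le_of_mul_le_mul_left h8 hfac
    have h10 : (3 + C * e) * (1 + 2 * t) ≤ 3 + (2 * C + 6) * e := by
      have h7 : 0 ≤ C * e := by positivity
      have h8 : C * e * t ≤ C * e * (1 / 6) := mul_le_mul_of_nonneg_left ht2 h7
      nlinarith
    have h11 : (3 + C * e) * (1 + 2 * t) * B ≤ (3 + (2 * C + 6) * e) * B :=
      mul_le_mul_of_nonneg_right h10 hB0
    have h12 : 0 ≤ (2 * C + 6) * e * B := by positivity
    nlinarith

end Pool.Agent.TH715.CN
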