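import Mathlib
import Pool.Agent.TH715.CN.Fin

/-!
# The subsets `T` with the smallest possible 2-Selmer group
-/

set_option autoImplicit false

namespace Pool.Agent.TH715.CN

open Finset

open scoped Classical

open Pool.Agent.W262.RK (NL)
open Pool.Agent.W307.SE (Sel)

open Pool.Agent.TH715.RS

/-- **the number of the subsets with a property implied by the minimality of the Selmer group** -/
theorem main2 : ∃ (C : ℝ) (D : ℕ), 1 ≤ C ∧ ∀ G : Finset ℕ → Prop,
    (∀ (j : ℕ) (x : Fin j → ℕ), Function.Injective x → (∀ i, (x i).Prime) →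
      (∀ i, x i % 8 = 3) → (SS x).card = 1 → G (univ.image x)) →
    ∀ (m y : ℕ) (Q : Finset ℕ), (∀ q ∈ Q, q.Prime ∧ q % 8 = 3 ∧ q ≤ y) →
      (y : ℝ) ^ (19 / 20 : ℝ) ≤ Q.card → C * ((m : ℝ) + 1) ^ D ≤ Q.card →
      (1 / 3 - C * ((m : ℝ) + 1) * (Q.card : ℝ) ^ (-(1 / 40) : ℝ)) * (Q.card.choose m : ℝ) ≤
        ((Q.powersetCard m).filter G).card := by
  obtain ⟨C, D, hC, h⟩ := avg3
  refine ⟨2 * C + 6, D + 2, by linarith, ?_⟩
  intro G hG m y Q hQ hyQ hmQ
  have hm1 : (1 : ℝ) ≤ (m : ℝ) + 1 := by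
    have : (0 : ℝ) ≤ m := Nat.cast_nonneg m
    linarith
  have hmD : (1 : ℝ) ≤ ((m : ℝ) + 1) ^ D := one_le_pow₀ hm1
  have hm2 : (1 : ℝ) ≤ ((m : ℝ) + 1) ^ 2 := one_le_pow₀ hm1
  have hCm : C * ((m : ℝ) + 1) ^ D ≤ Q.card := by
    refine le_trans ?_ hmQ
    rw [pow_add]
    have h1 : 0 ≤ C * ((m : ℝ) + 1) ^ D := by positivity
    calc C * ((m : ℝ) + 1) ^ D ≤ C * ((m : ℝ) + 1) ^ D * ((m : ℝ) + 1) ^ 2 :=
          le_mul_of_one_le_right h1 hm2
      _ ≤ (2 * C + 6) * (((m : ℝ) + 1) ^ D * ((m : ℝ) + 1) ^ 2) := by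
          rw [mul_assoc]
          exact mul_le_mul_of_nonneg_right (by linarith) (by positivity)
  have h6m : 6 * ((m : ℝ) + 1) ^ 2 ≤ Q.card := by
    refine le_trans ?_ hmQ
    rw [pow_add]
    calc 6 * ((m : ℝ) + 1) ^ 2 ≤ (2 * C + 6) * ((m : ℝ) + 1) ^ 2 :=
          mul_le_mul_of_nonneg_right (by linarith) (by positivity)
      _ ≤ (2 * C + 6) * (((m : ℝ) + 1) ^ D * ((m : ℝ) + 1) ^ 2) := by
          refine mul_le_mul_of_nonneg_left ?_ (by positivity)
          exact le_mul_of_one_le_left (by positivity) hmD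
  set N : ℝ := (Q.card : ℝ) with hN
  have hN1 : 1 ≤ N := by nlinarith
  have hN0 : 0 < N := by linarith
  have hcardpos : 0 < Q.card := by
    have : (0 : ℝ) < Q.card := hN0
    exact_mod_cast this
  have h2m : 2 * m ^ 2 ≤ Q.card := by
    have h1 : (2 : ℝ) * (m : ℝ) ^ 2 ≤ Q.card := by nlinarith
    exact_mod_cast h1
  set e : ℝ := ((m : ℝ) + 1) * N ^ (-(1 / 40) : ℝ) with he
  have he0 : 0 ≤ e := by positivity
  have h3 := h m y Q hQ hyQ hCm
  rw [← hN] at h3
  have hCe : C * ((m : ℝ) + 1) * N ^ (-(1 / 40) : ℝ) = C * e := by rw [he]; ring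
  have hCe' : (2 * C + 6) * ((m : ℝ) + 1) * N ^ (-(1 / 40) : ℝ) = (2 * C + 6) * e := by
    rw [he]; ring
  rw [hCe] at h3
  rw [hCe']
  -- the size of `t = m² / N`
  set t : ℝ := (m : ℝ) ^ 2 / N with ht
  have ht0 : 0 ≤ t := by positivity
  have ht2 : t ≤ 1 / 6 := by
    rw [ht, div_le_iff₀ hN0]
    nlinarith
  have hte : t ≤ e := by
    have h1 : (m : ℝ) + 1 ≤ N ^ (1 / 2 : ℝ) := by
      rw [← Real.sqrt_eq_rpow]
      refine Real.le_sqrt_of_sq_le ?_
      nlinarith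
    have h2 : t ≤ ((m : ℝ) + 1) * (N ^ (1 / 2 : ℝ) * N⁻¹) := by
      rw [ht, div_eq_mul_inv]
      have h4 : (m : ℝ) ^ 2 ≤ ((m : ℝ) + 1) * N ^ (1 / 2 : ℝ) := by
        have h5 : (m : ℝ) * m ≤ ((m : ℝ) + 1) * N ^ (1 / 2 : ℝ) :=
          mul_le_mul (by linarith) (by linarith) (Nat.cast_nonneg m) (by linarith)
        rw [sq]
        exact h5
      calc (m : ℝ) ^ 2 * N⁻¹ ≤ (((m : ℝ) + 1) * N ^ (1 / 2 : ℝ)) * N⁻¹ :=
            mul_le_mul_of_nonneg_right h4 (by positivity)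
        _ = _ := by ring
    refine h2.trans ?_
    rw [he]
    refine mul_le_mul_of_nonneg_left ?_ (by linarith)
    rw [← Real.rpow_neg_one N, ← Real.rpow_add hN0]
    exact Real.rpow_le_rpow_of_exponent_le hN1 (by norm_num)
  have hpc := pow_choose Q.card m h2m hcardpos
  rw [← hN, ← ht] at hpc
  set B : ℝ := (Q.card.choose m : ℝ) with hB
  have hB0 : 0 ≤ B := Nat.cast_nonneg _
  have hfac : (0 : ℝ) < m.factorial := by exact_mod_cast m.factorial_pos
  have hNm : N ^ m ≤ (m.factorial : ℝ) * B * (1 + 2 * t) := by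
    have h1 : 1 ≤ (1 - t) * (1 + 2 * t) := by nlinarith
    have h2 : 0 ≤ N ^ m := by positivity
    calc N ^ m = N ^ m * 1 := (mul_one _).symm
      _ ≤ N ^ m * ((1 - t) * (1 + 2 * t)) := mul_le_mul_of_nonneg_left h1 h2
      _ = (N ^ m * (1 - t)) * (1 + 2 * t) := by ring
      _ ≤ _ := mul_le_mul_of_nonneg_right hpc (by linarith)
  set P : Finset (Fin m → ℕ) := (PQ (Fin m) Q).filter Function.Injective with hP
  have hPm : ∀ x ∈ P, Function.Injective x ∧ (∀ i, (x i).Prime) ∧ ∀ i, x i % 8 = 3 := by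
    intro x hx
    obtain ⟨h1, h2⟩ := mem_filter.1 hx
    exact ⟨h2, fun i => (hQ _ (Fintype.mem_piFinset.1 h1 i)).1,
      fun i => (hQ _ (Fintype.mem_piFinset.1 h1 i)).2.1⟩
  -- the bad sets
  have h4 := subsets_le Q m (fun T => if G T then 0 else 1) (fun T => by
    split_ifs <;> norm_num)
  have h4' := subsets_le Q m (fun _ => 1) (fun _ => zero_le_one)
  rw [sum_const, card_powersetCard, nsmul_eq_mul, mul_one, sum_const, nsmul_eq_mul,
    mul_one] at h4'
  -- `3` times the number of the bad tuples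
  have h5 : ∑ x ∈ P, (if G (univ.image x) then (0 : ℝ) else 1) * 3 + (P.card : ℝ) ≤
      ∑ x ∈ P, ((SS x).card : ℝ) := by
    have h6 : (P.card : ℝ) = ∑ x ∈ P, (1 : ℝ) := by rw [sum_const, nsmul_eq_mul, mul_one]
    rw [h6, ← sum_add_distrib]
    refine sum_le_sum fun x hx => ?_
    obtain ⟨a1, a2, a3⟩ := hPm x hx
    rcases one_or_four a1 a2 a3 with h7 | h7
    · rw [if_pos (hG m x a1 a2 a3 h7), h7]
      norm_num
    · have h8 : (4 : ℝ) ≤ (SS x).card := by exact_mod_cast h7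
      split_ifs <;> linarith
  rw [← sum_mul] at h5
  have h6 : ∑ T ∈ Q.powersetCard m, (if G T then (0 : ℝ) else 1) =
      (((Q.powersetCard m).filter (fun T => ¬ G T)).card : ℝ) := by
    rw [card_filter]
    push_cast
    refine sum_congr rfl fun T _ => ?_
    split_ifs <;> rfl
  rw [h6] at h4
  have h7 : (((Q.powersetCard m).filter G).card : ℝ) +
      (((Q.powersetCard m).filter (fun T => ¬ G T)).card : ℝ) = B := by
    rw [hB, ← card_powersetCard m Q]
    exact_mod_cast card_filter_add_card_filter_not (s := Q.powersetCard m) G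
  set b : ℝ := (((Q.powersetCard m).filter (fun T => ¬ G T)).card : ℝ) with hb
  have h8 : (m.factorial : ℝ) * (3 * b + B) ≤ (m.factorial : ℝ) *
      ((3 + C * e) * (1 + 2 * t) * B) := by
    calc (m.factorial : ℝ) * (3 * b + B) = 3 * ((m.factorial : ℝ) * b) + (m.factorial : ℝ) * B := by
          ring
      _ ≤ 3 * (∑ x ∈ P, (if G (univ.image x) then (0 : ℝ) else 1)) + (P.card : ℝ) := by
          linarith
      _ ≤ (3 + C * e) * N ^ m := by linarith
      _ ≤ (3 + C * e) * ((m.factorial : ℝ) * B * (1 + 2 * t)) :=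
          mul_le_mul_of_nonneg_left hNm (by positivity)
      _ = _ := by ring
  have h9 := le_of_mul_le_mul_left h8 hfac
  have h10 : (3 + C * e) * (1 + 2 * t) ≤ 3 + (2 * C + 6) * e := by
    have h7 : 0 ≤ C * e := by positivity
    have h8 : C * e * t ≤ C * e * (1 / 6) := mul_le_mul_of_nonneg_left ht2 h7
    nlinarith
  have h11 : (3 + C * e) * (1 + 2 * t) * B ≤ (3 + (2 * C + 6) * e) * B :=
    mul_le_mul_of_nonneg_right h10 hB0
  have h12 : 0 ≤ (2 * C + 6) * e * B := by positivity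
  nlinarith


section

variable {j : ℕ} {x : Fin j → ℕ} (hx : Function.Injective x) (hp : ∀ i, (x i).Prime)
  (h8 : ∀ i, x i % 8 = 3)

include hx hp h8

/-- the 2-Selmer group has at most four elements -/
lemma sel_four (h : (SS x).card = 1) :
    (Sel ((∏ q ∈ univ.image x, q : ℕ) : ℤ) (-((∏ q ∈ univ.image x, q : ℕ) : ℤ))).Finite ∧
    (Sel ((∏ q ∈ univ.image x, q : ℕ) : ℤ) (-((∏ q ∈ univ.image x, q : ℕ) : ℤ))).ncard ≤ 4 := by
  have hT : ∀ p ∈ univ.image x, p.Prime ∧ p ≠ 2 := by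
    intro p h
    obtain ⟨i, _, rfl⟩ := mem_image.1 h
    refine ⟨hp i, ?_⟩
    have := h8 i
    omega
  obtain ⟨h1, h2⟩ := sel_cn hT
  refine ⟨h1, h2.trans ?_⟩
  have h3 : ∏ q ∈ univ.image x, q = ∏ i, x i := prod_image (f := fun p : ℕ => p) hx.injOn
  have h4 := nl_le hx hp kc
  have h5 := count_eq hx hp kc
  have h6 : (NL (∏ i, x i) (LT kc (∏ i, x i)) : ℝ) ≤ ((SS x).card : ℝ) := by
    refine h4.trans ?_
    rw [← h5, card_SS]
    refine le_of_eq (sum_congr rfl fun φ _ => ?_)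
    unfold ind Cond
    rfl
  rw [h, Nat.cast_one] at h6
  rw [h3]
  have h7 : NL (∏ i, x i) (LT kc (∏ i, x i)) ≤ 1 := by exact_mod_cast h6
  omega

end

end Pool.Agent.TH715.CN
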