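import Mathlib

/-!
# Gauss sums of the quadratic form of a tournament
-/

set_option autoImplicit false

namespace Pool.Agent.TH715.CN

open Finset

/-- the sign -/
def sz (c : ZMod 2) : ℤ := if c = 0 then 1 else -1

lemma sz_add (a b : ZMod 2) : sz (a + b) = sz a * sz b := by
  revert a b
  decide

lemma sz_sq (a : ZMod 2) : sz a * sz a = 1 := by
  revert a
  decide

section gauss

variable {M : Type} [AddCommGroup M] [Fintype M] [DecidableEq M]

/-- the square of a Gauss sum -/
lemma gauss_sq (q : M → ZMod 2) (β : M → M → ZMod 2)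
    (h1 : ∀ z w, q (z + w) = q z + q w + β z w)
    (h2 : ∀ z z' w, β (z + z') w = β z w + β z' w)
    (h3 : ∀ w, (∀ z, β z w = 0) → q w = 0) (F : Finset M) (hF : ∀ w, w ∈ F ↔ ∀ z, β z w = 0) :
    (∑ z, sz (q z)) ^ 2 = (Fintype.card M : ℤ) * (F.card : ℤ) := by
  have hsum : ∀ w, ∑ z, sz (β z w) = if w ∈ F then (Fintype.card M : ℤ) else 0 := by
    intro w
    split_ifs with h
    · have h' := (hF w).1 h
      rw [sum_congr rfl fun z _ => by rw [h' z]]
      have h0 : sz 0 = 1 := rfl
      rw [h0, sum_const, card_univ, nsmul_eq_mul, mul_one]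
    · rw [hF] at h
      push Not at h
      obtain ⟨z0, hz0⟩ := h
      have h4 : sz (β z0 w) = -1 := if_neg hz0
      have h5 : ∑ z, sz (β z w) = - ∑ z, sz (β z w) := by
        calc ∑ z, sz (β z w) = ∑ z, sz (β (z + z0) w) :=
              (Equiv.sum_comp (Equiv.addRight z0) (fun z => sz (β z w))).symm
          _ = ∑ z, -sz (β z w) := by
            refine sum_congr rfl fun z _ => ?_
            rw [h2, sz_add, h4]
            ring
          _ = _ := sum_neg_distrib _
      omega
  calc (∑ z, sz (q z)) ^ 2 = ∑ z, ∑ w, sz (q z) * sz (q w) := by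
        rw [sq, sum_mul_sum]
    _ = ∑ z, ∑ w, sz (q z) * sz (q (z + w)) := by
        refine sum_congr rfl fun z _ => ?_
        exact (Equiv.sum_comp (Equiv.addLeft z) (fun w => sz (q z) * sz (q w))).symm
    _ = ∑ z, ∑ w, sz (q w) * sz (β z w) := by
        refine sum_congr rfl fun z _ => sum_congr rfl fun w _ => ?_
        rw [h1, sz_add, sz_add, ← mul_assoc, ← mul_assoc, sz_sq, one_mul]
    _ = ∑ w, sz (q w) * ∑ z, sz (β z w) := by
        rw [sum_comm]
        refine sum_congr rfl fun w _ => ?_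
        rw [mul_sum]
    _ = ∑ w, if w ∈ F then (Fintype.card M : ℤ) else 0 := by
        refine sum_congr rfl fun w _ => ?_
        rw [hsum w]
        split_ifs with h
        · rw [h3 w ((hF w).1 h)]
          have h0 : sz 0 = 1 := rfl
          rw [h0, one_mul]
        · rw [mul_zero]
    _ = _ := by
        rw [← sum_filter, filter_mem_eq_inter, univ_inter, sum_const, nsmul_eq_mul, mul_comm]

/-- the Gauss sum is one modulo three if there is an automorphism of order three -/
lemma gauss_three (q : M → ZMod 2) (r : M → M) (h3 : ∀ z, r (r (r z)) = z)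
    (hq : ∀ z, q (r z) = q z) (hr : ∀ z, r z = z ↔ z = 0) (h0 : q 0 = 0) :
    ∃ k : ℤ, ∑ z, sz (q z) = 3 * k + 1 := by
  have key : ∀ c : ZMod 2, Fintype.card {z : M // q z = c} ≡
      Fintype.card {z : M // q z = c ∧ z = 0} [MOD 3] := by
    intro c
    set f : Function.End {z : M // q z = c} := fun z => ⟨r z.1, (hq z.1).trans z.2⟩ with hf
    have hf3 : f ^ 3 ^ 1 = 1 := by
      rw [pow_one]
      funext z
      apply Subtype.ext
      exact h3 z.1
    have h4 := Equiv.Perm.card_fixedPoints_modEq (p := 3) (n := 1) hf3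
    refine h4.trans ?_
    rw [Fintype.card_congr (β := {z : M // q z = c ∧ z = 0})]
    refine ⟨fun z => ⟨z.1.1, z.1.2, ?_⟩, fun z => ⟨⟨z.1, z.2.1⟩, ?_⟩, fun z => ?_, fun z => ?_⟩
    · have h5 : f z.1 = z.1 := z.2
      have h6 := congrArg Subtype.val h5
      exact (hr z.1.1).1 h6
    · show f _ = _
      apply Subtype.ext
      show r z.1 = z.1
      exact (hr z.1).2 z.2.2
    · rfl
    · rfl
  have k0 := key 0
  have k1 := key 1
  have e0 : Fintype.card {z : M // q z = 0 ∧ z = 0} = 1 := by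
    rw [Fintype.card_eq_one_iff]
    exact ⟨⟨0, h0, rfl⟩, fun z => Subtype.ext z.2.2⟩
  have e1 : Fintype.card {z : M // q z = 1 ∧ z = 0} = 0 := by
    rw [Fintype.card_eq_zero_iff]
    refine ⟨fun z => ?_⟩
    have h5 := z.2.1
    rw [z.2.2, h0] at h5
    exact absurd h5 (by decide)
  rw [e0] at k0
  rw [e1] at k1
  rw [Fintype.card_subtype] at k0 k1
  have hs : ∑ z, sz (q z) = ((univ.filter (fun z => q z = 0)).card : ℤ) -
      ((univ.filter (fun z => q z = 1)).card : ℤ) := by
    have h5 : ∀ z, sz (q z) = (if q z = 0 then (1 : ℤ) else 0) - (if q z = 1 then (1 : ℤ) else 0) := by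
      intro z
      generalize q z = c
      revert c
      decide
    rw [sum_congr rfl fun z _ => h5 z, sum_sub_distrib, ← sum_filter, ← sum_filter, sum_const,
      sum_const, nsmul_eq_mul, nsmul_eq_mul, mul_one, mul_one]
  rw [hs]
  unfold Nat.ModEq at k0 k1
  refine ⟨(((univ.filter (fun z => q z = 0)).card : ℤ) -
      ((univ.filter (fun z => q z = 1)).card : ℤ) - 1) / 3, ?_⟩
  omega

end gauss

section lap

variable {j : ℕ} (A : Fin j → Fin j → ZMod 2)

/-- the Laplace operator -/
def Lap (y : Fin j → ZMod 2) (i : Fin j) : ZMod 2 := ∑ l ∈ univ.erase i, A i l * (y l + y i)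

/-- the bilinear form -/
def BB (x y : Fin j → ZMod 2) : ZMod 2 := ∑ i, x i * Lap A y i

/-- the pairs of vectors -/
abbrev MM (j : ℕ) : Type := (Fin j → ZMod 2) × (Fin j → ZMod 2)

/-- the quadratic form -/
def qq (z : MM j) : ZMod 2 := BB A (z.1 + z.2) z.1 + BB A z.2 z.2

/-- the polar form -/
def pol (z w : MM j) : ZMod 2 :=
  BB A (z.1 + z.2) w.1 + BB A (w.1 + w.2) z.1 + (BB A z.2 w.2 + BB A w.2 z.2)

/-- the rotation -/
def rot (z : MM j) : MM j := (z.2, z.1 + z.2)

lemma lap_add (y y' : Fin j → ZMod 2) (i : Fin j) : Lap A (y + y') i = Lap A y i + Lap A y' i := by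
  unfold Lap
  rw [← sum_add_distrib]
  refine sum_congr rfl fun l _ => ?_
  simp only [Pi.add_apply]
  ring

lemma bb_add_left (x x' y : Fin j → ZMod 2) : BB A (x + x') y = BB A x y + BB A x' y := by
  unfold BB
  rw [← sum_add_distrib]
  refine sum_congr rfl fun l _ => ?_
  simp only [Pi.add_apply]
  ring

lemma bb_add_right (x y y' : Fin j → ZMod 2) : BB A x (y + y') = BB A x y + BB A x y' := by
  unfold BB
  rw [← sum_add_distrib]
  refine sum_congr rfl fun l _ => ?_
  rw [lap_add]
  ring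

lemma two_zero (a : ZMod 2) : a + a = 0 := by
  revert a
  decide

lemma rad_check : ∀ a b s t : ZMod 2,
    (a + b) * (b + t) + b * (a + b + s + t) = a * t + b * s := by
  decide

lemma qq_add (z w : MM j) : qq A (z + w) = qq A z + qq A w + pol A z w := by
  unfold qq pol
  simp only [Prod.fst_add, Prod.snd_add]
  rw [show z.1 + w.1 + (z.2 + w.2) = (z.1 + z.2) + (w.1 + w.2) by abel]
  simp only [bb_add_left, bb_add_right]
  ring

lemma pol_add (z z' w : MM j) : pol A (z + z') w = pol A z w + pol A z' w := by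
  unfold pol
  simp only [Prod.fst_add, Prod.snd_add]
  simp only [bb_add_left, bb_add_right]
  ring

lemma qq_rot (z : MM j) : qq A (rot z) = qq A z := by
  unfold qq rot
  simp only [bb_add_left, bb_add_right]
  have h1 := two_zero (BB A z.2 z.2)
  have h2 := two_zero (BB A z.1 z.2)
  linear_combination h1 + h2

lemma rot_three (z : MM j) : rot (rot (rot z)) = z := by
  unfold rot
  have h2 : ∀ a : Fin j → ZMod 2, a + a = 0 := fun a => funext fun i => two_zero (a i)
  refine Prod.ext ?_ ?_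
  · show z.2 + (z.1 + z.2) = z.1
    rw [add_comm z.1, ← add_assoc, h2, zero_add]
  · show z.1 + z.2 + (z.2 + (z.1 + z.2)) = z.2
    have : z.1 + z.2 + (z.2 + (z.1 + z.2)) = (z.1 + z.1) + (z.2 + z.2) + z.2 := by abel
    rw [this, h2, h2, zero_add, zero_add]

lemma rot_fix (z : MM j) : rot z = z ↔ z = 0 := by
  unfold rot
  have h2 : ∀ a : Fin j → ZMod 2, a + a = 0 := fun a => funext fun i => two_zero (a i)
  constructor
  · intro h
    have h3 : z.2 = z.1 := congrArg Prod.fst h
    have h4 : z.1 + z.2 = z.2 := congrArg Prod.snd h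
    have h5 : z.1 = 0 := by
      have h6 : z.1 + z.2 + z.2 = z.2 + z.2 := by rw [h4]
      rw [add_assoc, h2, add_zero] at h6
      exact h6
    exact Prod.ext h5 (h3.trans h5)
  · rintro rfl
    refine Prod.ext rfl ?_
    show (0 : Fin j → ZMod 2) + 0 = 0
    rw [add_zero]

variable {A} (hA : ∀ i l, l ≠ i → A i l + A l i = 1)

include hA

lemma bb_symm (x y : Fin j → ZMod 2) :
    BB A x y + BB A y x = (∑ i, x i) * (∑ i, y i) + ∑ i, x i * y i := by
  have e : ∀ F : Fin j → Fin j → ZMod 2, ∑ i, ∑ l ∈ univ.erase i, F i l =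
      ∑ i, ∑ l, if l = i then 0 else F i l := by
    intro F
    refine sum_congr rfl fun i _ => ?_
    rw [← filter_ne' univ i, sum_filter]
    refine sum_congr rfl fun l _ => ?_
    by_cases hl : l = i
    · rw [if_pos hl, if_neg (not_not.2 hl)]
    · rw [if_neg hl, if_pos hl]
  have hswap : ∀ F : Fin j → Fin j → ZMod 2, ∑ i, ∑ l ∈ univ.erase i, F i l =
      ∑ i, ∑ l ∈ univ.erase i, F l i := by
    intro F
    rw [e, e, sum_comm]
    refine sum_congr rfl fun l _ => sum_congr rfl fun i _ => ?_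
    by_cases hl : l = i
    · rw [if_pos hl, if_pos hl.symm]
    · rw [if_neg hl, if_neg (Ne.symm hl)]
  have h1 : BB A x y + BB A y x = ∑ i, ∑ l ∈ univ.erase i, A i l * (x i * y l) +
      ∑ i, ∑ l ∈ univ.erase i, A i l * (y i * x l) := by
    unfold BB Lap
    rw [← sum_add_distrib, ← sum_add_distrib]
    refine sum_congr rfl fun i _ => ?_
    rw [mul_sum, mul_sum, ← sum_add_distrib, ← sum_add_distrib]
    refine sum_congr rfl fun l _ => ?_
    have h2 := two_zero (A i l * (x i * y i))
    linear_combination h2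
  rw [h1, hswap (fun i l => A i l * (y i * x l)), ← sum_add_distrib, sum_mul_sum,
    ← sum_add_distrib]
  refine sum_congr rfl fun i _ => ?_
  rw [← sum_add_distrib, ← sum_erase_add _ _ (mem_univ i)]
  have h3 : ∀ l ∈ univ.erase i, A i l * (x i * y l) + A l i * (y l * x i) = x i * y l := by
    intro l hl
    have := hA i l (ne_of_mem_erase hl)
    linear_combination (x i * y l) * this
  rw [sum_congr rfl h3]
  have h4 := two_zero (x i * y i)
  linear_combination -h4

/-- the coefficients of the polar form -/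
lemma pol_eq (z w : MM j) : pol A z w =
    ∑ i, z.1 i * ((∑ i, w.1 i) + w.1 i + Lap A w.2 i + (∑ i, w.2 i) + w.2 i) +
    ∑ i, z.2 i * (Lap A w.1 i + (∑ i, w.2 i) + w.2 i) := by
  have h1 := bb_symm hA z.1 w.1
  have h2 := bb_symm hA z.1 w.2
  have h3 := bb_symm hA z.2 w.2
  have e1 : ∑ i, z.1 i * ((∑ i, w.1 i) + w.1 i + Lap A w.2 i + (∑ i, w.2 i) + w.2 i) =
      (∑ i, z.1 i) * (∑ i, w.1 i) + ∑ i, z.1 i * w.1 i + BB A z.1 w.2 +
      (∑ i, z.1 i) * (∑ i, w.2 i) + ∑ i, z.1 i * w.2 i := by
    rw [sum_mul, sum_mul]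
    unfold BB
    rw [← sum_add_distrib, ← sum_add_distrib, ← sum_add_distrib, ← sum_add_distrib]
    refine sum_congr rfl fun i _ => ?_
    ring
  have e2 : ∑ i, z.2 i * (Lap A w.1 i + (∑ i, w.2 i) + w.2 i) =
      BB A z.2 w.1 + (∑ i, z.2 i) * (∑ i, w.2 i) + ∑ i, z.2 i * w.2 i := by
    rw [sum_mul]
    unfold BB
    rw [← sum_add_distrib, ← sum_add_distrib]
    refine sum_congr rfl fun i _ => ?_
    ring
  rw [e1, e2]
  unfold pol
  rw [bb_add_left, bb_add_left]
  have h4 := two_zero (BB A z.1 w.2)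
  linear_combination h1 + h2 + h3 - h4

/-- the radical -/
lemma rad_iff (w : MM j) : (∀ z, pol A z w = 0) ↔ ∀ i,
    Lap A w.1 i = w.2 i + (∑ i, w.2 i) ∧
    Lap A w.2 i = w.1 i + w.2 i + (∑ i, w.1 i) + (∑ i, w.2 i) := by
  have z2 : ∀ a b : ZMod 2, a = b ↔ a + b = 0 := by decide
  constructor
  · intro h i
    have h1 := h (Pi.single i 1, 0)
    have h2 := h (0, Pi.single i 1)
    rw [pol_eq hA] at h1 h2
    simp only [Pi.zero_apply, zero_mul, sum_const_zero, zero_add, add_zero] at h1 h2
    rw [sum_eq_single i, Pi.single_eq_same, one_mul] at h1 h2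
    · constructor
      · rw [z2]
        linear_combination h2
      · rw [z2]
        linear_combination h1
    · intro b _ hb
      rw [Pi.single_eq_of_ne hb, zero_mul]
    · exact fun h => absurd (mem_univ _) h
    · intro b _ hb
      rw [Pi.single_eq_of_ne hb, zero_mul]
    · exact fun h => absurd (mem_univ _) h
  · intro h z
    rw [pol_eq hA]
    have e1 : ∀ i, (∑ i, w.1 i) + w.1 i + Lap A w.2 i + (∑ i, w.2 i) + w.2 i = 0 := by
      intro i
      have h1 := (z2 _ _).1 (h i).2
      linear_combination h1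
    have e2 : ∀ i, Lap A w.1 i + (∑ i, w.2 i) + w.2 i = 0 := by
      intro i
      have h1 := (z2 _ _).1 (h i).1
      linear_combination h1
    simp only [e1, e2, mul_zero, sum_const_zero, add_zero]

/-- the form vanishes on the radical -/
lemma qq_rad (w : MM j) (h : ∀ z, pol A z w = 0) : qq A w = 0 := by
  rw [rad_iff hA] at h
  have e1 : BB A (w.1 + w.2) w.1 = ∑ i, (w.1 i + w.2 i) * (w.2 i + (∑ i, w.2 i)) := by
    unfold BB
    refine sum_congr rfl fun i _ => ?_
    rw [(h i).1]
    rfl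
  have e2 : BB A w.2 w.2 =
      ∑ i, w.2 i * (w.1 i + w.2 i + (∑ i, w.1 i) + (∑ i, w.2 i)) := by
    unfold BB
    refine sum_congr rfl fun i _ => ?_
    rw [(h i).2]
  unfold qq
  rw [e1, e2, ← sum_add_distrib]
  set s := ∑ i, w.1 i with hs
  set t := ∑ i, w.2 i with ht
  have e3 : ∀ i, (w.1 i + w.2 i) * (w.2 i + t) + w.2 i * (w.1 i + w.2 i + s + t) =
      w.1 i * t + w.2 i * s := fun i => rad_check _ _ _ _
  rw [sum_congr rfl fun i _ => e3 i, sum_add_distrib, ← sum_mul, ← sum_mul, ← hs, ← ht]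
  rw [mul_comm t s]
  exact two_zero _

lemma sum_lap (y : Fin j → ZMod 2) : ∑ i, Lap A y i = (j : ZMod 2) * (∑ i, y i) + ∑ i, y i := by
  have h1 := bb_symm hA (fun _ => 1) y
  have h2 : BB A y (fun _ => 1) = 0 := by
    unfold BB Lap
    refine sum_eq_zero fun i _ => ?_
    rw [sum_eq_zero, mul_zero]
    intro l _
    rw [two_zero, mul_zero]
  have h3 : BB A (fun _ => 1) y = ∑ i, Lap A y i := by
    unfold BB
    exact sum_congr rfl fun i _ => one_mul _
  rw [h2, add_zero, h3] at h1
  rw [h1]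
  simp

end lap

end Pool.Agent.TH715.CN
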