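import Mathlib
import Pool.Agent.TH715.CN.Avg3
import Pool.Agent.TH715.CN.Gau
import Pool.Agent.TH715.CN.Ell

/-!
# The Gauss sum of a tuple of primes that are three modulo eight
-/

set_option autoImplicit false

namespace Pool.Agent.TH715.CN

open Finset

open Pool.Agent.W262.RK (Jr sg0)

open Pool.Agent.TH715.RS

section rad

variable {j : ℕ} (A : Fin j → Fin j → ZMod 2)

/-- the solutions -/
def SolM : Finset (MM j) := univ.filter (fun w => ∀ i, Lap A w.1 i = w.2 i ∧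
  Lap A w.2 i = w.1 i + w.2 i)

/-- the radical -/
def RadM : Finset (MM j) := univ.filter (fun w => ∀ i,
    Lap A w.1 i = w.2 i + (∑ i, w.2 i) ∧
    Lap A w.2 i = w.1 i + w.2 i + (∑ i, w.1 i) + (∑ i, w.2 i))

lemma sum_check : ∀ c s t : ZMod 2, c * s + s = t → c * t + t = s + t → s = 0 ∧ t = 0 := by
  decide

lemma lap_const (y : Fin j → ZMod 2) (c : ZMod 2) (i : Fin j) :
    Lap A (fun l => y l + c) i = Lap A y i := by
  unfold Lap
  refine sum_congr rfl fun l _ => ?_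
  have := two_zero c
  linear_combination (A i l) * this

variable {A} (hA : ∀ i l, l ≠ i → A i l + A l i = 1)

include hA

lemma solM_sum {w : MM j} (h : w ∈ SolM A) : ∑ i, w.1 i = 0 ∧ ∑ i, w.2 i = 0 := by
  have h1 := (mem_filter.1 h).2
  have e1 := sum_lap hA w.1
  have e2 := sum_lap hA w.2
  rw [sum_congr rfl fun i _ => (h1 i).1] at e1
  rw [sum_congr rfl fun i _ => (h1 i).2, sum_add_distrib] at e2
  exact sum_check _ _ _ e1.symm e2.symm

lemma card_rad_even (hj : (j : ZMod 2) = 0) : (RadM A).card = (SolM A).card := by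
  congr 1
  ext w
  constructor
  · intro h
    have h1 := (mem_filter.1 h).2
    have e1 := sum_lap hA w.1
    have e2 := sum_lap hA w.2
    rw [sum_congr rfl fun i _ => (h1 i).1, sum_add_distrib, sum_const, card_univ, Fintype.card_fin,
      nsmul_eq_mul, hj, zero_mul, zero_mul, add_zero, zero_add] at e1
    rw [sum_congr rfl fun i _ => (h1 i).2, sum_add_distrib, sum_add_distrib, sum_add_distrib,
      sum_const, sum_const, card_univ, Fintype.card_fin, nsmul_eq_mul, nsmul_eq_mul, hj, zero_mul,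
      zero_mul, add_zero, add_zero, zero_add] at e2
    have h2 : ∀ s t : ZMod 2, t = s → s + t = t → s = 0 ∧ t = 0 := by decide
    obtain ⟨s0, t0⟩ := h2 _ _ e1 e2
    refine mem_filter.2 ⟨mem_univ _, fun i => ?_⟩
    obtain ⟨h3, h4⟩ := h1 i
    rw [t0, add_zero] at h3
    rw [s0, t0, add_zero, add_zero] at h4
    exact ⟨h3, h4⟩
  · intro h
    obtain ⟨s0, t0⟩ := solM_sum hA h
    have h1 := (mem_filter.1 h).2
    refine mem_filter.2 ⟨mem_univ _, fun i => ?_⟩
    rw [s0, t0, add_zero, add_zero, add_zero]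
    exact h1 i

lemma card_rad_odd (hj : (j : ZMod 2) = 1) : (RadM A).card = 4 * (SolM A).card := by
  have h4 : (univ : Finset (ZMod 2 × ZMod 2)).card = 4 := by decide
  have hsum : ∀ (y : Fin j → ZMod 2) (c : ZMod 2), ∑ i, (y i + c) = ∑ i, y i + c := by
    intro y c
    rw [sum_add_distrib, sum_const, card_univ, Fintype.card_fin, nsmul_eq_mul, hj, one_mul]
  rw [mul_comm, ← h4, ← card_product]
  refine Finset.card_nbij' (fun w => ((fun i => w.1 i + ∑ i, w.1 i, fun i => w.2 i + ∑ i, w.2 i),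
    (∑ i, w.1 i, ∑ i, w.2 i))) (fun v => (fun i => v.1.1 i + v.2.1, fun i => v.1.2 i + v.2.2))
    ?_ ?_ ?_ ?_
  · intro w hw
    have h1 := (mem_filter.1 hw).2
    refine mem_coe.2 (mem_product.2 ⟨mem_filter.2 ⟨mem_univ _, fun i => ?_⟩, mem_univ _⟩)
    show Lap A (fun i => w.1 i + ∑ i, w.1 i) i = w.2 i + ∑ i, w.2 i ∧
      Lap A (fun i => w.2 i + ∑ i, w.2 i) i = (w.1 i + ∑ i, w.1 i) + (w.2 i + ∑ i, w.2 i)
    rw [lap_const, lap_const]
    refine ⟨(h1 i).1, (h1 i).2.trans ?_⟩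
    ring
  · rintro ⟨v, c, d⟩ hv
    have hv1 := (mem_product.1 (mem_coe.1 hv)).1
    obtain ⟨s0, t0⟩ := solM_sum hA hv1
    have h1 := (mem_filter.1 hv1).2
    refine mem_coe.2 (mem_filter.2 ⟨mem_univ _, fun i => ?_⟩)
    show Lap A (fun i => v.1 i + c) i = (v.2 i + d) + ∑ i, (v.2 i + d) ∧
      Lap A (fun i => v.2 i + d) i = (v.1 i + c) + (v.2 i + d) + ∑ i, (v.1 i + c) +
        ∑ i, (v.2 i + d)
    change ∑ i, v.1 i = 0 at s0
    change ∑ i, v.2 i = 0 at t0
    rw [lap_const, lap_const, hsum, hsum, s0, t0]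
    have hd := two_zero d
    have hc := two_zero c
    refine ⟨(h1 i).1.trans ?_, (h1 i).2.trans ?_⟩
    · show v.2 i = _
      linear_combination -hd
    · show v.1 i + v.2 i = _
      linear_combination -hd - hc
  · intro w _
    refine Prod.ext (funext fun i => ?_) (funext fun i => ?_)
    · show w.1 i + ∑ i, w.1 i + ∑ i, w.1 i = w.1 i
      rw [add_assoc, two_zero, add_zero]
    · show w.2 i + ∑ i, w.2 i + ∑ i, w.2 i = w.2 i
      rw [add_assoc, two_zero, add_zero]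
  · rintro ⟨v, c, d⟩ hv
    have hv1 := (mem_product.1 (mem_coe.1 hv)).1
    obtain ⟨s0, t0⟩ := solM_sum hA hv1
    change ∑ i, v.1 i = 0 at s0
    change ∑ i, v.2 i = 0 at t0
    refine Prod.ext (Prod.ext (funext fun i => ?_) (funext fun i => ?_)) (Prod.ext ?_ ?_)
    · show v.1 i + c + ∑ i, (v.1 i + c) = v.1 i
      rw [hsum, s0, zero_add, add_assoc, two_zero, add_zero]
    · show v.2 i + d + ∑ i, (v.2 i + d) = v.2 i
      rw [hsum, t0, zero_add, add_assoc, two_zero, add_zero]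
    · show ∑ i, (v.1 i + c) = c
      rw [hsum, s0, zero_add]
    · show ∑ i, (v.2 i + d) = d
      rw [hsum, t0, zero_add]

/-- **the Gauss sum** -/
theorem gauss_val : ∃ W : ℤ, ∑ z, sz (qq A z) = 2 ^ (2 * ((j + 1) / 2)) * W ∧
    W ^ 2 = ((SolM A).card : ℤ) ∧ ∃ k : ℤ, W = 3 * k + 1 := by
  have h1 := gauss_sq (qq A) (pol A) (qq_add A) (pol_add A) (qq_rad hA) (RadM A) (fun w => by
    rw [rad_iff hA]
    unfold RadM
    rw [mem_filter]
    exact ⟨fun h => h.2, fun h => ⟨mem_univ _, h⟩⟩)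
  have h0 : qq A (0 : MM j) = 0 := by
    unfold qq BB
    simp
  obtain ⟨k, hk⟩ := gauss_three (qq A) rot rot_three (qq_rot A) rot_fix h0
  have hM : Fintype.card (MM j) = 4 ^ j := by
    rw [Fintype.card_prod, Fintype.card_fun, ZMod.card, Fintype.card_fin, ← mul_pow]
    norm_num
  rw [hM] at h1
  have h2 : (∑ z, sz (qq A z)) ^ 2 = (2 ^ (2 * ((j + 1) / 2))) ^ 2 * ((SolM A).card : ℤ) := by
    rw [h1]
    rcases Nat.even_or_odd j with hj | hj
    · have hj' : (j : ZMod 2) = 0 := (ZMod.natCast_eq_zero_iff_even).2 hj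
      rw [card_rad_even hA hj']
      obtain ⟨r, hr⟩ := hj
      have e : 2 * ((j + 1) / 2) = j := by omega
      rw [e, ← pow_mul, mul_comm j 2, pow_mul]
      norm_num
    · have hj' : (j : ZMod 2) = 1 := (ZMod.natCast_eq_one_iff_odd).2 hj
      rw [card_rad_odd hA hj']
      obtain ⟨r, hr⟩ := hj
      have e : 2 * ((j + 1) / 2) = j + 1 := by omega
      rw [e, ← pow_mul, mul_comm (j + 1) 2, pow_mul]
      push_cast
      rw [pow_succ]
      norm_num
      ring
  have h3 : (2 ^ (2 * ((j + 1) / 2)) : ℤ) ∣ ∑ z, sz (qq A z) := by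
    rw [← Int.pow_dvd_pow_iff (n := 2) two_ne_zero, h2]
    exact dvd_mul_right _ _
  obtain ⟨W, hW⟩ := h3
  refine ⟨W, hW, ?_, ?_⟩
  · rw [hW, mul_pow] at h2
    exact mul_left_cancel₀ (by positivity) h2
  · rw [hW] at hk
    have h5 : ∃ n : ℤ, (2 ^ (2 * ((j + 1) / 2)) : ℤ) = 3 * n + 1 := by
      rw [pow_mul]
      generalize (j + 1) / 2 = t
      induction t with
      | zero => exact ⟨0, by norm_num⟩
      | succ t ih =>
        obtain ⟨n, hn⟩ := ih
        refine ⟨4 * n + 1, ?_⟩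
        rw [pow_succ, hn]
        ring
    obtain ⟨n, hn⟩ := h5
    rw [hn] at hk
    refine ⟨k - n * W, ?_⟩
    linear_combination hk

end rad

/-- the four colours -/
def ell (a : Bool × Bool) : Bool → Bool × Bool := colour a (xor a.1 a.2, a.2)

lemma nn_ell (a b : Bool × Bool) : (nn (ell a) (ell b) : ZMod 2) =
    (bz b.1 + bz b.2) * (bz a.1 + bz b.1) + bz b.2 * (bz a.2 + bz b.2) := by
  unfold ell
  rw [nn_colour]
  revert a b
  decide

lemma ell_odd (a b : Bool × Bool) :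
    Odd (nn (ell a) (ell b) + nn (ell b) (ell a)) ↔ a ≠ b := by
  unfold ell
  rw [odd_iff]
  revert a b
  decide

lemma ell_inj : Function.Injective ell := by
  intro a b h
  have h1 := congrFun h true
  have h2 := congrFun h false
  obtain ⟨f1, -⟩ := Prod.mk.inj h1
  obtain ⟨f2, -⟩ := Prod.mk.inj h2
  exact Prod.ext f2 f1

/-- the pair of vectors -/
def toM {j : ℕ} : (Fin j → Bool × Bool) ≃ MM j where
  toFun φ := (fun i => bz (φ i).1, fun i => bz (φ i).2)
  invFun z := fun i => (decide (z.1 i = 1), decide (z.2 i = 1))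
  left_inv φ := by
    funext i
    have h : ∀ b : Bool, decide (bz b = 1) = b := by decide
    exact Prod.ext (h _) (h _)
  right_inv z := by
    have h : ∀ c : ZMod 2, bz (decide (c = 1)) = c := by decide
    exact Prod.ext (funext fun i => h _) (funext fun i => h _)

/-- the normalised Gauss sum -/
noncomputable def WW {j : ℕ} (x : Fin j → ℕ) : ℝ :=
  (∑ φ : Fin j → Bool × Bool, tm (fun _ _ => 1) (fun i => ell (φ i)) x) /
    2 ^ (2 * ((j + 1) / 2))

lemma sz_sum {ι : Type} (s : Finset ι) (f : ι → ZMod 2) : sz (∑ i ∈ s, f i) = ∏ i ∈ s, sz (f i) := by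
  classical
  induction s using Finset.induction_on with
  | empty =>
    rw [sum_empty, prod_empty]
    rfl
  | insert a s ha ih => rw [sum_insert ha, prod_insert ha, sz_add, ih]

lemma sz_pow (a : ZMod 2) (n : ℕ) : sz a ^ n = sz (a * n) := by
  induction n with
  | zero =>
    rw [pow_zero, Nat.cast_zero, mul_zero]
    rfl
  | succ n ih =>
    rw [pow_succ, ih, Nat.cast_succ, mul_add, mul_one, sz_add]

section

variable {j : ℕ} {x : Fin j → ℕ} (hx : Function.Injective x) (hp : ∀ i, (x i).Prime)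

include hx hp

lemma tm_ell (φ : Fin j → Bool × Bool) :
    tm (fun _ _ => 1) (fun i => ell (φ i)) x = ((sz (qq (Ab x) (toM φ)) : ℤ) : ℝ) := by
  classical
  unfold tm
  rw [if_pos hx, one_mul, prod_const_one, one_mul, prod_comm]
  have h1 : ∀ i l, Jr (x l) (x i) ^ nn (ell (φ l)) (ell (φ i)) =
      (((if l = i then 1 else sz (Ab x i l * ((bz (φ i).1 + bz (φ i).2) *
        (bz (φ l).1 + bz (φ i).1) + bz (φ i).2 * (bz (φ l).2 + bz (φ i).2)))) : ℤ) : ℝ) := by
    intro i l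
    by_cases hl : l = i
    · rw [if_pos hl, hl, nn_self, pow_zero, Int.cast_one]
    · rw [if_neg hl, ← nn_ell, ← sz_pow, Int.cast_pow]
      congr 1
      unfold Jr Ab sz bz sg0
      rcases unit_xl hx hp hl with h2 | h2 <;> rw [h2] <;> simp
  have h2 : qq (Ab x) (toM φ) = ∑ i, ∑ l ∈ univ.erase i, Ab x i l * ((bz (φ i).1 + bz (φ i).2) *
        (bz (φ l).1 + bz (φ i).1) + bz (φ i).2 * (bz (φ l).2 + bz (φ i).2)) := by
    unfold qq BB Lap
    rw [← sum_add_distrib]
    refine sum_congr rfl fun i _ => ?_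
    rw [mul_sum, mul_sum, ← sum_add_distrib]
    refine sum_congr rfl fun l _ => ?_
    show (bz (φ i).1 + bz (φ i).2) * (Ab x i l * (bz (φ l).1 + bz (φ i).1)) +
      bz (φ i).2 * (Ab x i l * (bz (φ l).2 + bz (φ i).2)) = _
    ring
  rw [h2, sz_sum, Int.cast_prod]
  refine prod_congr rfl fun i _ => ?_
  rw [sz_sum, Int.cast_prod, prod_congr rfl fun l _ => h1 i l, ← mul_prod_erase _ _ (mem_univ i),
    if_pos rfl, Int.cast_one, one_mul]
  refine prod_congr rfl fun l hl => ?_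
  rw [if_neg (ne_of_mem_erase hl)]

variable (h8 : ∀ i, x i % 8 = 3)

include h8

lemma ww_spec : ∃ W : ℤ, WW x = W ∧ W ^ 2 = ((SS x).card : ℤ) ∧ ∃ k : ℤ, W = 3 * k + 1 := by
  classical
  obtain ⟨W, h1, h2, h3⟩ := gauss_val (A := Ab x) (fun i l hl => recip hx hp h8 hl)
  refine ⟨W, ?_, ?_, h3⟩
  · unfold WW
    rw [sum_congr rfl fun φ _ => tm_ell hx hp φ, ← Int.cast_sum,
      Equiv.sum_comp toM (fun z => sz (qq (Ab x) z)), h1, div_eq_iff (by positivity)]
    push_cast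
    ring
  · rw [h2]
    congr 1
    symm
    refine Finset.card_equiv toM fun φ => ?_
    rw [mem_SS hx hp h8]
    unfold SolM
    rw [mem_filter]
    exact ⟨fun h => ⟨mem_univ _, h⟩, fun h => h.2⟩

end

/-- **the average of the Gauss sum** -/
theorem avgW : ∃ (C : ℝ) (D : ℕ), 1 ≤ C ∧
    ∀ (j y : ℕ) (Q : Finset ℕ), (∀ q ∈ Q, q.Prime ∧ q % 8 = 3 ∧ q ≤ y) →
      (y : ℝ) ^ (19 / 20 : ℝ) ≤ Q.card → C * ((j : ℝ) + 1) ^ D ≤ Q.card →
        -(C * ((j : ℝ) + 1) * (Q.card : ℝ) ^ (-(1 / 40) : ℝ) * (Q.card : ℝ) ^ j) ≤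
          ∑ x ∈ (PQ (Fin j) Q).filter Function.Injective, WW x ∧
        ∑ x ∈ (PQ (Fin j) Q).filter Function.Injective, WW x ≤
          (4 / 2 ^ (2 * ((j + 1) / 2)) + C * ((j : ℝ) + 1) * (Q.card : ℝ) ^ (-(1 / 40) : ℝ)) *
            (Q.card : ℝ) ^ j := by
  classical
  obtain ⟨C, D, hC, h⟩ := sum_linked_in Bool (univ.image ell) 1 le_rfl (fun U hU => by
    rw [card_le_one]
    intro u hu v hv
    obtain ⟨hu1, hu2⟩ := mem_filter.1 hu
    obtain ⟨hv1, hv2⟩ := mem_filter.1 hv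
    obtain ⟨a, -, rfl⟩ := mem_image.1 hu1
    obtain ⟨b, -, rfl⟩ := mem_image.1 hv1
    by_contra hne
    have hab : a ≠ b := fun h => hne (by rw [h])
    exact (Nat.not_even_iff_odd.2 ((ell_odd a b).2 hab)) (hU _ hu2 _ hv2))
  refine ⟨C, D, hC, ?_⟩
  intro j y Q hQ hyQ hjQ
  have hQ' : ∀ q ∈ Q, q.Prime ∧ q ≠ 2 ∧ q ≤ y := by
    intro q hq
    obtain ⟨h1, h2, h3⟩ := hQ q hq
    exact ⟨h1, by omega, h3⟩
  have h0 := h j y Q hQ' hyQ hjQ (fun _ _ => 1) (fun _ _ => by norm_num)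
  rw [Nat.cast_one, one_pow, one_mul] at h0
  set N : ℝ := (Q.card : ℝ) with hN
  have hN0 : 0 ≤ N := Nat.cast_nonneg _
  set e : ℝ := C * ((j : ℝ) + 1) * N ^ (-(1 / 40) : ℝ) with he
  have he0 : 0 ≤ e := by
    have : 0 ≤ N ^ (-(1 / 40) : ℝ) := Real.rpow_nonneg hN0 _
    positivity
  set P : Finset (Fin j → ℕ) := (PQ (Fin j) Q).filter Function.Injective with hP
  have hPc : (P.card : ℝ) ≤ N ^ j := by
    have h1 : (P.card : ℝ) ≤ ((PQ (Fin j) Q).card : ℝ) := by
      exact_mod_cast card_le_card (filter_subset _ _)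
    refine h1.trans (le_of_eq ?_)
    rw [card_PQ, Fintype.card_fin]
  set F : (Fin j → Bool × Bool) → ℝ := fun φ =>
    ∑ x ∈ PQ (Fin j) Q, tm (fun _ _ => 1) (fun i => ell (φ i)) x with hF
  have hFP : ∀ φ, F φ = ∑ x ∈ P, tm (fun _ _ => 1) (fun i => ell (φ i)) x := by
    intro φ
    rw [hF, hP, sum_filter]
    refine sum_congr rfl fun x _ => ?_
    by_cases hx : Function.Injective x
    · rw [if_pos hx]
    · rw [if_neg hx]
      unfold tm
      rw [if_neg hx]
      ring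
  -- the constant functions
  have hcst : ∀ φ : Fin j → Bool × Bool, ¬ (∃ i l, φ i ≠ φ l) → F φ = P.card := by
    intro φ hφ
    push Not at hφ
    rw [hFP, card_eq_sum_ones]
    push_cast
    refine sum_congr rfl fun x hx => ?_
    unfold tm
    rw [if_pos (mem_filter.1 hx).2, one_mul, prod_const_one, one_mul]
    refine prod_eq_one fun i _ => prod_eq_one fun l _ => ?_
    show Jr (x i) (x l) ^ nn (ell (φ i)) (ell (φ l)) = 1
    rw [hφ i l, nn_self, pow_zero]
  have hcard : (univ.filter (fun φ : Fin j → Bool × Bool => ¬ ∃ i l, φ i ≠ φ l)).card ≤ 4 := by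
    have h4 : (univ : Finset (Bool × Bool)).card = 4 := by decide
    rw [← h4]
    refine card_le_card_of_injOn (fun φ => if h : 0 < j then φ ⟨0, h⟩ else (false, false))
      (fun _ _ => mem_univ _) ?_
    intro φ hφ ψ hψ he
    have h1 := (mem_filter.1 (mem_coe.1 hφ)).2
    have h2 := (mem_filter.1 (mem_coe.1 hψ)).2
    push Not at h1 h2
    funext i
    have hj : 0 < j := by
      have := i.2
      omega
    have he' : φ ⟨0, hj⟩ = ψ ⟨0, hj⟩ := by
      have := he
      simp only [hj, dif_pos] at this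
      exact this
    rw [h1 i ⟨0, hj⟩, h2 i ⟨0, hj⟩, he']
  have hlink : ∑ φ ∈ univ.filter (fun φ : Fin j → Bool × Bool => ∃ i l, φ i ≠ φ l), |F φ| ≤
      e * N ^ j := by
    refine le_trans ?_ h0
    refine le_trans (le_of_eq ?_) (sum_le_sum_of_subset_of_nonneg (s := image
      (fun φ : Fin j → Bool × Bool => (fun i => ell (φ i) : Fin j → Bool → Bool × Bool))
      (univ.filter (fun φ : Fin j → Bool × Bool => ∃ i l, φ i ≠ φ l)))
      ?_ (fun u _ _ => abs_nonneg _))
    · rw [sum_image]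
      intro φ _ φ' _ he
      funext i
      exact ell_inj (congrFun he i)
    · intro u hu
      obtain ⟨φ, hφ, rfl⟩ := mem_image.1 hu
      obtain ⟨i, l, hil⟩ := (mem_filter.1 hφ).2
      refine mem_filter.2 ⟨Fintype.mem_piFinset.2 fun i => mem_image_of_mem _ (mem_univ _), i, l,
        (ell_odd _ _).2 hil⟩
  have htot : ∑ x ∈ P, ∑ φ : Fin j → Bool × Bool, tm (fun _ _ => 1) (fun i => ell (φ i)) x =
      ∑ φ ∈ univ.filter (fun φ : Fin j → Bool × Bool => ∃ i l, φ i ≠ φ l), F φ +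
      ((univ.filter (fun φ : Fin j → Bool × Bool => ¬ ∃ i l, φ i ≠ φ l)).card : ℝ) * P.card := by
    rw [sum_comm, ← sum_filter_add_sum_filter_not univ
      (fun φ : Fin j → Bool × Bool => ∃ i l, φ i ≠ φ l)]
    congr 1
    · exact sum_congr rfl fun φ _ => (hFP φ).symm
    · rw [← nsmul_eq_mul, ← sum_const]
      refine sum_congr rfl fun φ hφ => ?_
      rw [← hFP, hcst φ (mem_filter.1 hφ).2]
  have habs : |∑ φ ∈ univ.filter (fun φ : Fin j → Bool × Bool => ∃ i l, φ i ≠ φ l), F φ| ≤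
      e * N ^ j := (abs_sum_le_sum_abs _ _).trans hlink
  obtain ⟨hlo, hhi⟩ := abs_le.1 habs
  have hcard' : ((univ.filter (fun φ : Fin j → Bool × Bool => ¬ ∃ i l, φ i ≠ φ l)).card : ℝ) ≤ 4 := by
    exact_mod_cast hcard
  have hNj : 0 ≤ N ^ j := by positivity
  have hcP : 0 ≤ ((univ.filter (fun φ : Fin j → Bool × Bool => ¬ ∃ i l, φ i ≠ φ l)).card : ℝ) *
      P.card := by positivity
  have hcP' : ((univ.filter (fun φ : Fin j → Bool × Bool => ¬ ∃ i l, φ i ≠ φ l)).card : ℝ) *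
      P.card ≤ 4 * N ^ j := mul_le_mul hcard' hPc (Nat.cast_nonneg _) (by norm_num)
  have hT : ∑ x ∈ P, WW x = (∑ x ∈ P, ∑ φ : Fin j → Bool × Bool,
      tm (fun _ _ => 1) (fun i => ell (φ i)) x) / 2 ^ (2 * ((j + 1) / 2)) := by
    unfold WW
    rw [sum_div]
  have h2p : (1 : ℝ) ≤ 2 ^ (2 * ((j + 1) / 2)) := one_le_pow₀ (by norm_num)
  rw [hT, htot]
  set b : ℝ := 2 ^ (2 * ((j + 1) / 2)) with hb
  have heN : 0 ≤ e * N ^ j := by positivity
  constructor
  · rw [le_div_iff₀ (by linarith)]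
    nlinarith
  · rw [div_le_iff₀ (by linarith)]
    have h5 : (4 / b + e) * N ^ j * b = 4 * N ^ j + e * N ^ j * b := by
      field_simp
    rw [h5]
    nlinarith

end Pool.Agent.TH715.CN
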