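import Mathlib
import Pool.Agent.TH715.CN.Fin2
import Pool.Agent.TH715.CN.Gau2

/-!
# Sums over the subsets of functions bounded by the Selmer group and the Gauss sum
-/

set_option autoImplicit false

namespace Pool.Agent.TH715.CN

open Finset

open scoped Classical

open Pool.Agent.W262.SH (Sha)

open Pool.Agent.TH715.RS

/-- **sums over the subsets** -/
theorem main3 : ∃ (C : ℝ) (D : ℕ), 1 ≤ C ∧ ∀ (α β γ : ℝ), 0 ≤ β →
    ∀ F : Finset ℕ → ℝ, (∀ T, 0 ≤ F T) →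
    (∀ (j : ℕ) (x : Fin j → ℕ), Function.Injective x → (∀ i, (x i).Prime) →
      (∀ i, x i % 8 = 3) → F (univ.image x) ≤ α + β * ((SS x).card : ℝ) + γ * WW x) →
    ∀ (m y : ℕ) (Q : Finset ℕ), (∀ q ∈ Q, q.Prime ∧ q % 8 = 3 ∧ q ≤ y) →
      (y : ℝ) ^ (19 / 20 : ℝ) ≤ Q.card → C * ((m : ℝ) + 1) ^ D ≤ Q.card →
      ∑ T ∈ Q.powersetCard m, F T ≤ (α + 3 * β + max γ 0 * (4 / 2 ^ (2 * ((m + 1) / 2))) +
        C * (|α| + β + |γ|) * (((m : ℝ) + 1) * (Q.card : ℝ) ^ (-(1 / 40) : ℝ))) *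
          (Q.card.choose m : ℝ) := by
  obtain ⟨C₁, D₁, hC₁, hA⟩ := avg3
  obtain ⟨C₂, D₂, hC₂, hW⟩ := avgW
  refine ⟨2 * C₁ + 2 * C₂ + 8, D₁ + D₂ + 2, by linarith, ?_⟩
  intro α β γ hβ F hF0 hF m y Q hQ hyQ hmQ
  have hm1 : (1 : ℝ) ≤ (m : ℝ) + 1 := by
    have : (0 : ℝ) ≤ m := Nat.cast_nonneg m
    linarith
  have hpow : ∀ (c : ℝ) (k : ℕ), 0 ≤ c → c ≤ 2 * C₁ + 2 * C₂ + 8 → k ≤ D₁ + D₂ + 2 →
      c * ((m : ℝ) + 1) ^ k ≤ Q.card := by
    intro c k hc0 hc hk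
    refine le_trans ?_ hmQ
    exact mul_le_mul hc (pow_le_pow_right₀ hm1 hk) (by positivity) (by linarith)
  have hCm1 := hpow C₁ D₁ (by linarith) (by linarith) (by omega)
  have hCm2 := hpow C₂ D₂ (by linarith) (by linarith) (by omega)
  have h6m := hpow 6 2 (by norm_num) (by linarith) (by omega)
  set N : ℝ := (Q.card : ℝ) with hN
  have hm2 : (1 : ℝ) ≤ ((m : ℝ) + 1) ^ 2 := one_le_pow₀ hm1
  have hN1 : 1 ≤ N := by nlinarith
  have hN0 : 0 < N := by linarith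
  have hcardpos : 0 < Q.card := by
    have : (0 : ℝ) < Q.card := hN0
    exact_mod_cast this
  have h2m : 2 * m ^ 2 ≤ Q.card := by
    have h1 : (2 : ℝ) * (m : ℝ) ^ 2 ≤ Q.card := by nlinarith
    exact_mod_cast h1
  set e : ℝ := ((m : ℝ) + 1) * N ^ (-(1 / 40) : ℝ) with he
  have he0 : 0 ≤ e := by positivity
  have h3 := hA m y Q hQ hyQ hCm1
  obtain ⟨h4, h5⟩ := hW m y Q hQ hyQ hCm2
  rw [← hN] at h3 h4 h5
  have hCe : C₁ * ((m : ℝ) + 1) * N ^ (-(1 / 40) : ℝ) = C₁ * e := by rw [he]; ring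
  have hCe2 : C₂ * ((m : ℝ) + 1) * N ^ (-(1 / 40) : ℝ) = C₂ * e := by rw [he]; ring
  rw [hCe] at h3
  rw [hCe2] at h4 h5
  -- the size of `t = m² / N`
  set t : ℝ := (m : ℝ) ^ 2 / N with ht
  have ht0 : 0 ≤ t := by positivity
  have ht2 : t ≤ 1 / 6 := by
    rw [ht, div_le_iff₀ hN0]
    nlinarith
  have hte : t ≤ e := by
    have h1 : (m : ℝ) + 1 ≤ N ^ (1 / 2 : ℝ) := by
      rw [← Real.sqrt_eq_rpow]
      refine Real.le_sqrt_of_sq_le ?_
      nlinarith
    have h2 : t ≤ ((m : ℝ) + 1) * (N ^ (1 / 2 : ℝ) * N⁻¹) := by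
      rw [ht, div_eq_mul_inv]
      have h4 : (m : ℝ) ^ 2 ≤ ((m : ℝ) + 1) * N ^ (1 / 2 : ℝ) := by
        have h5 : (m : ℝ) * m ≤ ((m : ℝ) + 1) * N ^ (1 / 2 : ℝ) :=
          mul_le_mul (by linarith) (by linarith) (Nat.cast_nonneg m) (by linarith)
        rw [sq]
        exact h5
      calc (m : ℝ) ^ 2 * N⁻¹ ≤ (((m : ℝ) + 1) * N ^ (1 / 2 : ℝ)) * N⁻¹ :=
            mul_le_mul_of_nonneg_right h4 (by positivity)
        _ = _ := by ring
    refine h2.trans ?_
    rw [he]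
    refine mul_le_mul_of_nonneg_left ?_ (by linarith)
    rw [← Real.rpow_neg_one N, ← Real.rpow_add hN0]
    exact Real.rpow_le_rpow_of_exponent_le hN1 (by norm_num)
  have hpc := pow_choose Q.card m h2m hcardpos
  rw [← hN, ← ht] at hpc
  set B : ℝ := (Q.card.choose m : ℝ) with hB
  have hB0 : 0 ≤ B := Nat.cast_nonneg _
  have hfac : (0 : ℝ) < m.factorial := by exact_mod_cast m.factorial_pos
  set Z : ℝ := (m.factorial : ℝ) * B with hZ
  have hZ0 : 0 ≤ Z := by positivity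
  have hNm : N ^ m ≤ Z * (1 + 2 * t) := by
    have h1 : 1 ≤ (1 - t) * (1 + 2 * t) := by nlinarith
    have h2 : 0 ≤ N ^ m := by positivity
    calc N ^ m = N ^ m * 1 := (mul_one _).symm
      _ ≤ N ^ m * ((1 - t) * (1 + 2 * t)) := mul_le_mul_of_nonneg_left h1 h2
      _ = (N ^ m * (1 - t)) * (1 + 2 * t) := by ring
      _ ≤ _ := mul_le_mul_of_nonneg_right hpc (by linarith)
  set P : Finset (Fin m → ℕ) := (PQ (Fin m) Q).filter Function.Injective with hP
  have hPc : (P.card : ℝ) ≤ N ^ m := by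
    have h1 : (P.card : ℝ) ≤ ((PQ (Fin m) Q).card : ℝ) := by
      exact_mod_cast card_le_card (filter_subset _ _)
    refine h1.trans (le_of_eq ?_)
    rw [card_PQ, Fintype.card_fin]
  have hPm : ∀ x ∈ P, Function.Injective x ∧ (∀ i, (x i).Prime) ∧ ∀ i, x i % 8 = 3 := by
    intro x hx
    obtain ⟨h1, h2⟩ := mem_filter.1 hx
    exact ⟨h2, fun i => (hQ _ (Fintype.mem_piFinset.1 h1 i)).1,
      fun i => (hQ _ (Fintype.mem_piFinset.1 h1 i)).2.1⟩
  have hsub := subsets_le Q m F hF0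
  have hsub1 := subsets_le Q m (fun _ => 1) (fun _ => zero_le_one)
  rw [sum_const, card_powersetCard, nsmul_eq_mul, mul_one, sum_const, nsmul_eq_mul,
    mul_one] at hsub1
  -- the sum over the tuples
  have h6 : ∑ x ∈ P, F (univ.image x) ≤ α * P.card + β * ∑ x ∈ P, ((SS x).card : ℝ) +
      γ * ∑ x ∈ P, WW x := by
    calc ∑ x ∈ P, F (univ.image x) ≤ ∑ x ∈ P, (α + β * ((SS x).card : ℝ) + γ * WW x) :=
          sum_le_sum fun x hx => by
            obtain ⟨a1, a2, a3⟩ := hPm x hx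
            exact hF m x a1 a2 a3
      _ = _ := by
          rw [sum_add_distrib, sum_add_distrib, sum_const, nsmul_eq_mul, ← mul_sum, ← mul_sum]
          ring
  -- the three terms
  have t1 : α * P.card ≤ (α + 2 * |α| * t) * Z := by
    have h7 : α * P.card = α * Z + α * (P.card - Z) := by ring
    have h8 : 0 ≤ (P.card : ℝ) - Z := by
      have : Z ≤ P.card := hsub1
      linarith
    have h9 : (P.card : ℝ) - Z ≤ 2 * t * Z := by nlinarith
    have h10 : α * (P.card - Z) ≤ |α| * (2 * t * Z) :=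
      (mul_le_mul_of_nonneg_right (le_abs_self α) h8).trans
        (mul_le_mul_of_nonneg_left h9 (abs_nonneg α))
    rw [h7]
    calc _ ≤ α * Z + |α| * (2 * t * Z) := by linarith
      _ = _ := by ring
  have t2 : β * ∑ x ∈ P, ((SS x).card : ℝ) ≤ β * ((3 + (2 * C₁ + 6) * e) * Z) := by
    refine mul_le_mul_of_nonneg_left ?_ hβ
    calc _ ≤ (3 + C₁ * e) * N ^ m := h3
      _ ≤ (3 + C₁ * e) * (Z * (1 + 2 * t)) := mul_le_mul_of_nonneg_left hNm (by positivity)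
      _ = ((3 + C₁ * e) * (1 + 2 * t)) * Z := by ring
      _ ≤ _ := by
          refine mul_le_mul_of_nonneg_right ?_ hZ0
          have h7 : 0 ≤ C₁ * e := by positivity
          have h8 : C₁ * e * t ≤ C₁ * e * (1 / 6) := mul_le_mul_of_nonneg_left ht2 h7
          nlinarith
  set c : ℝ := 4 / 2 ^ (2 * ((m + 1) / 2)) with hc
  have hc0 : 0 ≤ c := by positivity
  have hc4 : c ≤ 4 := by
    rw [hc]
    exact div_le_self (by norm_num) (one_le_pow₀ (by norm_num))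
  have t3 : γ * ∑ x ∈ P, WW x ≤ (max γ 0 * c + |γ| * ((2 * C₂ + 8) * e)) * Z := by
    have hg0 : 0 ≤ max γ 0 := le_max_right _ _
    have hgm : max γ 0 ≤ |γ| := max_le (le_abs_self γ) (abs_nonneg γ)
    have h7 : γ * ∑ x ∈ P, WW x ≤ (max γ 0 * c + |γ| * (C₂ * e)) * N ^ m := by
      rcases le_total 0 γ with hg | hg
      · rw [max_eq_left hg, abs_of_nonneg hg]
        calc γ * ∑ x ∈ P, WW x ≤ γ * ((c + C₂ * e) * N ^ m) := mul_le_mul_of_nonneg_left h5 hg
          _ = _ := by ring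
      · rw [max_eq_right hg, abs_of_nonpos hg]
        have h8 := mul_le_mul_of_nonpos_left h4 hg
        refine h8.trans (le_of_eq ?_)
        ring
    refine h7.trans ?_
    calc (max γ 0 * c + |γ| * (C₂ * e)) * N ^ m ≤
          (max γ 0 * c + |γ| * (C₂ * e)) * (Z * (1 + 2 * t)) :=
          mul_le_mul_of_nonneg_left hNm (by positivity)
      _ = ((max γ 0 * c + |γ| * (C₂ * e)) * (1 + 2 * t)) * Z := by ring
      _ ≤ _ := by
          refine mul_le_mul_of_nonneg_right ?_ hZ0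
          have a1 : 0 ≤ |γ| * (C₂ * e) := by positivity
          have a2 : |γ| * (C₂ * e) * t ≤ |γ| * (C₂ * e) * (1 / 6) :=
            mul_le_mul_of_nonneg_left ht2 a1
          have a3 : max γ 0 * c ≤ |γ| * 4 := mul_le_mul hgm hc4 hc0 (abs_nonneg γ)
          have a4 : max γ 0 * c * t ≤ |γ| * 4 * e :=
            mul_le_mul a3 hte ht0 (by positivity)
          nlinarith
  have h7 : (m.factorial : ℝ) * ∑ T ∈ Q.powersetCard m, F T ≤ (m.factorial : ℝ) *
      ((α + 3 * β + max γ 0 * c + (2 * C₁ + 2 * C₂ + 8) * (|α| + β + |γ|) * e) * B) := by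
    have h8 : (m.factorial : ℝ) * ∑ T ∈ Q.powersetCard m, F T ≤
        (α + 2 * |α| * t) * Z + β * ((3 + (2 * C₁ + 6) * e) * Z) +
          (max γ 0 * c + |γ| * ((2 * C₂ + 8) * e)) * Z := by linarith
    refine h8.trans ?_
    have h9 : (α + 2 * |α| * t) * Z + β * ((3 + (2 * C₁ + 6) * e) * Z) +
          (max γ 0 * c + |γ| * ((2 * C₂ + 8) * e)) * Z =
        (α + 3 * β + max γ 0 * c + (2 * |α| * t + β * ((2 * C₁ + 6) * e) +
          |γ| * ((2 * C₂ + 8) * e))) * Z := by ring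
    rw [h9]
    have h10 : 2 * |α| * t + β * ((2 * C₁ + 6) * e) + |γ| * ((2 * C₂ + 8) * e) ≤
        (2 * C₁ + 2 * C₂ + 8) * (|α| + β + |γ|) * e := by
      have b1 : 2 * |α| * t ≤ |α| * ((2 * C₁ + 2 * C₂ + 8) * e) := by
        have b0 : 2 * t ≤ (2 * C₁ + 2 * C₂ + 8) * e := by nlinarith
        calc 2 * |α| * t = |α| * (2 * t) := by ring
          _ ≤ _ := mul_le_mul_of_nonneg_left b0 (abs_nonneg α)
      have b2 : β * ((2 * C₁ + 6) * e) ≤ β * ((2 * C₁ + 2 * C₂ + 8) * e) :=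
        mul_le_mul_of_nonneg_left (mul_le_mul_of_nonneg_right (by linarith) he0) hβ
      have b3 : |γ| * ((2 * C₂ + 8) * e) ≤ |γ| * ((2 * C₁ + 2 * C₂ + 8) * e) :=
        mul_le_mul_of_nonneg_left (mul_le_mul_of_nonneg_right (by linarith) he0) (abs_nonneg γ)
      calc _ ≤ |α| * ((2 * C₁ + 2 * C₂ + 8) * e) + β * ((2 * C₁ + 2 * C₂ + 8) * e) +
            |γ| * ((2 * C₁ + 2 * C₂ + 8) * e) := by linarith
        _ = _ := by ring
    calc _ ≤ (α + 3 * β + max γ 0 * c +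
          (2 * C₁ + 2 * C₂ + 8) * (|α| + β + |γ|) * e) * Z :=
          mul_le_mul_of_nonneg_right (by linarith) hZ0
      _ = _ := by
          rw [hZ]
          ring
  exact le_of_mul_le_mul_left h7 hfac

section

variable {j : ℕ} {x : Fin j → ℕ} (hx : Function.Injective x) (hp : ∀ i, (x i).Prime)
  (h8 : ∀ i, x i % 8 = 3)

include hx hp h8

/-- the possible values of the Gauss sum -/
lemma ww_cases : ((SS x).card = 1 ∧ WW x = 1) ∨ ((SS x).card = 4 ∧ WW x = -2) ∨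
    (∃ W : ℤ, WW x = W ∧ ((SS x).card : ℝ) = (W : ℝ) ^ 2 ∧ (4 ≤ W ∨ W ≤ -5)) := by
  obtain ⟨W, h1, h2, k, hk⟩ := ww_spec hx hp h8
  have h2r : ((SS x).card : ℝ) = (W : ℝ) ^ 2 := by exact_mod_cast h2.symm
  by_cases hb : 4 ≤ W ∨ W ≤ -5
  · exact Or.inr (Or.inr ⟨W, h1, h2r, hb⟩)
  · push Not at hb
    have h3 : W = 1 ∨ W = -2 := by omega
    rcases h3 with rfl | rfl
    · left
      refine ⟨?_, ?_⟩
      · have h4 : ((SS x).card : ℤ) = 1 := by rw [← h2]; norm_num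
        exact_mod_cast h4
      · rw [h1]; norm_num
    · right; left
      refine ⟨?_, ?_⟩
      · have h4 : ((SS x).card : ℤ) = 4 := by rw [← h2]; norm_num
        exact_mod_cast h4
      · rw [h1]; norm_num

end

/-- **the number of the subsets with a property implied by the minimality of the Selmer group** -/
theorem majority : ∃ (C : ℝ) (D : ℕ), 1 ≤ C ∧ ∀ G : Finset ℕ → Prop,
    (∀ (j : ℕ) (x : Fin j → ℕ), Function.Injective x → (∀ i, (x i).Prime) →
      (∀ i, x i % 8 = 3) → (SS x).card = 1 → G (univ.image x)) →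
    ∀ (m y : ℕ) (Q : Finset ℕ), (∀ q ∈ Q, q.Prime ∧ q % 8 = 3 ∧ q ≤ y) →
      (y : ℝ) ^ (19 / 20 : ℝ) ≤ Q.card → C * ((m : ℝ) + 1) ^ D ≤ Q.card →
      (5 / 9 - C * ((m : ℝ) + 1) * (Q.card : ℝ) ^ (-(1 / 40) : ℝ)) * (Q.card.choose m : ℝ) ≤
        ((Q.powersetCard m).filter G).card := by
  obtain ⟨C, D, hC, h⟩ := main3
  refine ⟨C, D, hC, ?_⟩
  intro G hG m y Q hQ hyQ hmQ
  have h1 := h (1 / 9) (1 / 9) (-(2 / 9)) (by norm_num) (fun T => if G T then 0 else 1)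
    (fun T => by split_ifs <;> norm_num) (fun j x hx hp h8 => by
      rcases ww_cases hx hp h8 with ⟨h1, h2⟩ | ⟨h1, h2⟩ | ⟨W, h1, h2, h3⟩
      · rw [if_pos (hG j x hx hp h8 h1), h1, h2]
        norm_num
      · rw [h1, h2]
        split_ifs <;> norm_num
      · rw [h1, h2]
        have h4 : (9 : ℝ) ≤ ((W : ℝ) - 1) ^ 2 := by
          have h5 : (9 : ℤ) ≤ (W - 1) ^ 2 := by
            rcases h3 with h3 | h3 <;> nlinarith
          exact_mod_cast h5
        split_ifs <;> nlinarith) m y Q hQ hyQ hmQ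
  have h6 : ∑ T ∈ Q.powersetCard m, (if G T then (0 : ℝ) else 1) =
      (((Q.powersetCard m).filter (fun T => ¬ G T)).card : ℝ) := by
    rw [card_filter]
    push_cast
    refine sum_congr rfl fun T _ => ?_
    split_ifs <;> rfl
  rw [h6] at h1
  have h7 : (((Q.powersetCard m).filter G).card : ℝ) +
      (((Q.powersetCard m).filter (fun T => ¬ G T)).card : ℝ) = (Q.card.choose m : ℝ) := by
    rw [← card_powersetCard m Q]
    exact_mod_cast card_filter_add_card_filter_not (s := Q.powersetCard m) G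
  have hmax : max (-(2 / 9) : ℝ) 0 = 0 := max_eq_right (by norm_num)
  have a1 : |(1 / 9 : ℝ)| = 1 / 9 := abs_of_pos (by norm_num)
  have a2 : |(-(2 / 9) : ℝ)| = 2 / 9 := by rw [abs_neg]; exact abs_of_pos (by norm_num)
  rw [hmax, a1, a2] at h1
  set e : ℝ := ((m : ℝ) + 1) * (Q.card : ℝ) ^ (-(1 / 40) : ℝ) with he
  have he0 : 0 ≤ e := by positivity
  set B : ℝ := (Q.card.choose m : ℝ) with hB
  have hB0 : 0 ≤ B := Nat.cast_nonneg _
  have h9 : C * ((m : ℝ) + 1) * (Q.card : ℝ) ^ (-(1 / 40) : ℝ) = C * e := by rw [he]; ring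
  rw [h9]
  have h10 : 0 ≤ C * e * B := by positivity
  nlinarith

/-- the rank plus the dimension of the 2-torsion of the Tate-Shafarevich group -/
noncomputable def rs (T : Finset ℕ) : ℕ := Module.finrank ℤ (ET T).toAffine.Point +
  Nat.log 2 (Nat.card {x : Sha (ET T) // x + x = 0})

section

variable {j : ℕ} {x : Fin j → ℕ} (hx : Function.Injective x) (hp : ∀ i, (x i).Prime)
  (h8 : ∀ i, x i % 8 = 3)

include hx hp h8

lemma rs_le : (2 : ℝ) ^ rs (univ.image x) ≤ ((SS x).card : ℝ) := by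
  refine le_trans ?_ (rr_le hx hp h8)
  have hT : ∀ p ∈ univ.image x, p.Prime ∧ p ≠ 2 := by
    intro p h
    obtain ⟨i, _, rfl⟩ := mem_image.1 h
    refine ⟨hp i, ?_⟩
    have := h8 i
    omega
  have hfin : Finite {z : Sha (ET (univ.image x)) // z + z = 0} := (cn_bound hT).1
  have hne : Nonempty {z : Sha (ET (univ.image x)) // z + z = 0} := ⟨⟨0, add_zero 0⟩⟩
  have h3 : Nat.card {z : Sha (ET (univ.image x)) // z + z = 0} ≠ 0 := Nat.card_pos.ne'
  unfold rs rr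
  rw [pow_add]
  refine mul_le_mul_of_nonneg_left ?_ (by positivity)
  exact_mod_cast Nat.pow_log_le_self 2 h3

lemma rs_bound : (rs (univ.image x) : ℝ) ≤ 0 + 1 / 3 * ((SS x).card : ℝ) + -(1 / 3) * WW x := by
  have h0 := rs_le hx hp h8
  set r := rs (univ.image x) with hr
  rcases ww_cases hx hp h8 with ⟨h1, h2⟩ | ⟨h1, h2⟩ | ⟨W, h1, h2, h3⟩
  · rw [h1] at h0
    have h3 : 2 ^ r ≤ 1 := by exact_mod_cast h0
    have h4 : r = 0 := by
      by_contra hne
      have := Nat.one_lt_two_pow hne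
      omega
    rw [h1, h2, h4]
    norm_num
  · rw [h1] at h0
    have h3 : 2 ^ r ≤ 2 ^ 2 := by exact_mod_cast h0
    have h4 : r ≤ 2 := (Nat.pow_le_pow_iff_right (by norm_num)).1 h3
    rw [h1, h2]
    have h5 : (r : ℝ) ≤ 2 := by exact_mod_cast h4
    norm_num
    linarith
  · rw [h2] at h0 ⊢
    rw [h1]
    have h0' : (2 : ℤ) ^ r ≤ W ^ 2 := by exact_mod_cast h0
    have h4 : 3 * (r : ℤ) ≤ W ^ 2 - W := by
      have h5 : 3 * W ^ 2 ≤ 4 * (W ^ 2 - W) := by
        rcases h3 with h3 | h3 <;> nlinarith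
      rcases le_or_gt r 4 with h6 | h6
      · have h7 : (r : ℤ) ≤ 4 := by exact_mod_cast h6
        have h8 : (12 : ℤ) ≤ W ^ 2 - W := by
          rcases h3 with h3 | h3 <;> nlinarith
        linarith
      · have h7 : ∀ n : ℕ, 4 < n → 4 * n ≤ 2 ^ n := by
          intro n hn
          induction n with
          | zero => omega
          | succ n ih =>
            rcases Nat.lt_or_ge 4 n with h9 | h9
            · have := ih h9
              rw [pow_succ]
              omega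
            · have : n = 4 := by omega
              subst this
              norm_num
        have h8 : (4 : ℤ) * r ≤ 2 ^ r := by exact_mod_cast h7 r h6
        linarith
    have h4' : 3 * (r : ℝ) ≤ (W : ℝ) ^ 2 - W := by exact_mod_cast h4
    linarith

lemma tail_bound : (if 3 ≤ rs (univ.image x) then (1 : ℝ) else 0) ≤
    -(1 / 9) + 1 / 18 * ((SS x).card : ℝ) + 1 / 18 * WW x := by
  have h0 := rs_le hx hp h8
  set r := rs (univ.image x) with hr
  rcases ww_cases hx hp h8 with ⟨h1, h2⟩ | ⟨h1, h2⟩ | ⟨W, h1, h2, h3⟩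
  · rw [h1] at h0
    have h3 : 2 ^ r ≤ 2 ^ 2 := by
      have : 2 ^ r ≤ 1 := by exact_mod_cast h0
      omega
    have h4 : r ≤ 2 := (Nat.pow_le_pow_iff_right (by norm_num)).1 h3
    rw [if_neg (by omega), h1, h2]
    norm_num
  · rw [h1] at h0
    have h3 : 2 ^ r ≤ 2 ^ 2 := by exact_mod_cast h0
    have h4 : r ≤ 2 := (Nat.pow_le_pow_iff_right (by norm_num)).1 h3
    rw [if_neg (by omega), h1, h2]
    norm_num
  · rw [h2, h1]
    have h4 : (18 : ℝ) ≤ (W : ℝ) ^ 2 + W - 2 := by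
      have h5 : (18 : ℤ) ≤ W ^ 2 + W - 2 := by
        rcases h3 with h3 | h3 <;> nlinarith
      exact_mod_cast h5
    split_ifs <;> linarith

end

/-- **the average rank and its tail** -/
theorem avgrank : ∃ (C : ℝ) (D : ℕ), 1 ≤ C ∧
    ∀ (m y : ℕ) (Q : Finset ℕ), (∀ q ∈ Q, q.Prime ∧ q % 8 = 3 ∧ q ≤ y) →
      (y : ℝ) ^ (19 / 20 : ℝ) ≤ Q.card → C * ((m : ℝ) + 1) ^ D ≤ Q.card →
      (∑ T ∈ Q.powersetCard m, rs T : ℝ) ≤
        (1 + C * ((m : ℝ) + 1) * (Q.card : ℝ) ^ (-(1 / 40) : ℝ)) * (Q.card.choose m : ℝ) ∧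
      (((Q.powersetCard m).filter (fun T => 3 ≤ rs T)).card : ℝ) ≤
        (1 / 18 + 2 / 9 / 2 ^ (2 * ((m + 1) / 2)) +
          C * ((m : ℝ) + 1) * (Q.card : ℝ) ^ (-(1 / 40) : ℝ)) * (Q.card.choose m : ℝ) := by
  obtain ⟨C, D, hC, h⟩ := main3
  refine ⟨C, D, hC, ?_⟩
  intro m y Q hQ hyQ hmQ
  set e : ℝ := ((m : ℝ) + 1) * (Q.card : ℝ) ^ (-(1 / 40) : ℝ) with he
  have he0 : 0 ≤ e := by positivity
  set B : ℝ := (Q.card.choose m : ℝ) with hB
  have hB0 : 0 ≤ B := Nat.cast_nonneg _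
  have h9 : C * ((m : ℝ) + 1) * (Q.card : ℝ) ^ (-(1 / 40) : ℝ) = C * e := by rw [he]; ring
  have h10 : 0 ≤ C * e * B := by positivity
  rw [h9]
  constructor
  · have h1 := h 0 (1 / 3) (-(1 / 3)) (by norm_num) (fun T => (rs T : ℝ))
      (fun T => Nat.cast_nonneg _) (fun j x hx hp h8 => rs_bound hx hp h8) m y Q hQ hyQ hmQ
    have hmax : max (-(1 / 3) : ℝ) 0 = 0 := max_eq_right (by norm_num)
    have a2 : |(-(1 / 3) : ℝ)| = 1 / 3 := by rw [abs_neg]; exact abs_of_pos (by norm_num)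
    rw [hmax, abs_zero, a2, ← he, ← hB] at h1
    nlinarith
  · have h1 := h (-(1 / 9)) (1 / 18) (1 / 18) (by norm_num)
      (fun T => if 3 ≤ rs T then (1 : ℝ) else 0)
      (fun T => by split_ifs <;> norm_num) (fun j x hx hp h8 => tail_bound hx hp h8)
      m y Q hQ hyQ hmQ
    have h6 : ∑ T ∈ Q.powersetCard m, (if 3 ≤ rs T then (1 : ℝ) else 0) =
        (((Q.powersetCard m).filter (fun T => 3 ≤ rs T)).card : ℝ) := by
      rw [card_filter]
      push_cast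
      rfl
    have hmax : max (1 / 18 : ℝ) 0 = 1 / 18 := max_eq_left (by norm_num)
    have a2 : |(1 / 18 : ℝ)| = 1 / 18 := abs_of_pos (by norm_num)
    have a3 : |(-(1 / 9) : ℝ)| = 1 / 9 := by rw [abs_neg]; exact abs_of_pos (by norm_num)
    rw [h6, hmax, a2, a3, ← he, ← hB] at h1
    have e1 : (1 / 18 : ℝ) * (4 / 2 ^ (2 * ((m + 1) / 2))) = 2 / 9 / 2 ^ (2 * ((m + 1) / 2)) := by
      ring
    rw [e1] at h1
    set c : ℝ := 2 / 9 / 2 ^ (2 * ((m + 1) / 2)) with hc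
    nlinarith

end Pool.Agent.TH715.CN
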