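import Mathlib
import Pool.Agent.TH715.CN.Fin5

/-!
# Rank zero for the majority of the twists
-/

set_option autoImplicit false

namespace Pool.Agent.TH715.CN

open Finset

open scoped Classical

/-- **rank zero for at least five ninths of the twists** -/
theorem main9 : ∃ (C : ℝ) (D : ℕ), 1 ≤ C ∧
    ∀ (m y : ℕ) (Q : Finset ℕ), (∀ q ∈ Q, q.Prime ∧ q % 8 = 3 ∧ q ≤ y) →
      (y : ℝ) ^ (19 / 20 : ℝ) ≤ Q.card → C * ((m : ℝ) + 1) ^ D ≤ Q.card →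
      ∑ T ∈ Q.powersetCard m, rr T ≤
        (3 + C * ((m : ℝ) + 1) * (Q.card : ℝ) ^ (-(1 / 40) : ℝ)) * (Q.card.choose m : ℝ) ∧
      (5 / 9 - C * ((m : ℝ) + 1) * (Q.card : ℝ) ^ (-(1 / 40) : ℝ)) * (Q.card.choose m : ℝ) ≤
        ((Q.powersetCard m).filter Good).card := by
  obtain ⟨C₁, D₁, hC₁, h₁⟩ := main
  obtain ⟨C₂, D₂, hC₂, h₂⟩ := majority
  refine ⟨C₁ + C₂, D₁ + D₂, by linarith, ?_⟩
  intro m y Q hQ hyQ hmQ
  have hm1 : (1 : ℝ) ≤ (m : ℝ) + 1 := by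
    have : (0 : ℝ) ≤ m := Nat.cast_nonneg m
    linarith
  have hpow : ∀ (c : ℝ) (k : ℕ), 0 ≤ c → c ≤ C₁ + C₂ → k ≤ D₁ + D₂ →
      c * ((m : ℝ) + 1) ^ k ≤ Q.card := by
    intro c k hc0 hc hk
    refine le_trans ?_ hmQ
    exact mul_le_mul hc (pow_le_pow_right₀ hm1 hk) (by positivity) (by linarith)
  have h3 := h₁ m y Q hQ hyQ (hpow C₁ D₁ (by linarith) (by linarith) (by omega))
  have h4 := h₂ Good (fun j x hx hp h8 h => good_of hx hp h8 h) m y Q hQ hyQ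
    (hpow C₂ D₂ (by linarith) (by linarith) (by omega))
  set e : ℝ := (Q.card : ℝ) ^ (-(1 / 40) : ℝ) with he
  have he0 : 0 ≤ e := by positivity
  have hB0 : (0 : ℝ) ≤ Q.card.choose m := Nat.cast_nonneg _
  have h5 : 0 ≤ ((m : ℝ) + 1) * e := by positivity
  refine ⟨h3.1.trans (mul_le_mul_of_nonneg_right ?_ hB0),
    (mul_le_mul_of_nonneg_right ?_ hB0).trans h4⟩
  · nlinarith
  · nlinarith

end Pool.Agent.TH715.CN
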