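import Mathlib
import Pool.Agent.TH841.LS.Loca0

/-!
# The 2-isogeny descent for `y² = x³ - D² x`: local solvability

The lemma `padic_sq2` is the one of `Pool/Agent/TH841/LS/Lin.lean`.
-/

set_option autoImplicit false

namespace Pool.Agent.TH715.CN.ISO

open Polynomial

/-- the quartic `N² = b₁ M⁴ + a M² e² + (b / b₁) e⁴` has a solution in `K`, `(M, e) ≠ (0, 0)` -/
def Qu (K : Type) [Field K] (a b b₁ : ℤ) : Prop := ∃ N M e : K, (M ≠ 0 ∨ e ≠ 0) ∧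
  N ^ 2 = (b₁ : K) * M ^ 4 + (a : K) * M ^ 2 * e ^ 2 + ((b / b₁ : ℤ) : K) * e ^ 4

/-- the squarefree divisors `b₁` of `b` for which the quartic is everywhere locally solvable -/
def SQ (a b : ℤ) : Set ℤ := {b₁ | Squarefree b₁ ∧ b₁ ∣ b ∧ Qu ℝ a b b₁ ∧
  ∀ (p : ℕ) [Fact p.Prime], Qu ℚ_[p] a b b₁}

section alg

variable {K : Type} [Field K]

lemma q_sq (b b₁ : ℤ) (h : IsSquare ((b₁ : ℤ) : K)) : Qu K 0 b b₁ := by
  obtain ⟨s, hs⟩ := h
  exact ⟨s, 1, 0, Or.inl one_ne_zero, by rw [hs]; push_cast; ring⟩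

variable [CharZero K] {D b₁ : ℤ}

lemma q_neg (hb : b₁ ∣ -D ^ 2) (h0 : b₁ ≠ 0) (h : IsSquare ((-b₁ : ℤ) : K)) :
    Qu K 0 (-D ^ 2) b₁ := by
  obtain ⟨s, hs⟩ := h
  obtain ⟨c, hc⟩ := hb
  have hdiv : -D ^ 2 / b₁ = c := by
    rw [hc]
    exact Int.mul_ediv_cancel_left c h0
  have hb0 : (b₁ : K) ≠ 0 := by exact_mod_cast h0
  have hs0 : s ≠ 0 := by
    rintro rfl
    push_cast at hs
    rw [mul_zero, neg_eq_zero] at hs
    exact hb0 hs
  have hc' : -(D : K) ^ 2 = b₁ * c := by exact_mod_cast congrArg (Int.cast : ℤ → K) hc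
  push_cast at hs
  refine ⟨D / s, 0, 1, Or.inr one_ne_zero, ?_⟩
  rw [hdiv, div_pow, div_eq_iff (pow_ne_zero 2 hs0)]
  linear_combination (-1) * hc' + (c : K) * hs

lemma q_mid (hb : b₁ ∣ -D ^ 2) (h0 : b₁ ≠ 0)
    (h : IsSquare ((D * b₁ : ℤ) : K) ∨ IsSquare ((-(D * b₁) : ℤ) : K)) : Qu K 0 (-D ^ 2) b₁ := by
  obtain ⟨c, hc⟩ := hb
  have hdiv : -D ^ 2 / b₁ = c := by
    rw [hc]
    exact Int.mul_ediv_cancel_left c h0
  have hb0 : (b₁ : K) ≠ 0 := by exact_mod_cast h0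
  have hc' : -(D : K) ^ 2 = b₁ * c := by exact_mod_cast congrArg (Int.cast : ℤ → K) hc
  have key : ∃ s : K, s ^ 4 = (D : K) ^ 2 * b₁ ^ 2 := by
    rcases h with ⟨s, hs⟩ | ⟨s, hs⟩
    · refine ⟨s, ?_⟩
      push_cast at hs
      linear_combination (-(D : K) * b₁ - s * s) * hs
    · refine ⟨s, ?_⟩
      push_cast at hs
      linear_combination ((D : K) * b₁ - s * s) * hs
  obtain ⟨s, hs⟩ := key
  have hc2 : (c : K) = -(D : K) ^ 2 / b₁ := by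
    rw [eq_div_iff hb0]
    linear_combination (-1) * hc'
  refine ⟨0, s / b₁, 1, Or.inr one_ne_zero, ?_⟩
  rw [hdiv, div_pow, hs, hc2]
  have h5 : (b₁ : K) * ((D : K) ^ 2 * (b₁ : K) ^ 2 / (b₁ : K) ^ 4) = (D : K) ^ 2 / b₁ := by
    rw [mul_div_assoc', div_eq_div_iff (pow_ne_zero 4 hb0) hb0]
    ring
  rw [h5]
  push_cast
  ring

end alg

/-! ### odd primes -/

section odd

variable {p : ℕ} [hp : Fact p.Prime]

lemma q_good {D b₁ : ℤ} (h2D : ¬ (p : ℤ) ∣ 2 * D) (hb : b₁ ∣ -D ^ 2) :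
    Qu ℚ_[p] 0 (-D ^ 2) b₁ := by
  have hpp : Prime (p : ℤ) := Nat.prime_iff_prime_int.1 hp.out
  have hpD : ¬ (p : ℤ) ∣ D := fun h => h2D (h.mul_left 2)
  have hD0 : D ≠ 0 := by
    rintro rfl
    exact hpD (dvd_zero _)
  have h0 : b₁ ≠ 0 := by
    rintro rfl
    have := zero_dvd_iff.1 hb
    exact hD0 (by simpa using this)
  have h2 : p ≠ 2 := by
    rintro rfl
    exact h2D (dvd_mul_right _ _)
  have hpb : ¬ (p : ℤ) ∣ b₁ := fun h => by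
    have h3 := h.trans hb
    rw [dvd_neg] at h3
    exact hpD (hpp.dvd_of_dvd_pow h3)
  obtain ⟨X, Y, r, hX, hY, hr⟩ := Pool.Agent.TH841.LS.LOCA0.aux p D (-D) b₁ h2 hD0
    (neg_ne_zero.2 hD0) (by
      have : D - -D = 2 * D := by ring
      rw [this]
      exact h2D) hpb
  obtain ⟨c, hc⟩ := hb
  have hdiv : -D ^ 2 / b₁ = c := by
    rw [hc]
    exact Int.mul_ediv_cancel_left c h0
  have hb0 : (b₁ : ℚ_[p]) ≠ 0 := by exact_mod_cast h0
  have hc' : -(D : ℚ_[p]) ^ 2 = b₁ * c := by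
    exact_mod_cast congrArg (Int.cast : ℤ → ℚ_[p]) hc
  have hr0 : r ≠ 0 := by
    rintro rfl
    apply hX
    rw [hr]
    ring
  refine ⟨Y / (b₁ * r), r, 1, Or.inl hr0, ?_⟩
  rw [hdiv, div_pow, div_eq_iff (pow_ne_zero 2 (mul_ne_zero hb0 hr0)), hY, hr]
  push_cast
  linear_combination (b₁ : ℚ_[p]) * r ^ 2 * hc'

lemma chi_neg (h4 : p % 4 = 3) (x : ZMod p) (hx : x ≠ 0) :
    quadraticChar (ZMod p) x = 1 ∨ quadraticChar (ZMod p) (-x) = 1 := by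
  rcases quadraticChar_dichotomy hx with h | h
  · exact Or.inl h
  · right
    have h1 : quadraticChar (ZMod p) (-1) = -1 := by
      have h2 : p ≠ 2 := by
        rintro rfl
        omega
      have h3 := legendreSym.at_neg_one (p := p) h2
      rw [ZMod.χ₄_nat_three_mod_four h4] at h3
      unfold legendreSym at h3
      push_cast at h3
      exact h3
    rw [neg_eq_neg_one_mul, map_mul, h1, h]
    norm_num

lemma sq_or_neg (h4 : p % 4 = 3) {z : ℤ} (hz : ¬ (p : ℤ) ∣ z) :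
    IsSquare ((z : ℤ) : ℚ_[p]) ∨ IsSquare ((-z : ℤ) : ℚ_[p]) := by
  have h2 : p ≠ 2 := by
    rintro rfl
    omega
  have hz0 : ((z : ℤ) : ZMod p) ≠ 0 := fun h => hz ((ZMod.intCast_zmod_eq_zero_iff_dvd z p).1 h)
  have key : ∀ w : ℤ, quadraticChar (ZMod p) ((w : ℤ) : ZMod p) = 1 →
      IsSquare ((w : ℤ) : ℚ_[p]) := by
    intro w hw
    obtain ⟨v, hv⟩ := Pool.Agent.TH841.LS.LOCA0.sq_of_char h2 (u := (w : ℤ_[p])) (by
      rw [map_intCast]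
      exact hw)
    refine ⟨v, ?_⟩
    have h5 : (((w : ℤ) : ℤ_[p]) : ℚ_[p]) = ((v * v : ℤ_[p]) : ℚ_[p]) := by rw [hv]
    rw [PadicInt.coe_mul] at h5
    exact_mod_cast h5
  rcases chi_neg h4 _ hz0 with h | h
  · exact Or.inl (key z h)
  · right
    apply key
    push_cast
    exact h

lemma q_bad {D b₁ : ℤ} (h4 : p % 4 = 3) (hpD : (p : ℤ) ∣ D) (hD : Squarefree D)
    (hs : Squarefree b₁) (hb : b₁ ∣ -D ^ 2) : Qu ℚ_[p] 0 (-D ^ 2) b₁ := by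
  have hpp : Prime (p : ℤ) := Nat.prime_iff_prime_int.1 hp.out
  have hnot : ∀ x y : ℤ, Squarefree x → x = p * y → ¬ (p : ℤ) ∣ y := by
    rintro x y hx rfl ⟨z, rfl⟩
    have := hx (p : ℤ) ⟨z, by ring⟩
    exact hpp.not_isUnit this
  by_cases hpb : (p : ℤ) ∣ b₁
  · obtain ⟨D', hD'⟩ := hpD
    obtain ⟨b', hb'⟩ := hpb
    have h5 : ¬ (p : ℤ) ∣ D' * b' := fun h => by
      rcases hpp.dvd_or_dvd h with h | h
      · exact hnot D D' hD hD' h
      · exact hnot b₁ b' hs hb' h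
    have h6 : D * b₁ = D' * b' * (p * p) := by
      rw [hD', hb']
      ring
    apply q_mid hb hs.ne_zero
    rcases sq_or_neg h4 h5 with ⟨s, hs'⟩ | ⟨s, hs'⟩
    · left
      refine ⟨s * p, ?_⟩
      rw [h6]
      push_cast at hs' ⊢
      linear_combination ((p : ℚ_[p]) * p) * hs'
    · right
      refine ⟨s * p, ?_⟩
      rw [h6]
      push_cast at hs' ⊢
      linear_combination ((p : ℚ_[p]) * p) * hs'
  · rcases sq_or_neg h4 hpb with h | h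
    · exact q_sq _ _ h
    · exact q_neg hb hs.ne_zero h

end odd

/-! ### the prime 2 and the real numbers -/

lemma padic_sq2 {n : ℤ} (hn : n % 8 = 1) : IsSquare (n : ℚ_[2]) := by
  have e1 : ∀ w : ℤ_[2], (aeval w) (X ^ 2 - C (n : ℤ_[2]) : ℤ_[2][X]) = w ^ 2 - n := by
    intro w; simp
  have e2 : ∀ w : ℤ_[2], (aeval w) (derivative (X ^ 2 - C (n : ℤ_[2]) : ℤ_[2][X])) = 2 * w := by
    intro w; simp; norm_num
  obtain ⟨z, hz, -⟩ := hensels_lemma (p := 2) (R := ℤ_[2]) (F := X ^ 2 - C (n : ℤ_[2]))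
    (a := 1) (by
      rw [e1, e2]
      have h4 : ‖(2 : ℤ_[2])‖ = 2⁻¹ := by
        have := PadicInt.norm_p (p := 2)
        exact_mod_cast this
      have h3 : ‖((1 - n : ℤ) : ℤ_[2])‖ ≤ ((2 : ℕ) : ℝ) ^ (-(3 : ℕ) : ℤ) := by
        rw [PadicInt.norm_int_le_pow_iff_dvd]
        push_cast
        omega
      push_cast at h3
      rw [one_pow, mul_one, h4]
      refine lt_of_le_of_lt h3 ?_
      norm_num)
  rw [e1] at hz
  have h6 := congrArg (fun w : ℤ_[2] => (w : ℚ_[2])) (sub_eq_zero.1 hz)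
  push_cast at h6
  exact ⟨z, by rw [← h6]; ring⟩

lemma q_two {D b₁ : ℤ} (hb : b₁ ∣ -D ^ 2) (h0 : b₁ ≠ 0)
    (h : b₁ % 8 = 1 ∨ b₁ % 8 = 7 ∨ ((b₁ % 8 = 3 ∨ b₁ % 8 = 5) ∧ D % 8 = 3)) :
    Qu ℚ_[2] 0 (-D ^ 2) b₁ := by
  rcases h with h | h | ⟨h | h, hD⟩
  · exact q_sq _ _ (padic_sq2 h)
  · exact q_neg hb h0 (padic_sq2 (by omega))
  · apply q_mid hb h0
    left
    apply padic_sq2
    rw [Int.mul_emod, h, hD]
    norm_num
  · apply q_mid hb h0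
    right
    apply padic_sq2
    have : (D * b₁) % 8 = 7 := by
      rw [Int.mul_emod, h, hD]
      norm_num
    omega

lemma q_real {D b₁ : ℤ} (hb : b₁ ∣ -D ^ 2) (h0 : b₁ ≠ 0) : Qu ℝ 0 (-D ^ 2) b₁ := by
  have key : ∀ z : ℤ, 0 ≤ z → IsSquare ((z : ℤ) : ℝ) := fun z hz => by
    refine ⟨Real.sqrt z, ?_⟩
    rw [Real.mul_self_sqrt]
    exact_mod_cast hz
  rcases lt_or_gt_of_ne h0 with h | h
  · exact q_neg hb h0 (key _ (by omega))
  · exact q_sq _ _ (key _ h.le)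

/-- all the quartics with `b₁ ∣ D` are everywhere locally solvable, apart from `ℚ₂` -/
lemma mem_SQ {D b₁ : ℤ} (hD : Squarefree D)
    (hD4 : ∀ q : ℕ, q.Prime → (q : ℤ) ∣ D → q % 4 = 3) (hb : b₁ ∣ D)
    (h8 : b₁ % 8 = 1 ∨ b₁ % 8 = 7 ∨ ((b₁ % 8 = 3 ∨ b₁ % 8 = 5) ∧ D % 8 = 3)) :
    b₁ ∈ SQ 0 (-D ^ 2) := by
  have hs : Squarefree b₁ := hD.squarefree_of_dvd hb
  have hb' : b₁ ∣ -D ^ 2 := (hb.trans (dvd_pow_self D two_ne_zero)).neg_right
  refine ⟨hs, hb', q_real hb' hs.ne_zero, fun p hp => ?_⟩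
  by_cases h2 : p = 2
  · subst h2
    have e : hp = ⟨Nat.prime_two⟩ := Subsingleton.elim _ _
    exact q_two hb' hs.ne_zero h8
  · by_cases hpD : (p : ℤ) ∣ D
    · exact q_bad (hD4 p hp.out hpD) hpD hD hs hb'
    · apply q_good _ hb'
      intro h
      rcases (Nat.prime_iff_prime_int.1 hp.out).dvd_or_dvd h with h3 | h3
      · have h4 : p ∣ 2 := by exact_mod_cast h3
        exact h2 ((Nat.prime_dvd_prime_iff_eq hp.out Nat.prime_two).1 h4)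
      · exact hpD h3

end Pool.Agent.TH715.CN.ISO
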