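import Mathlib
import Pool.Agent.TH715.CN.Iso

/-!
# The 2-isogeny descent for `y² = x³ - D² x`: the quartics without local points
-/

set_option autoImplicit false

namespace Pool.Agent.TH715.CN.ISO

/-! ### the prime 2 -/

lemma red16 (α β : ℤ) (n t : ℚ_[2]) (ht : ‖t‖ ≤ 1) (h : n ^ 2 = (α : ℚ_[2]) * t ^ 4 + β) :
    ∃ n' t' : ZMod 16, n' ^ 2 = (α : ZMod 16) * t' ^ 4 + β := by
  have h1 : ‖n‖ ^ 2 ≤ 1 := by
    rw [← norm_pow, h]
    refine (Padic.nonarchimedean _ _).trans (max_le ?_ (Padic.norm_int_le_one β))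
    rw [norm_mul, norm_pow]
    exact mul_le_one₀ (Padic.norm_int_le_one α) (by positivity) (pow_le_one₀ (norm_nonneg _) ht)
  have h2 : ‖n‖ ≤ 1 := by
    by_contra h3
    push Not at h3
    nlinarith
  obtain ⟨n', hn'⟩ : ∃ n' : ℤ_[2], (n' : ℚ_[2]) = n := ⟨⟨n, h2⟩, rfl⟩
  obtain ⟨t', ht'⟩ : ∃ t' : ℤ_[2], (t' : ℚ_[2]) = t := ⟨⟨t, ht⟩, rfl⟩
  refine ⟨PadicInt.toZModPow 4 n', PadicInt.toZModPow 4 t', ?_⟩
  have h4 : n' ^ 2 = (α : ℤ_[2]) * t' ^ 4 + (β : ℤ_[2]) := by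
    apply Subtype.ext
    push_cast
    rw [hn', ht']
    exact h
  have h5 := congrArg (PadicInt.toZModPow (p := 2) 4) h4
  rw [map_add, map_mul, map_pow, map_pow, map_intCast, map_intCast] at h5
  exact h5

lemma dec1 : ∀ b c : ZMod 16, (b = 3 ∨ b = 5 ∨ b = 11 ∨ b = 13) → b * c = -1 →
    (b = 3 ∧ c = 5) ∨ (b = 5 ∧ c = 3) ∨ (b = 11 ∧ c = 13) ∨ (b = 13 ∧ c = 11) := by
  decide

lemma dec2 : ∀ n t : ZMod 16, n ^ 2 ≠ 3 * t ^ 4 + 5 ∧ n ^ 2 ≠ 5 * t ^ 4 + 3 ∧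
    n ^ 2 ≠ 11 * t ^ 4 + 13 ∧ n ^ 2 ≠ 13 * t ^ 4 + 11 := by
  decide

lemma no_two {D b₁ : ℤ} (hD : D % 8 = 1) (hb : b₁ ∣ -D ^ 2) (h : b₁ % 8 = 3 ∨ b₁ % 8 = 5) :
    ¬ Qu ℚ_[2] 0 (-D ^ 2) b₁ := by
  rintro ⟨N, M, e, hne, hN⟩
  obtain ⟨c, hc⟩ := hb
  have h0 : b₁ ≠ 0 := by omega
  have hdiv : -D ^ 2 / b₁ = c := by
    rw [hc]
    exact Int.mul_ediv_cancel_left c h0
  rw [hdiv] at hN
  have hN' : N ^ 2 = (b₁ : ℚ_[2]) * M ^ 4 + c * e ^ 4 := by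
    rw [hN]
    push_cast
    ring
  have e1 : ((b₁ : ℤ) : ZMod 16) = 3 ∨ ((b₁ : ℤ) : ZMod 16) = 5 ∨ ((b₁ : ℤ) : ZMod 16) = 11 ∨
      ((b₁ : ℤ) : ZMod 16) = 13 := by
    have h1 : b₁ % 16 = 3 ∨ b₁ % 16 = 5 ∨ b₁ % 16 = 11 ∨ b₁ % 16 = 13 := by omega
    have h2 : ∀ z : ℤ, b₁ % 16 = z % 16 → ((b₁ : ℤ) : ZMod 16) = ((z : ℤ) : ZMod 16) := fun z hz =>
      (ZMod.intCast_eq_intCast_iff b₁ z 16).2 hz
    rcases h1 with h1 | h1 | h1 | h1
    · exact Or.inl (h2 3 (by omega))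
    · exact Or.inr (Or.inl (h2 5 (by omega)))
    · exact Or.inr (Or.inr (Or.inl (h2 11 (by omega))))
    · exact Or.inr (Or.inr (Or.inr (h2 13 (by omega))))
  have e2 : ((b₁ : ℤ) : ZMod 16) * ((c : ℤ) : ZMod 16) = -1 := by
    have h1 : ((D : ℤ) : ZMod 16) = 1 ∨ ((D : ℤ) : ZMod 16) = 9 := by
      have h2 : ∀ z : ℤ, D % 16 = z % 16 → ((D : ℤ) : ZMod 16) = ((z : ℤ) : ZMod 16) :=
        fun z hz => (ZMod.intCast_eq_intCast_iff D z 16).2 hz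
      have h3 : D % 16 = 1 ∨ D % 16 = 9 := by omega
      rcases h3 with h3 | h3
      · left
        have := h2 1 (by omega)
        exact_mod_cast this
      · exact Or.inr (h2 9 (by omega))
    have h4 : ((D : ℤ) : ZMod 16) ^ 2 = 1 := by
      rcases h1 with h1 | h1
      · rw [h1]
        decide
      · rw [h1]
        decide
    have h5 : -((D : ℤ) : ZMod 16) ^ 2 = (b₁ : ZMod 16) * c := by
      exact_mod_cast congrArg (Int.cast : ℤ → ZMod 16) hc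
    rw [← h5, h4]
  have key : ∀ n t : ZMod 16, n ^ 2 ≠ ((b₁ : ℤ) : ZMod 16) * t ^ 4 + ((c : ℤ) : ZMod 16) ∧
      n ^ 2 ≠ ((c : ℤ) : ZMod 16) * t ^ 4 + ((b₁ : ℤ) : ZMod 16) := by
    intro n t
    obtain ⟨d1, d2, d3, d4⟩ := dec2 n t
    rcases dec1 _ _ e1 e2 with ⟨h1, h2⟩ | ⟨h1, h2⟩ | ⟨h1, h2⟩ | ⟨h1, h2⟩
    · rw [h1, h2]
      exact ⟨d1, d2⟩
    · rw [h1, h2]
      exact ⟨d2, d1⟩
    · rw [h1, h2]
      exact ⟨d3, d4⟩
    · rw [h1, h2]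
      exact ⟨d4, d3⟩
  rcases le_total ‖M‖ ‖e‖ with hle | hle
  · have he : e ≠ 0 := by
      rintro rfl
      rw [norm_zero] at hle
      have : M = 0 := norm_eq_zero.1 (le_antisymm hle (norm_nonneg _))
      rcases hne with h | h
      · exact h this
      · exact h rfl
    obtain ⟨n', t', h6⟩ := red16 b₁ c (N / e ^ 2) (M / e) (by
      rw [norm_div, div_le_one (norm_pos_iff.2 he)]
      exact hle) (by
      rw [div_pow, div_pow, hN']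
      field_simp)
    exact (key n' t').1 h6
  · have he : M ≠ 0 := by
      rintro rfl
      rw [norm_zero] at hle
      have : e = 0 := norm_eq_zero.1 (le_antisymm hle (norm_nonneg _))
      rcases hne with h | h
      · exact h rfl
      · exact h this
    obtain ⟨n', t', h6⟩ := red16 c b₁ (N / M ^ 2) (e / M) (by
      rw [norm_div, div_le_one (norm_pos_iff.2 he)]
      exact hle) (by
      rw [div_pow, div_pow, hN']
      field_simp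
      ring)
    exact (key n' t').2 h6

/-! ### odd primes -/

section odd

variable {p : ℕ} [hp : Fact p.Prime]

lemma toZMod_ne {z : ℤ_[p]} (hz : PadicInt.toZMod z ≠ 0) : ‖z‖ = 1 := by
  refine le_antisymm (PadicInt.norm_le_one z) (not_lt.1 fun h => hz ?_)
  have : z ∈ RingHom.ker (PadicInt.toZMod : ℤ_[p] →+* ZMod p) := by
    rw [PadicInt.ker_toZMod, IsLocalRing.mem_maximalIdeal]
    exact PadicInt.mem_nonunits.2 h
  exact this

lemma toZMod_zero {z : ℤ_[p]} (hz : ‖z‖ < 1) : PadicInt.toZMod z = 0 := by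
  have : z ∈ RingHom.ker (PadicInt.toZMod : ℤ_[p] →+* ZMod p) := by
    rw [PadicInt.ker_toZMod, IsLocalRing.mem_maximalIdeal]
    exact PadicInt.mem_nonunits.2 hz
  exact this

lemma norm_unit {z : ℤ} (hz : ¬ (p : ℤ) ∣ z) : ‖(z : ℚ_[p])‖ = 1 := by
  refine le_antisymm (Padic.norm_int_le_one z) (not_lt.1 fun h => hz ?_)
  exact (Padic.norm_intCast_lt_one_iff (k := z)).1 h

lemma norm_once {z : ℤ} (hz : Squarefree z) (h : (p : ℤ) ∣ z) :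
    ‖(z : ℚ_[p])‖ = (p : ℝ)⁻¹ := by
  obtain ⟨y, rfl⟩ := h
  have h1 : ¬ (p : ℤ) ∣ y := by
    rintro ⟨w, rfl⟩
    have := hz (p : ℤ) ⟨w, by ring⟩
    exact (Nat.prime_iff_prime_int.1 hp.out).not_isUnit this
  push_cast
  rw [norm_mul, norm_unit h1, mul_one, Padic.norm_p]

lemma ss (h4 : p % 4 = 3) {x y : ℚ_[p]} (hx : x ≠ 0) (h : ‖y‖ ≤ ‖x‖) :
    ‖x ^ 2 + y ^ 2‖ = ‖x‖ ^ 2 := by
  have hz : ‖y / x‖ ≤ 1 := by
    rw [norm_div, div_le_one (norm_pos_iff.2 hx)]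
    exact h
  obtain ⟨z, hz'⟩ : ∃ z : ℤ_[p], (z : ℚ_[p]) = y / x := ⟨⟨y / x, hz⟩, rfl⟩
  have h1 : ‖1 + z ^ 2‖ = 1 := by
    apply toZMod_ne
    intro h2
    rw [map_add, map_one, map_pow] at h2
    refine ZMod.mod_four_ne_three_of_sq_eq_neg_one (p := p) (y := PadicInt.toZMod z) ?_ h4
    linear_combination h2
  have h2 : x ^ 2 + y ^ 2 = x ^ 2 * (1 + (y / x) ^ 2) := by
    field_simp
  rw [h2, norm_mul, norm_pow]
  have h3 : ‖(1 + (y / x) ^ 2 : ℚ_[p])‖ = 1 := by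
    rw [← h1, PadicInt.norm_def]
    push_cast
    rw [hz']
  rw [h3, mul_one]

lemma odd_ne {a b : ℚ_[p]} (ha : a ≠ 0) (hb : b ≠ 0) : (p : ℝ)⁻¹ * ‖a‖ ^ 2 ≠ ‖b‖ ^ 2 := by
  intro h
  have h1 : (1 : ℝ) < p := by exact_mod_cast hp.out.one_lt
  rw [Padic.norm_eq_zpow_neg_valuation ha, Padic.norm_eq_zpow_neg_valuation hb,
    ← zpow_natCast, ← zpow_natCast, ← zpow_mul, ← zpow_mul, ← zpow_neg_one,
    ← zpow_add₀ (by linarith)] at h
  have h2 := zpow_right_injective₀ (by linarith) (ne_of_gt h1) h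
  push_cast at h2
  omega

/-- no odd prime `q ≡ 3` mod 4 divides `b₁` -/
lemma no_dvd (h4 : p % 4 = 3) {D b₁ : ℤ} (hs : Squarefree b₁) (hD : D ≠ 0) (hb : b₁ ∣ 4 * D ^ 2)
    (h : Qu ℚ_[p] 0 (4 * D ^ 2) b₁) : ¬ (p : ℤ) ∣ b₁ := by
  intro hpb
  obtain ⟨N, M, e, hne, hN⟩ := h
  obtain ⟨c, hc⟩ := hb
  have hdiv : 4 * D ^ 2 / b₁ = c := by
    rw [hc]
    exact Int.mul_ediv_cancel_left c hs.ne_zero
  rw [hdiv] at hN
  have hb0 : (b₁ : ℚ_[p]) ≠ 0 := by exact_mod_cast hs.ne_zero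
  have hD0 : (D : ℚ_[p]) ≠ 0 := by exact_mod_cast hD
  have hc' : 4 * (D : ℚ_[p]) ^ 2 = b₁ * c := by
    exact_mod_cast congrArg (Int.cast : ℤ → ℚ_[p]) hc
  have h1 : (b₁ : ℚ_[p]) * N ^ 2 = (b₁ * M ^ 2) ^ 2 + (2 * D * e ^ 2) ^ 2 := by
    rw [hN]
    push_cast
    linear_combination (-(e ^ 4)) * hc'
  have h2 : ‖(b₁ : ℚ_[p])‖ = (p : ℝ)⁻¹ := norm_once hs hpb
  have h3 : ∃ w : ℚ_[p], w ≠ 0 ∧ ‖(b₁ : ℚ_[p]) * N ^ 2‖ = ‖w‖ ^ 2 := by
    rw [h1]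
    have hX : M ≠ 0 → (b₁ : ℚ_[p]) * M ^ 2 ≠ 0 := fun h => mul_ne_zero hb0 (pow_ne_zero 2 h)
    have hY : e ≠ 0 → 2 * (D : ℚ_[p]) * e ^ 2 ≠ 0 := fun h =>
      mul_ne_zero (mul_ne_zero two_ne_zero hD0) (pow_ne_zero 2 h)
    rcases le_total ‖2 * (D : ℚ_[p]) * e ^ 2‖ ‖(b₁ : ℚ_[p]) * M ^ 2‖ with hle | hle
    · have h5 : (b₁ : ℚ_[p]) * M ^ 2 ≠ 0 := by
        intro h0
        rw [h0, norm_zero] at hle
        have h6 : 2 * (D : ℚ_[p]) * e ^ 2 = 0 := norm_eq_zero.1 (le_antisymm hle (norm_nonneg _))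
        rcases hne with h | h
        · exact hX h h0
        · exact hY h h6
      exact ⟨_, h5, ss h4 h5 hle⟩
    · have h5 : 2 * (D : ℚ_[p]) * e ^ 2 ≠ 0 := by
        intro h0
        rw [h0, norm_zero] at hle
        have h6 : (b₁ : ℚ_[p]) * M ^ 2 = 0 := norm_eq_zero.1 (le_antisymm hle (norm_nonneg _))
        rcases hne with h | h
        · exact hX h h6
        · exact hY h h0
      refine ⟨_, h5, ?_⟩
      rw [add_comm]
      exact ss h4 h5 hle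
  obtain ⟨w, hw, h4'⟩ := h3
  rw [norm_mul, norm_pow, h2] at h4'
  have hN0 : N ≠ 0 := by
    rintro rfl
    rw [norm_zero, zero_pow two_ne_zero, mul_zero] at h4'
    exact hw (norm_eq_zero.1 (pow_eq_zero_iff two_ne_zero |>.1 h4'.symm))
  exact odd_ne hN0 hw h4'

/-- the class of 2 -/
lemma no_twice (h8 : p % 8 = 3) {D : ℤ} (hs : Squarefree D) (hpD : (p : ℤ) ∣ D) :
    ¬ Qu ℚ_[p] 0 (4 * D ^ 2) 2 := by
  rintro ⟨N, M, e, hne, hN⟩
  have h2 : p ≠ 2 := by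
    rintro rfl
    omega
  have hdiv : 4 * D ^ 2 / 2 = 2 * D ^ 2 := by
    have : 4 * D ^ 2 = 2 * (2 * D ^ 2) := by ring
    rw [this]
    exact Int.mul_ediv_cancel_left _ two_ne_zero
  rw [hdiv] at hN
  have hN' : N ^ 2 = 2 * ((M ^ 2) ^ 2 + (D * e ^ 2) ^ 2) := by
    rw [hN]
    push_cast
    ring
  have hD0 : (D : ℚ_[p]) ≠ 0 := by exact_mod_cast hs.ne_zero
  have hDn := norm_once (p := p) hs hpD
  have nonsq : ∀ u : ZMod p, 2 * 1 ≠ u ^ 2 := by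
    intro u hu
    have h3 : IsSquare (2 : ZMod p) := ⟨u, by rw [← sq, ← hu]; ring⟩
    rw [ZMod.exists_sq_eq_two_iff h2] at h3
    omega
  -- the key step
  have key : ∀ x y : ℚ_[p], x ≠ 0 → ‖y‖ < ‖x‖ → N ^ 2 ≠ 2 * (x ^ 2 + y ^ 2) := by
    intro x y hx hxy h3
    have hz : ‖y / x‖ < 1 := by
      rw [norm_div, div_lt_one (norm_pos_iff.2 hx)]
      exact hxy
    have h4 : (N / x) ^ 2 = 2 * (1 + (y / x) ^ 2) := by
      rw [div_pow, h3]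
      field_simp
    have h5 : ‖N / x‖ ^ 2 ≤ 1 := by
      rw [← norm_pow, h4, norm_mul]
      have h6 : ‖(2 : ℚ_[p])‖ ≤ 1 := by
        have := Padic.norm_int_le_one (p := p) 2
        exact_mod_cast this
      have h7 : ‖1 + (y / x) ^ 2‖ ≤ 1 := by
        refine (Padic.nonarchimedean _ _).trans (max_le (by rw [norm_one]) ?_)
        rw [norm_pow]
        exact pow_le_one₀ (norm_nonneg _) hz.le
      exact mul_le_one₀ h6 (norm_nonneg _) h7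
    have h6 : ‖N / x‖ ≤ 1 := by
      by_contra h7
      push Not at h7
      nlinarith
    obtain ⟨n, hn⟩ : ∃ n : ℤ_[p], (n : ℚ_[p]) = N / x := ⟨⟨N / x, h6⟩, rfl⟩
    obtain ⟨z, hz'⟩ : ∃ z : ℤ_[p], (z : ℚ_[p]) = y / x := ⟨⟨y / x, hz.le⟩, rfl⟩
    have h7 : n ^ 2 = 2 * (1 + z ^ 2) := by
      apply Subtype.ext
      push_cast
      rw [hn, hz']
      exact h4
    have h8 := congrArg (PadicInt.toZMod (p := p)) h7
    have h9 : PadicInt.toZMod z = 0 := toZMod_zero (by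
      rw [PadicInt.norm_def, hz']
      exact hz)
    rw [map_pow, map_mul, map_add, map_one, map_pow, h9, map_ofNat] at h8
    apply nonsq (PadicInt.toZMod n)
    rw [h8]
    ring
  rcases lt_trichotomy ‖(D : ℚ_[p]) * e ^ 2‖ ‖M ^ 2‖ with hlt | heq | hgt
  · refine key (M ^ 2) (D * e ^ 2) ?_ hlt hN'
    intro h0
    rw [h0, norm_zero] at hlt
    exact absurd hlt (not_lt.2 (norm_nonneg _))
  · rw [norm_mul, norm_pow, norm_pow, hDn] at heq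
    have he : e ≠ 0 := by
      rintro rfl
      rw [norm_zero, zero_pow two_ne_zero, mul_zero] at heq
      have : M = 0 := norm_eq_zero.1 (pow_eq_zero_iff two_ne_zero |>.1 heq.symm)
      rcases hne with h | h
      · exact h this
      · exact h rfl
    have hM : M ≠ 0 := by
      rintro rfl
      rw [norm_zero, zero_pow two_ne_zero] at heq
      have h3 : (p : ℝ)⁻¹ ≠ 0 := inv_ne_zero (by exact_mod_cast hp.out.ne_zero)
      have h4 := (mul_eq_zero.1 heq).resolve_left h3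
      exact he (norm_eq_zero.1 (pow_eq_zero_iff two_ne_zero |>.1 h4))
    exact odd_ne he hM heq
  · refine key (D * e ^ 2) (M ^ 2) ?_ hgt (by rw [hN']; ring)
    intro h0
    rw [h0, norm_zero] at hgt
    exact absurd hgt (not_lt.2 (norm_nonneg _))

end odd

lemma no_neg {D b₁ : ℤ} (hD : D ≠ 0) (hb : b₁ ∣ 4 * D ^ 2) (h0 : b₁ ≠ 0)
    (h : Qu ℝ 0 (4 * D ^ 2) b₁) : 0 < b₁ := by
  obtain ⟨N, M, e, hne, hN⟩ := h
  obtain ⟨c, hc⟩ := hb
  have hdiv : 4 * D ^ 2 / b₁ = c := by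
    rw [hc]
    exact Int.mul_ediv_cancel_left c h0
  rw [hdiv] at hN
  by_contra hlt
  have hb1 : b₁ < 0 := lt_of_le_of_ne (not_lt.1 hlt) h0
  have hc1 : c < 0 := by
    by_contra h3
    push Not at h3
    have h5 : 0 < D ^ 2 := by positivity
    nlinarith
  have hbr : (b₁ : ℝ) < 0 := by exact_mod_cast hb1
  have hcr : (c : ℝ) < 0 := by exact_mod_cast hc1
  push_cast at hN
  have h6 : 0 ≤ N ^ 2 := sq_nonneg N
  have h7 : 0 ≤ M ^ 4 := by positivity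
  have h8 : 0 ≤ e ^ 4 := by positivity
  rcases hne with h | h
  · have : 0 < M ^ 4 := by positivity
    nlinarith
  · have : 0 < e ^ 4 := by positivity
    nlinarith

end Pool.Agent.TH715.CN.ISO
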