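import Mathlib
import Pool.Agent.TH715.CN.Iso2
import Pool.Agent.TH715.RS.Tup

/-!
# The 2-isogeny Selmer groups of `y² = x³ - D² x`, `D` a product of primes congruent to 3 modulo 8
-/

set_option autoImplicit false

namespace Pool.Agent.TH715.CN.ISO

open Finset

/-- the 2-Selmer rank obtained by descent via 2-isogeny is `s` -/
def SelRank (a b : ℤ) (s : ℕ) : Prop := ∃ f₁ f₂ : ℕ, (SQ a b).ncard = 2 ^ f₁ ∧
  (SQ (-2 * a) (a ^ 2 - 4 * b)).ncard = 2 ^ f₂ ∧ f₁ + f₂ = s + 2

/-- the product of the elements of `S`, with a sign -/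
def fT (x : Finset ℕ × Bool) : ℤ := (if x.2 then -1 else 1) * ∏ q ∈ x.1, (q : ℤ)

lemma fT_natAbs (x : Finset ℕ × Bool) : (fT x).natAbs = ∏ q ∈ x.1, q := by
  unfold fT
  rw [Int.natAbs_mul]
  have h1 : (if x.2 = true then (-1 : ℤ) else 1).natAbs = 1 := by
    split_ifs <;> rfl
  rw [h1, one_mul]
  have h2 : ∏ q ∈ x.1, (q : ℤ) = ((∏ q ∈ x.1, q : ℕ) : ℤ) := by push_cast; rfl
  rw [h2, Int.natAbs_natCast]

section

variable {T : Finset ℕ} (hT : ∀ q ∈ T, q.Prime ∧ q % 8 = 3)

include hT

lemma inj_fT : Set.InjOn fT (T.powerset ×ˢ (univ : Finset Bool) : Finset (Finset ℕ × Bool)) := by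
  rintro ⟨S, s⟩ hS ⟨S', s'⟩ hS' h
  rw [mem_coe, mem_product, mem_powerset] at hS hS'
  have h1 : S = S' := by
    have h2 := congrArg Int.natAbs h
    rw [fT_natAbs, fT_natAbs] at h2
    have h3 := congrArg Nat.primeFactors h2
    rw [Nat.primeFactors_prod fun p hp => (hT p (hS.1 hp)).1,
      Nat.primeFactors_prod fun p hp => (hT p (hS'.1 hp)).1] at h3
    exact h3
  subst h1
  have h0 : ∏ q ∈ S, (q : ℤ) ≠ 0 := by
    refine prod_ne_zero_iff.2 fun q hq => ?_
    exact_mod_cast (hT q (hS.1 hq)).1.ne_zero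
  have h2 : (if s = true then (-1 : ℤ) else 1) = if s' = true then (-1 : ℤ) else 1 :=
    mul_right_cancel₀ h0 h
  have h3 : s = s' := by
    revert h2
    cases s <;> cases s' <;> decide
  rw [h3]

lemma mod_fT {S : Finset ℕ} (hS : S ⊆ T) :
    (∏ q ∈ S, (q : ℤ)) % 8 = if Even S.card then 1 else 3 := by
  classical
  induction S using Finset.induction_on with
  | empty => simp
  | insert q S hq ih =>
    rw [prod_insert hq, card_insert_of_notMem hq, Int.mul_emod,
      ih fun x hx => hS (mem_insert_of_mem hx)]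
    have h1 : (q : ℤ) % 8 = 3 := by
      have := (hT q (hS (mem_insert_self _ _))).2
      omega
    rw [h1]
    by_cases h : Even S.card
    · rw [if_pos h, if_neg (by rw [Nat.even_add_one]; exact not_not.2 h)]
      norm_num
    · rw [if_neg h, if_pos (by rw [Nat.even_add_one]; exact h)]
      norm_num

lemma prod_sqf : Squarefree (∏ q ∈ T, (q : ℤ)) := by
  have h1 := Pool.Agent.TH715.RS.sqf_prod T fun p hp => (hT p hp).1
  have h2 : ∏ q ∈ T, (q : ℤ) = ((∏ q ∈ T, q : ℕ) : ℤ) := by push_cast; rfl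
  rw [h2, Int.squarefree_natCast]
  exact h1

lemma prime_mem {p : ℕ} (hp : p.Prime) (h : (p : ℤ) ∣ ∏ q ∈ T, (q : ℤ)) : p ∈ T := by
  have h2 : ∏ q ∈ T, (q : ℤ) = ((∏ q ∈ T, q : ℕ) : ℤ) := by push_cast; rfl
  rw [h2, Int.natCast_dvd_natCast] at h
  obtain ⟨q, hq, h1⟩ := (hp.prime.dvd_finsetProd_iff _).1 h
  rw [(Nat.prime_dvd_prime_iff_eq hp (hT q hq).1).1 h1]
  exact hq

lemma dvd_iff (b : ℤ) : b ∣ ∏ q ∈ T, (q : ℤ) ↔ ∃ S s, S ⊆ T ∧ fT (S, s) = b := by
  constructor
  · intro h
    have hb : Squarefree b.natAbs := by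
      rw [Int.squarefree_natAbs]
      exact (prod_sqf hT).squarefree_of_dvd h
    have h1 : ∏ q ∈ b.natAbs.primeFactors, q = b.natAbs := Nat.prod_primeFactors_of_squarefree hb
    have h2 : b.natAbs.primeFactors ⊆ T := by
      intro p hp
      apply prime_mem hT (Nat.prime_of_mem_primeFactors hp)
      refine dvd_trans ?_ h
      exact Int.natCast_dvd.2 (Nat.dvd_of_mem_primeFactors hp)
    have h3 : ∏ q ∈ b.natAbs.primeFactors, (q : ℤ) = (b.natAbs : ℤ) := by
      rw [← h1]
      push_cast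
      rw [h1]
    rcases le_total 0 b with hb0 | hb0
    · refine ⟨_, false, h2, ?_⟩
      unfold fT
      rw [h3]
      simp only [Bool.false_eq_true, if_false, one_mul]
      exact Int.natAbs_of_nonneg hb0
    · refine ⟨_, true, h2, ?_⟩
      unfold fT
      rw [h3]
      simp only [if_true]
      omega
  · rintro ⟨S, s, hS, rfl⟩
    unfold fT
    refine (Dvd.dvd.trans ?_ (prod_dvd_prod_of_subset _ _ (fun q : ℕ => (q : ℤ)) hS))
    rcases s with _ | _
    · simp
    · simp

lemma class_even {S : Finset ℕ} {s : Bool} (hS : S ⊆ T) (he : Even S.card) :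
    fT (S, s) % 8 = 1 ∨ fT (S, s) % 8 = 7 := by
  have h := mod_fT hT hS
  rw [if_pos he] at h
  have h2 : fT (S, s) = (if s = true then -1 else 1) * ∏ q ∈ S, (q : ℤ) := rfl
  rw [h2]
  generalize ∏ q ∈ S, (q : ℤ) = P at h
  rcases s with _ | _
  · simp only [Bool.false_eq_true, if_false, one_mul]
    omega
  · simp only [if_true]
    omega

lemma class_odd {S : Finset ℕ} {s : Bool} (hS : S ⊆ T) (he : ¬ Even S.card) :
    fT (S, s) % 8 = 3 ∨ fT (S, s) % 8 = 5 := by
  have h := mod_fT hT hS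
  rw [if_neg he] at h
  have h2 : fT (S, s) = (if s = true then -1 else 1) * ∏ q ∈ S, (q : ℤ) := rfl
  rw [h2]
  generalize ∏ q ∈ S, (q : ℤ) = P at h
  rcases s with _ | _
  · simp only [Bool.false_eq_true, if_false, one_mul]
    omega
  · simp only [if_true]
    omega

omit hT in
lemma card_even (hne : T.Nonempty) :
    (T.powerset.filter (fun S => Even S.card)).card * 2 = 2 ^ T.card := by
  classical
  have h1 := Finset.sum_powerset_neg_one_pow_card_of_nonempty hne
  rw [← sum_filter_add_sum_filter_not _ (fun S : Finset ℕ => Even S.card)] at h1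
  have h2 : ∑ m ∈ T.powerset.filter (fun S => Even S.card), (-1 : ℤ) ^ #m =
      (T.powerset.filter (fun S => Even S.card)).card := by
    rw [sum_congr rfl fun S hS => (mem_filter.1 hS).2.neg_one_pow]
    simp
  have h3 : ∑ m ∈ T.powerset.filter (fun S => ¬ Even S.card), (-1 : ℤ) ^ #m =
      -((T.powerset.filter (fun S => ¬ Even S.card)).card : ℤ) := by
    rw [sum_congr rfl fun S hS => (Nat.not_even_iff_odd.1 (mem_filter.1 hS).2).neg_one_pow]
    simp
  rw [h2, h3] at h1
  have h4 := card_filter_add_card_filter_not (s := T.powerset) (fun S : Finset ℕ => Even S.card)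
  rw [card_powerset] at h4
  omega

/-- the Selmer group of the isogenous curve is trivial -/
lemma sq_dual (hne : T.Nonempty) : SQ 0 (4 * (∏ q ∈ T, (q : ℤ)) ^ 2) = {1} := by
  set D : ℤ := ∏ q ∈ T, (q : ℤ) with hD
  have hDs : Squarefree D := prod_sqf hT
  have hD0 : D ≠ 0 := hDs.ne_zero
  ext b
  rw [Set.mem_singleton_iff]
  constructor
  · rintro ⟨hs, hb, hr, hp⟩
    have hpos := no_neg hD0 hb hs.ne_zero hr
    have hcop : IsCoprime b (D ^ 2) := by
      apply IsCoprime.pow_right
      rw [hD]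
      refine IsCoprime.prod_right fun q hq => ?_
      have hqp := (hT q hq).1
      have hF : Fact q.Prime := ⟨hqp⟩
      have h8 := (hT q hq).2
      have h3 := no_dvd (p := q) (by omega) hs hD0 hb (hp q)
      exact ((Nat.prime_iff_prime_int.1 hqp).irreducible.coprime_iff_not_dvd.2 h3).symm
    have h4 : b ∣ 4 := hcop.dvd_of_dvd_mul_right hb
    have h2 : b ∣ 2 := by
      rw [← hs.dvd_pow_iff_dvd two_ne_zero]
      norm_num
      exact h4
    have h5 : b = 1 ∨ b = 2 := by
      have := Int.le_of_dvd (by norm_num) h2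
      omega
    rcases h5 with h5 | h5
    · exact h5
    · exfalso
      obtain ⟨q, hq⟩ := hne
      have hF : Fact q.Prime := ⟨(hT q hq).1⟩
      have h6 := hp q
      rw [h5] at h6
      refine no_twice (p := q) (hT q hq).2 hDs ?_ h6
      exact dvd_prod_of_mem (fun q : ℕ => (q : ℤ)) hq
  · rintro rfl
    refine ⟨squarefree_one, one_dvd _, q_sq _ _ ?_, fun p hp => q_sq _ _ ?_⟩
    · exact ⟨1, by norm_num⟩
    · exact ⟨1, by norm_num⟩

lemma sq_prim : SQ 0 (-(∏ q ∈ T, (q : ℤ)) ^ 2) = fT '' ((T.powerset.filter (fun S =>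
    Even T.card → Even S.card)) ×ˢ (univ : Finset Bool) : Finset (Finset ℕ × Bool)) := by
  classical
  have hTm := mod_fT hT (Finset.Subset.refl T)
  set D : ℤ := ∏ q ∈ T, (q : ℤ) with hD
  have hDs : Squarefree D := prod_sqf hT
  ext b
  constructor
  · rintro ⟨hs, hb, -, hp⟩
    have hbD : b ∣ D := by
      rw [dvd_neg] at hb
      exact (hs.dvd_pow_iff_dvd two_ne_zero).1 hb
    obtain ⟨S, s, hS, rfl⟩ := (dvd_iff hT b).1 hbD
    refine ⟨(S, s), ?_, rfl⟩
    rw [mem_coe, mem_product]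
    refine ⟨mem_filter.2 ⟨mem_powerset.2 hS, fun hTe => ?_⟩, mem_univ _⟩
    by_contra hSe
    rw [if_pos hTe] at hTm
    have hF : Fact (Nat.Prime 2) := ⟨Nat.prime_two⟩
    exact no_two hTm hb (class_odd hT hS hSe) (hp 2)
  · rintro ⟨⟨S, s⟩, hS, rfl⟩
    rw [mem_coe, mem_product, mem_filter, mem_powerset] at hS
    obtain ⟨⟨hS, hSe⟩, -⟩ := hS
    refine mem_SQ hDs (fun q hq hqD => ?_) ((dvd_iff hT _).2 ⟨S, s, hS, rfl⟩) ?_
    · have := (hT q (prime_mem hT hq hqD)).2
      omega
    · by_cases he : Even S.card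
      · rcases class_even hT (s := s) hS he with h | h
        · exact Or.inl h
        · exact Or.inr (Or.inl h)
      · have hTe : ¬ Even T.card := fun h => he (hSe h)
        rw [if_neg hTe] at hTm
        exact Or.inr (Or.inr ⟨class_odd hT hS he, hTm⟩)

/-- **the 2-isogeny Selmer rank** -/
theorem selRank (hne : T.Nonempty) :
    SelRank 0 (-(∏ q ∈ T, (q : ℤ)) ^ 2) (2 * ((T.card - 1) / 2)) := by
  classical
  have hc : 0 < T.card := card_pos.2 hne
  have h2 : SQ (-2 * 0) (0 ^ 2 - 4 * (-(∏ q ∈ T, (q : ℤ)) ^ 2)) = {1} := by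
    rw [← sq_dual hT hne]
    congr 1
    ring
  have hinj : ∀ F : Finset (Finset ℕ), F ⊆ T.powerset →
      (fT '' ((F ×ˢ (univ : Finset Bool) : Finset (Finset ℕ × Bool)) :
        Set (Finset ℕ × Bool))).ncard = F.card * 2 := by
    intro F hF
    have hsub : ((F ×ˢ (univ : Finset Bool) : Finset (Finset ℕ × Bool)) :
        Set (Finset ℕ × Bool)) ⊆ (T.powerset ×ˢ (univ : Finset Bool) :
        Finset (Finset ℕ × Bool)) := by
      intro x hx
      rw [mem_coe, mem_product] at hx ⊢
      exact ⟨hF hx.1, hx.2⟩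
    rw [((inj_fT hT).mono hsub).ncard_image, Set.ncard_coe_finset, card_product]
    rfl
  by_cases he : Even T.card
  · refine ⟨T.card, 0, ?_, ?_, ?_⟩
    · rw [sq_prim hT, hinj _ (filter_subset _ _)]
      have h3 : T.powerset.filter (fun S => Even T.card → Even S.card) =
          T.powerset.filter (fun S => Even S.card) := by
        refine filter_congr fun S _ => ?_
        exact ⟨fun h => h he, fun h _ => h⟩
      rw [h3]
      exact card_even hne
    · rw [h2, Set.ncard_singleton, pow_zero]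
    · rw [Nat.even_iff] at he
      omega
  · refine ⟨T.card + 1, 0, ?_, ?_, ?_⟩
    · rw [sq_prim hT, hinj _ (filter_subset _ _)]
      have h3 : T.powerset.filter (fun S => Even T.card → Even S.card) = T.powerset := by
        refine filter_true_of_mem fun S _ => ?_
        exact fun h => absurd h he
      rw [h3, card_powerset, pow_succ]
    · rw [h2, Set.ncard_singleton, pow_zero]
    · rw [Nat.even_iff] at he
      omega

end

end Pool.Agent.TH715.CN.ISO
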