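import Mathlib
import Pool.Agent.TH841.SH.Sel
import Pool.Agent.TH715.CN.Iso3

/-!
# The étale double coverings of the curves `N² = b₁ M⁴ - (D² / b₁) e⁴`
-/

set_option autoImplicit false

namespace Pool.Agent.TH715.CN.ISO

open Filter

open Pool.Agent.TH841.SH (LocC SelG)

/-- the curve `b₁ M² - D e² = d X²`, `b₁ M² + D e² = b₁ d Y²` has a point over `K` -/
def Cov (K : Type) [Field K] (D b₁ d : ℤ) : Prop := ∃ M e X Y : K, (M ≠ 0 ∨ e ≠ 0) ∧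
  (b₁ : K) * M ^ 2 - D * e ^ 2 = d * X ^ 2 ∧ (b₁ : K) * M ^ 2 + D * e ^ 2 = b₁ * d * Y ^ 2

/-- numbers near `1` are squares -/
def Nb (K : Type) [Field K] : Prop := ∃ σ : ℕ → K, (∀ k, σ k ≠ 0) ∧
  ∀ c : K, ∀ᶠ k in atTop, ∃ r : K, r ≠ 0 ∧ r ^ 2 = 1 + c * σ k ^ 2

lemma nb_real : Nb ℝ := by
  refine ⟨fun k => (1 / 2) ^ k, fun k => by positivity, fun c => ?_⟩
  have h1 : Tendsto (fun k : ℕ => (1 / 2 : ℝ) ^ k) atTop (nhds 0) :=
    tendsto_pow_atTop_nhds_zero_of_lt_one (by norm_num) (by norm_num)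
  have h2 : Tendsto (fun k : ℕ => 1 + c * ((1 / 2 : ℝ) ^ k) ^ 2) atTop (nhds (1 + c * 0 ^ 2)) :=
    ((h1.pow 2).const_mul c).const_add 1
  have h3 : (0 : ℝ) < 1 + c * 0 ^ 2 := by norm_num
  filter_upwards [h2.eventually (lt_mem_nhds h3)] with k hk
  exact ⟨Real.sqrt _, (Real.sqrt_pos.2 hk).ne', Real.sq_sqrt hk.le⟩

lemma nb_pad (p : ℕ) [hp : Fact p.Prime] : Nb ℚ_[p] := by
  have hp0 : (p : ℚ_[p]) ≠ 0 := by exact_mod_cast hp.out.ne_zero
  have hp1 : ‖(p : ℚ_[p])‖ < 1 := by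
    rw [Padic.norm_p]
    exact inv_lt_one_of_one_lt₀ (by exact_mod_cast hp.out.one_lt)
  refine ⟨fun k => 2 * (p : ℚ_[p]) ^ (k + 1), fun k => mul_ne_zero two_ne_zero (pow_ne_zero _ hp0),
    fun c => ?_⟩
  have h1 : Tendsto (fun k : ℕ => ‖(p : ℚ_[p])‖ ^ k) atTop (nhds 0) :=
    tendsto_pow_atTop_nhds_zero_of_lt_one (norm_nonneg _) hp1
  have h2 : Tendsto (fun k : ℕ => ‖c‖ * ‖(p : ℚ_[p])‖ ^ k) atTop (nhds (‖c‖ * 0)) :=
    h1.const_mul _
  have h3 : ‖c‖ * 0 < 1 := by norm_num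
  filter_upwards [h2.eventually (gt_mem_nhds h3)] with k hk
  have hw : ‖c * (p : ℚ_[p]) ^ (2 * k + 1)‖ ≤ 1 := by
    rw [norm_mul, norm_pow]
    refine le_trans (mul_le_mul_of_nonneg_left ?_ (norm_nonneg _)) hk.le
    exact pow_le_pow_of_le_one (norm_nonneg _) hp1.le (by omega)
  obtain ⟨w, hw'⟩ : ∃ w : ℤ_[p], (w : ℚ_[p]) = c * (p : ℚ_[p]) ^ (2 * k + 1) := ⟨⟨_, hw⟩, rfl⟩
  obtain ⟨z, hz⟩ := Pool.Agent.W402.FK.hens p w
  have h4 := congrArg (fun w : ℤ_[p] => (w : ℚ_[p])) hz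
  have hc4 : ((4 : ℤ_[p]) : ℚ_[p]) = 4 := rfl
  push_cast at h4
  rw [hc4, hw'] at h4
  refine ⟨(z : ℚ_[p]), ?_, ?_⟩
  · intro h0
    rw [h0, mul_zero] at h4
    have h5 : ‖(4 : ℚ_[p]) * p * (c * (p : ℚ_[p]) ^ (2 * k + 1))‖ < 1 := by
      rw [norm_mul, norm_mul]
      have h6 : ‖(4 : ℚ_[p])‖ ≤ 1 := by
        have := Padic.norm_int_le_one (p := p) 4
        exact_mod_cast this
      calc ‖(4 : ℚ_[p])‖ * ‖(p : ℚ_[p])‖ * ‖c * (p : ℚ_[p]) ^ (2 * k + 1)‖ ≤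
          1 * ‖(p : ℚ_[p])‖ * 1 := by
            gcongr
        _ < 1 := by rw [one_mul, mul_one]; exact hp1
    have h6 : (4 : ℚ_[p]) * p * (c * (p : ℚ_[p]) ^ (2 * k + 1)) = -1 := by
      linear_combination h4
    rw [h6, norm_neg, norm_one] at h5
    exact lt_irrefl _ h5
  · rw [sq, ← h4]
    ring

section loc

variable {K : Type} [Field K] [CharZero K] {D b₁ d : ℤ}

omit [CharZero K] in
lemma mkLoc {x y : K} (hy : y ≠ 0) (h : y ^ 2 = x * (x - D) * (x + D))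
    (h1 : IsSquare (x * b₁)) (h2 : IsSquare ((x - D) * d)) : LocC K 0 D (-D) b₁ d := by
  refine ⟨x, y, hy, ?_, ?_, h2⟩
  · rw [h]
    push_cast
    ring
  · rw [Int.cast_zero, sub_zero]
    exact h1

lemma t0 (hK : Nb K) (h1 : IsSquare (b₁ : K)) (h2 : IsSquare (d : K)) :
    LocC K 0 D (-D) b₁ d := by
  obtain ⟨σ, hσ, hc⟩ := hK
  obtain ⟨k, ⟨r, hr, er⟩, ⟨s, hs, es⟩⟩ := ((hc (-(D : K))).and (hc (D : K))).exists
  obtain ⟨u, hu⟩ := h1
  obtain ⟨v, hv⟩ := h2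
  have hk := hσ k
  refine mkLoc (x := 1 / σ k ^ 2) (y := r * s / σ k ^ 3)
    (div_ne_zero (mul_ne_zero hr hs) (pow_ne_zero 3 hk)) ?_ ?_ ?_
  · field_simp
    have e1 : 1 - (D : K) * σ k ^ 2 = r ^ 2 := by rw [er]; ring
    have e2 : 1 + (D : K) * σ k ^ 2 = s ^ 2 := by rw [es]
    rw [mul_comm (σ k ^ 2) (D : K), e1, e2]
  · refine ⟨u / σ k, ?_⟩
    rw [hu]
    field_simp
  · refine ⟨r * v / σ k, ?_⟩
    rw [hv]
    have e1 : 1 / σ k ^ 2 - (D : K) = r ^ 2 / σ k ^ 2 := by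
      rw [er]
      field_simp
      ring
    rw [e1]
    field_simp

variable (hD : D ≠ 0)

include hD

lemma t1 (hK : Nb K) (h1 : IsSquare (-(b₁ : K))) (h2 : IsSquare (-(D : K) * d)) :
    LocC K 0 D (-D) b₁ d := by
  obtain ⟨σ, hσ, hc⟩ := hK
  have hD0 : (D : K) ≠ 0 := by exact_mod_cast hD
  obtain ⟨k, ⟨r, hr, er⟩, ⟨s, hs, es⟩⟩ := ((hc (1 / (D : K))).and (hc (-(1 / (D : K))))).exists
  obtain ⟨u, hu⟩ := h1
  obtain ⟨v, hv⟩ := h2
  have hk := hσ k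
  have e1 : (D : K) + σ k ^ 2 = D * r ^ 2 := by
    rw [er]
    field_simp
  have e2 : (D : K) - σ k ^ 2 = D * s ^ 2 := by
    rw [es]
    field_simp
    ring
  refine mkLoc (x := -σ k ^ 2) (y := σ k * D * r * s)
    (mul_ne_zero (mul_ne_zero (mul_ne_zero hk hD0) hr) hs) ?_ ?_ ?_
  · have e3 : -σ k ^ 2 - (D : K) = -(D * r ^ 2) := by rw [← e1]; ring
    have e4 : -σ k ^ 2 + (D : K) = D * s ^ 2 := by rw [← e2]; ring
    rw [e3, e4]
    ring
  · refine ⟨u * σ k, ?_⟩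
    linear_combination (σ k ^ 2) * hu
  · refine ⟨r * v, ?_⟩
    have e3 : -σ k ^ 2 - (D : K) = -(D * r ^ 2) := by rw [← e1]; ring
    rw [e3]
    linear_combination (r ^ 2) * hv

lemma t2 (hK : Nb K) (h1 : IsSquare ((D : K) * b₁)) (h2 : IsSquare (2 * (d : K))) :
    LocC K 0 D (-D) b₁ d := by
  obtain ⟨σ, hσ, hc⟩ := hK
  have hD0 : (D : K) ≠ 0 := by exact_mod_cast hD
  obtain ⟨k, ⟨r, hr, er⟩, ⟨s, hs, es⟩⟩ := ((hc (2 / (D : K))).and (hc (1 / (D : K)))).exists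
  obtain ⟨u, hu⟩ := h1
  obtain ⟨v, hv⟩ := h2
  have hk := hσ k
  have e1 : (D : K) + 2 * σ k ^ 2 = D * r ^ 2 := by
    rw [er]
    field_simp
  have e2 : (D : K) + σ k ^ 2 = D * s ^ 2 := by
    rw [es]
    field_simp
  refine mkLoc (x := D * r ^ 2) (y := 2 * D * r * s * σ k)
    (mul_ne_zero (mul_ne_zero (mul_ne_zero (mul_ne_zero two_ne_zero hD0) hr) hs) hk) ?_ ?_ ?_
  · have e3 : (D : K) * r ^ 2 - D = 2 * σ k ^ 2 := by rw [← e1]; ring
    have e4 : (D : K) * r ^ 2 + D = 2 * (D * s ^ 2) := by rw [← e1, ← e2]; ring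
    rw [e3, e4]
    ring
  · refine ⟨r * u, ?_⟩
    linear_combination (r ^ 2) * hu
  · refine ⟨σ k * v, ?_⟩
    have e3 : (D : K) * r ^ 2 - D = 2 * σ k ^ 2 := by rw [← e1]; ring
    rw [e3]
    linear_combination (σ k ^ 2) * hv

lemma t3 (hK : Nb K) (h1 : IsSquare (-(D : K) * b₁)) (h2 : IsSquare (-(2 * (D : K)) * d)) :
    LocC K 0 D (-D) b₁ d := by
  obtain ⟨σ, hσ, hc⟩ := hK
  have hD0 : (D : K) ≠ 0 := by exact_mod_cast hD
  obtain ⟨k, ⟨r, hr, er⟩, ⟨s, hs, es⟩⟩ :=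
    ((hc (-(2 / (D : K)))).and (hc (-(1 / (D : K))))).exists
  obtain ⟨u, hu⟩ := h1
  obtain ⟨v, hv⟩ := h2
  have hk := hσ k
  have e1 : (D : K) - 2 * σ k ^ 2 = D * r ^ 2 := by
    rw [er]
    field_simp
    ring
  have e2 : (D : K) - σ k ^ 2 = D * s ^ 2 := by
    rw [es]
    field_simp
    ring
  refine mkLoc (x := -(D * r ^ 2)) (y := 2 * D * r * s * σ k)
    (mul_ne_zero (mul_ne_zero (mul_ne_zero (mul_ne_zero two_ne_zero hD0) hr) hs) hk) ?_ ?_ ?_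
  · have e3 : -((D : K) * r ^ 2) - D = -(2 * (D * s ^ 2)) := by rw [← e1, ← e2]; ring
    have e4 : -((D : K) * r ^ 2) + D = 2 * σ k ^ 2 := by rw [← e1]; ring
    rw [e3, e4]
    ring
  · refine ⟨r * u, ?_⟩
    linear_combination (r ^ 2) * hu
  · refine ⟨s * v, ?_⟩
    have e3 : -((D : K) * r ^ 2) - D = -(2 * (D * s ^ 2)) := by rw [← e1, ← e2]; ring
    rw [e3]
    linear_combination (s ^ 2) * hv

/-- a point on the covering gives a pair of classes -/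
lemma loc_of_cov (hK : Nb K) (hb : b₁ ≠ 0) (hd : d ≠ 0) (h : Cov K D b₁ d) :
    LocC K 0 D (-D) b₁ d := by
  obtain ⟨M, e, X, Y, hne, h1, h2⟩ := h
  have hD0 : (D : K) ≠ 0 := by exact_mod_cast hD
  have hb0 : (b₁ : K) ≠ 0 := by exact_mod_cast hb
  have hd0 : (d : K) ≠ 0 := by exact_mod_cast hd
  by_cases he : e = 0
  · subst he
    have hM : M ≠ 0 := by
      rcases hne with h | h
      · exact h
      · exact absurd rfl h
    have h3 : M ^ 2 = d * Y ^ 2 := by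
      have : (b₁ : K) * M ^ 2 = b₁ * (d * Y ^ 2) := by linear_combination h2
      exact mul_left_cancel₀ hb0 this
    have hY : Y ≠ 0 := by
      rintro rfl
      apply hM
      have : M ^ 2 = 0 := by rw [h3]; ring
      exact pow_eq_zero_iff two_ne_zero |>.1 this
    refine t0 hK ⟨X / Y, ?_⟩ ⟨M / Y, ?_⟩
    · rw [div_mul_div_comm, eq_div_iff (mul_ne_zero hY hY)]
      have h4 : (d : K) * (b₁ * (Y * Y)) = d * (X * X) := by
        linear_combination h1 - (b₁ : K) * h3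
      exact mul_left_cancel₀ hd0 h4
    · rw [div_mul_div_comm, eq_div_iff (mul_ne_zero hY hY)]
      linear_combination (-1) * h3
  by_cases hM : M = 0
  · subst hM
    have hY : Y ≠ 0 := by
      rintro rfl
      apply he
      have : (D : K) * e ^ 2 = 0 := by linear_combination h2
      exact pow_eq_zero_iff two_ne_zero |>.1 ((mul_eq_zero.1 this).resolve_left hD0)
    refine t1 hD hK ⟨X / Y, ?_⟩ ⟨d * X / e, ?_⟩
    · rw [div_mul_div_comm, eq_div_iff (mul_ne_zero hY hY)]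
      have h4 : (d : K) * (-b₁ * (Y * Y)) = d * (X * X) := by linear_combination h1 + h2
      exact mul_left_cancel₀ hd0 h4
    · rw [div_mul_div_comm, eq_div_iff (mul_ne_zero he he)]
      linear_combination (d : K) * h1
  by_cases hX : X = 0
  · subst hX
    refine t2 hD hK ⟨b₁ * M / e, ?_⟩ ⟨d * Y / M, ?_⟩
    · rw [div_mul_div_comm, eq_div_iff (mul_ne_zero he he)]
      linear_combination (-(b₁ : K)) * h1
    · rw [div_mul_div_comm, eq_div_iff (mul_ne_zero hM hM)]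
      have h4 : (b₁ : K) * (2 * d * (M * M)) = b₁ * (d * Y * (d * Y)) := by
        linear_combination (d : K) * h1 + (d : K) * h2
      exact mul_left_cancel₀ hb0 h4
  by_cases hY : Y = 0
  · subst hY
    refine t3 hD hK ⟨b₁ * M / e, ?_⟩ ⟨d * X / e, ?_⟩
    · rw [div_mul_div_comm, eq_div_iff (mul_ne_zero he he)]
      linear_combination (-(b₁ : K)) * h2
    · rw [div_mul_div_comm, eq_div_iff (mul_ne_zero he he)]
      linear_combination (d : K) * h1 - (d : K) * h2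
  refine mkLoc (x := b₁ * M ^ 2 / e ^ 2) (y := b₁ * d * M * X * Y / e ^ 3)
    (div_ne_zero (mul_ne_zero (mul_ne_zero (mul_ne_zero (mul_ne_zero hb0 hd0) hM) hX) hY)
      (pow_ne_zero 3 he)) ?_ ⟨b₁ * M / e, ?_⟩ ⟨d * X / e, ?_⟩
  · have e1 : (b₁ : K) * M ^ 2 / e ^ 2 - D = d * X ^ 2 / e ^ 2 := by
      rw [← h1]
      field_simp
    have e2 : (b₁ : K) * M ^ 2 / e ^ 2 + D = b₁ * d * Y ^ 2 / e ^ 2 := by
      rw [← h2]
      field_simp
    rw [e1, e2]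
    field_simp
  · field_simp
  · have e1 : (b₁ : K) * M ^ 2 / e ^ 2 - D = d * X ^ 2 / e ^ 2 := by
      rw [← h1]
      field_simp
    rw [e1]
    field_simp

end loc

end Pool.Agent.TH715.CN.ISO
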