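import Mathlib
import Pool.Agent.TH715.CN.Cov
import Pool.Agent.TH715.CN.Fin2

/-!
# The curves `N² = b₁ M⁴ - (D² / b₁) e⁴` without rational points, and their étale double coverings
-/

set_option autoImplicit false

namespace Pool.Agent.TH715.CN.ISO

open Finset

open Pool.Agent.TH841.SH (LocC SelG)

/-- the étale double covering given by `d` has points everywhere locally -/
def ELS (D b₁ d : ℤ) : Prop := Cov ℝ D b₁ d ∧ ∀ (p : ℕ) [Fact p.Prime], Cov ℚ_[p] D b₁ d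

lemma sq_part (d : ℤ) (hd : d ≠ 0) : ∃ d' s : ℤ, s ≠ 0 ∧ Squarefree d' ∧ d = d' * s ^ 2 := by
  obtain ⟨a, b, h1, h2⟩ := Nat.sq_mul_squarefree d.natAbs
  have hb : b ≠ 0 := by
    rintro rfl
    apply hd
    rw [← Int.natAbs_eq_zero, ← h1]
    ring
  have h3 : ((b : ℤ) ^ 2 * a : ℤ) = (d.natAbs : ℤ) := by exact_mod_cast h1
  rcases le_total 0 d with h | h
  · refine ⟨a, b, by exact_mod_cast hb, Int.squarefree_natCast.2 h2, ?_⟩
    rw [Int.natAbs_of_nonneg h] at h3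
    rw [← h3]
    ring
  · refine ⟨-a, b, by exact_mod_cast hb, ?_, ?_⟩
    · rw [← Int.squarefree_natAbs, Int.natAbs_neg, Int.natAbs_natCast]
      exact h2
    · have h4 : (d.natAbs : ℤ) = -d := by omega
      rw [h4] at h3
      linarith

lemma locC_part {K : Type} [Field K] [CharZero K] {D b₁ d d' s : ℤ} (hs : s ≠ 0)
    (h : d = d' * s ^ 2) (hl : LocC K 0 D (-D) b₁ d) : LocC K 0 D (-D) b₁ d' := by
  obtain ⟨x, y, h1, h2, h3, w, hw⟩ := hl
  have hs0 : (s : K) ≠ 0 := by exact_mod_cast hs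
  refine ⟨x, y, h1, h2, h3, w / s, ?_⟩
  rw [div_mul_div_comm, eq_div_iff (mul_ne_zero hs0 hs0), ← hw, h]
  push_cast
  ring

section

variable {D : ℤ} (hD : Squarefree D) (h2 : ¬ (2 : ℤ) ∣ D) (h3 : 3 ≤ D)

include hD h2 h3

lemma tors_sub : ({(1, 1), (-1, -D), (D, 2), (-D, -(2 * D))} : Set (ℤ × ℤ)) ⊆ SelG 0 D (-D) := by
  have hD0 : D ≠ 0 := by omega
  have hs2 : Squarefree (2 : ℤ) := Int.prime_two.squarefree
  have hs2D : Squarefree (2 * D) := by
    rw [squarefree_mul_iff]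
    refine ⟨?_, hs2, hD⟩
    exact ((Int.prime_two.irreducible.coprime_iff_not_dvd).2 h2).isRelPrime
  have hsn : ∀ z : ℤ, Squarefree z → Squarefree (-z) := fun z hz => by
    rw [← Int.squarefree_natAbs, Int.natAbs_neg, Int.squarefree_natAbs]
    exact hz
  have key : ∀ (K : Type) [Field K] [CharZero K], Nb K →
      LocC K 0 D (-D) 1 1 ∧ LocC K 0 D (-D) (-1) (-D) ∧ LocC K 0 D (-D) D 2 ∧
      LocC K 0 D (-D) (-D) (-(2 * D)) := by
    intro K _ _ hK
    refine ⟨t0 hK ⟨1, by norm_num⟩ ⟨1, by norm_num⟩,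
      t1 hD0 hK ⟨1, by norm_num⟩ ⟨D, by push_cast; ring⟩,
      t2 hD0 hK ⟨D, by push_cast; ring⟩ ⟨2, by norm_num⟩,
      t3 hD0 hK ⟨D, by push_cast; ring⟩ ⟨2 * D, by push_cast; ring⟩⟩
  obtain ⟨r1, r2, r3, r4⟩ := key ℝ nb_real
  intro x hx
  simp only [Set.mem_insert_iff, Set.mem_singleton_iff] at hx
  rcases hx with rfl | rfl | rfl | rfl
  · exact ⟨squarefree_one, squarefree_one, r1, fun p _ => (key ℚ_[p] (nb_pad p)).1⟩
  · exact ⟨hsn 1 squarefree_one, hsn D hD, r2, fun p _ => (key ℚ_[p] (nb_pad p)).2.1⟩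
  · exact ⟨hD, hs2, r3, fun p _ => (key ℚ_[p] (nb_pad p)).2.2.1⟩
  · exact ⟨hsn D hD, hsn _ hs2D, r4, fun p _ => (key ℚ_[p] (nb_pad p)).2.2.2⟩

lemma tors_card : ({(1, 1), (-1, -D), (D, 2), (-D, -(2 * D))} : Set (ℤ × ℤ)).ncard = 4 := by
  have h : ({(1, 1), (-1, -D), (D, 2), (-D, -(2 * D))} : Set (ℤ × ℤ)) =
      (({(1, 1), (-1, -D), (D, 2), (-D, -(2 * D))} : Finset (ℤ × ℤ)) : Set (ℤ × ℤ)) := by
    push_cast
    rfl
  rw [h, Set.ncard_coe_finset, card_insert_of_notMem, card_insert_of_notMem,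
    card_insert_of_notMem, card_singleton]
  · simp only [Finset.mem_singleton, Prod.mk.injEq, not_and]
    intro h
    omega
  · simp only [Finset.mem_insert, Finset.mem_singleton, Prod.mk.injEq, not_or, not_and]
    constructor <;> intro h <;> omega
  · simp only [Finset.mem_insert, Finset.mem_singleton, Prod.mk.injEq, not_or, not_and]
    refine ⟨?_, ?_, ?_⟩ <;> intro h <;> omega

/-- **no étale double covering of the other curves has points everywhere locally** -/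
lemma no_cover (hfin : (SelG 0 D (-D)).Finite) (h4 : (SelG 0 D (-D)).ncard ≤ 4) {b₁ d : ℤ}
    (hb : Squarefree b₁) (hb' : ¬ (b₁ = 1 ∨ b₁ = -1 ∨ b₁ = D ∨ b₁ = -D)) (hd : d ≠ 0) :
    ¬ ELS D b₁ d := by
  rintro ⟨hr, hp⟩
  have hD0 : D ≠ 0 := by omega
  obtain ⟨d', s, hs, hd', hds⟩ := sq_part d hd
  have hmem : ((b₁, d') : ℤ × ℤ) ∈ SelG 0 D (-D) :=
    ⟨hb, hd', locC_part hs hds (loc_of_cov hD0 nb_real hb.ne_zero hd hr),
      fun p _ => locC_part hs hds (loc_of_cov hD0 (nb_pad p) hb.ne_zero hd (hp p))⟩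
  have heq := Set.eq_of_subset_of_ncard_le (tors_sub hD h2 h3) (by
    rw [tors_card hD h2 h3]
    exact h4) hfin
  rw [← heq] at hmem
  simp only [Set.mem_insert_iff, Set.mem_singleton_iff, Prod.mk.injEq] at hmem
  apply hb'
  rcases hmem with h | h | h | h
  · exact Or.inl h.1
  · exact Or.inr (Or.inl h.1)
  · exact Or.inr (Or.inr (Or.inl h.1))
  · exact Or.inr (Or.inr (Or.inr h.1))

end

/-- a rational point lifts to one of the coverings -/
lemma cov_of_rat {D b₁ : ℤ} (hb0 : b₁ ≠ 0) (hb : b₁ ∣ -D ^ 2) (h : Qu ℚ 0 (-D ^ 2) b₁) :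
    ∃ d : ℤ, d ≠ 0 ∧ ELS D b₁ d := by
  have key : ∃ d : ℤ, d ≠ 0 ∧ Cov ℚ D b₁ d := by
    obtain ⟨N, M, e, hne, hN⟩ := h
    obtain ⟨c, hc⟩ := hb
    have hdiv : -D ^ 2 / b₁ = c := by
      rw [hc]
      exact Int.mul_ediv_cancel_left c hb0
    have hbq : (b₁ : ℚ) ≠ 0 := by exact_mod_cast hb0
    rw [hdiv] at hN
    have hc' : -(D : ℚ) ^ 2 = b₁ * c := by exact_mod_cast congrArg (Int.cast : ℤ → ℚ) hc
    have h1 : (b₁ : ℚ) * N ^ 2 = (b₁ * M ^ 2 - D * e ^ 2) * (b₁ * M ^ 2 + D * e ^ 2) := by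
      rw [hN]
      push_cast
      linear_combination (-(e ^ 4)) * hc'
    set δ : ℚ := b₁ * M ^ 2 - D * e ^ 2 with hδ
    by_cases h0 : δ = 0
    · refine ⟨2, two_ne_zero, M, e, 0, M, hne, ?_, ?_⟩
      · rw [← hδ, h0]
        ring
      · have : (b₁ : ℚ) * M ^ 2 - D * e ^ 2 = 0 := h0
        push_cast
        linear_combination (-1) * this
    · have hden : (δ.den : ℚ) ≠ 0 := by exact_mod_cast δ.den_nz
      have hnd : (δ.num : ℚ) = δ * δ.den := (Rat.mul_den_eq_num δ).symm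
      refine ⟨δ.num * δ.den, mul_ne_zero (Rat.num_ne_zero.2 h0) (by exact_mod_cast δ.den_nz), M, e,
        1 / δ.den, N / (δ * δ.den), hne, ?_, ?_⟩
      · rw [← hδ]
        push_cast
        rw [hnd]
        field_simp
      · have h5 : (b₁ : ℚ) * M ^ 2 + D * e ^ 2 = b₁ * N ^ 2 / δ := by
          rw [eq_div_iff h0, h1]
          ring
        rw [h5]
        push_cast
        rw [hnd]
        field_simp
  obtain ⟨d, hd, M, e, X, Y, hne, h1, h2⟩ := key
  have trans : ∀ (K : Type) [Field K] [CharZero K], Cov K D b₁ d := by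
    intro K _ _
    refine ⟨(M : K), (e : K), (X : K), (Y : K), ?_, ?_, ?_⟩
    · rcases hne with h | h
      · exact Or.inl (by exact_mod_cast h)
      · exact Or.inr (by exact_mod_cast h)
    · exact_mod_cast congrArg (Rat.cast : ℚ → K) h1
    · exact_mod_cast congrArg (Rat.cast : ℚ → K) h2
  exact ⟨d, hd, trans ℝ, fun p _ => trans ℚ_[p]⟩

/-- the curves with a point -/
lemma rat_of {D b₁ : ℤ} (hD : D ≠ 0) (h : b₁ = 1 ∨ b₁ = -1 ∨ b₁ = D ∨ b₁ = -D) :
    Qu ℚ 0 (-D ^ 2) b₁ := by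
  rcases h with rfl | rfl | rfl | rfl
  · exact q_sq _ _ ⟨1, by norm_num⟩
  · exact q_neg ((isUnit_one.neg).dvd) (by norm_num) ⟨1, by norm_num⟩
  · exact q_mid ((dvd_pow_self _ two_ne_zero).neg_right) hD (Or.inl ⟨b₁, by push_cast; ring⟩)
  · refine q_mid ?_ (neg_ne_zero.2 hD) (Or.inr ⟨D, by push_cast; ring⟩)
    exact ((dvd_pow_self D two_ne_zero).neg_right).neg_left

/-- the everywhere locally solvable curves without rational points -/
def Bad (D : ℤ) : Set ℤ := {b₁ | b₁ ∈ SQ 0 (-D ^ 2) ∧ ¬ Qu ℚ 0 (-D ^ 2) b₁}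

section

variable {T : Finset ℕ} (hT : ∀ q ∈ T, q.Prime ∧ q % 8 = 3) (hne : T.Nonempty)

include hT hne

lemma sq_card : (SQ 0 (-(∏ q ∈ T, (q : ℤ)) ^ 2)).ncard = 4 ^ ((T.card - 1) / 2 + 1) := by
  obtain ⟨f₁, f₂, h1, h2, h3⟩ := selRank hT hne
  have h4 : SQ (-2 * 0) (0 ^ 2 - 4 * (-(∏ q ∈ T, (q : ℤ)) ^ 2)) = {1} := by
    rw [← sq_dual hT hne]
    congr 1
    ring
  rw [h4, Set.ncard_singleton] at h2
  have h5 : f₂ = 0 := by
    by_contra h
    have : 2 ^ 1 ≤ 2 ^ f₂ := Nat.pow_le_pow_right (by norm_num) (Nat.one_le_iff_ne_zero.2 h)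
    omega
  rw [h1]
  have h6 : f₁ = 2 * ((T.card - 1) / 2 + 1) := by omega
  rw [h6, pow_mul]
  norm_num

theorem bad_of (hfin : (SelG 0 (∏ q ∈ T, (q : ℤ)) (-(∏ q ∈ T, (q : ℤ)))).Finite)
    (h4 : (SelG 0 (∏ q ∈ T, (q : ℤ)) (-(∏ q ∈ T, (q : ℤ)))).ncard ≤ 4) :
    (Bad (∏ q ∈ T, (q : ℤ))).ncard + 4 = 4 ^ ((T.card - 1) / 2 + 1) ∧
    ∀ b₁ ∈ Bad (∏ q ∈ T, (q : ℤ)), ∀ d : ℤ, d ≠ 0 → ¬ ELS (∏ q ∈ T, (q : ℤ)) b₁ d := by
  classical
  have hcard := sq_card hT hne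
  have hmod := mod_fT hT (Finset.Subset.refl T)
  have hD : Squarefree (∏ q ∈ T, (q : ℤ)) := prod_sqf hT
  have hpos : 0 < ∏ q ∈ T, (q : ℤ) := prod_pos fun q hq => by exact_mod_cast (hT q hq).1.pos
  obtain ⟨q, hq⟩ := hne
  have hqD : (q : ℤ) ∣ ∏ q ∈ T, (q : ℤ) := dvd_prod_of_mem (fun q : ℕ => (q : ℤ)) hq
  have hq3 : (3 : ℤ) ≤ q := by
    have := (hT q hq).2
    have : 3 ≤ q := by omega
    exact_mod_cast this
  have hD3 : 3 ≤ ∏ q ∈ T, (q : ℤ) := hq3.trans (Int.le_of_dvd hpos hqD)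
  have hodd : ¬ (2 : ℤ) ∣ ∏ q ∈ T, (q : ℤ) := by
    intro h
    split_ifs at hmod <;> omega
  set D : ℤ := ∏ q ∈ T, (q : ℤ) with hDdef
  have hD0 : D ≠ 0 := hpos.ne'
  have hbad : Bad D = SQ 0 (-D ^ 2) \ (({1, -1, D, -D} : Finset ℤ) : Set ℤ) := by
    ext b
    rw [Set.mem_diff]
    constructor
    · rintro ⟨h1, h2⟩
      refine ⟨h1, fun h => h2 (rat_of hD0 ?_)⟩
      simpa using h
    · rintro ⟨h1, h2⟩
      refine ⟨h1, fun h => ?_⟩
      obtain ⟨d, hd, hels⟩ := cov_of_rat h1.1.ne_zero h1.2.1 h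
      refine no_cover hD hodd hD3 hfin h4 h1.1 (fun h5 => h2 ?_) hd hels
      simpa using h5
  have hsub : (({1, -1, D, -D} : Finset ℤ) : Set ℤ) ⊆ SQ 0 (-D ^ 2) := by
    intro b hb
    have hb' : b = 1 ∨ b = -1 ∨ b = D ∨ b = -D := by simpa using hb
    have hsn : ∀ z : ℤ, Squarefree z → Squarefree (-z) := fun z hz => by
      rw [← Int.squarefree_natAbs, Int.natAbs_neg, Int.squarefree_natAbs]
      exact hz
    have hrat := rat_of hD0 hb'
    have trans : ∀ (K : Type) [Field K] [CharZero K], Qu K 0 (-D ^ 2) b := by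
      intro K _ _
      obtain ⟨N, M, e, hne, h1⟩ := hrat
      refine ⟨(N : K), (M : K), (e : K), ?_, ?_⟩
      · rcases hne with h | h
        · exact Or.inl (by exact_mod_cast h)
        · exact Or.inr (by exact_mod_cast h)
      · exact_mod_cast congrArg (Rat.cast : ℚ → K) h1
    refine ⟨?_, ?_, trans ℝ, fun p _ => trans ℚ_[p]⟩
    · rcases hb' with rfl | rfl | rfl | rfl
      · exact squarefree_one
      · exact hsn 1 squarefree_one
      · exact hD
      · exact hsn D hD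
    · rcases hb' with rfl | rfl | rfl | rfl
      · exact one_dvd _
      · exact (isUnit_one.neg).dvd
      · exact (dvd_pow_self _ two_ne_zero).neg_right
      · exact ((dvd_pow_self D two_ne_zero).neg_right).neg_left
  have h5 : ({1, -1, D, -D} : Finset ℤ).card = 4 := by
    rw [card_insert_of_notMem, card_insert_of_notMem, card_insert_of_notMem, card_singleton]
    · simp only [Finset.mem_singleton]
      omega
    · simp only [Finset.mem_insert, Finset.mem_singleton, not_or]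
      omega
    · simp only [Finset.mem_insert, Finset.mem_singleton, not_or]
      omega
  constructor
  · have h6 : (SQ 0 (-D ^ 2)).Finite := Set.finite_of_ncard_pos (by rw [hcard]; positivity)
    have h7 := Set.ncard_diff_add_ncard_of_subset hsub h6
    rw [Set.ncard_coe_finset, h5, ← hbad, hcard] at h7
    exact h7
  · intro b₁ hb d hd
    rw [hbad] at hb
    refine no_cover hD hodd hD3 hfin h4 hb.1.1 (fun h6 => hb.2 ?_) hd
    simpa using h6

end

end Pool.Agent.TH715.CN.ISO
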