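import Mathlib
import Pool.Agent.W313.BMX.Final
import Pool.Agent.TH715.CN.Cov2

/-!
# The Brauer-Manin set of the curves `N² = b₁ M⁴ - (D² / b₁) e⁴`
-/

set_option autoImplicit false

namespace Pool.Agent.TH715.CN.ISO

open Pool.Agent.W313.BMX (Splits Fam ram IsTest splits_mul_sq)

/-- a point over `K` of the curve `N² = b₁ M⁴ - (D² / b₁) e⁴` in a weighted projective plane -/
structure Pt (K : Type) [Field K] (D b₁ : ℤ) where
  /-- the first coordinate -/
  M : K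
  /-- the second coordinate -/
  e : K
  /-- the third coordinate -/
  N : K
  ne : M ≠ 0 ∨ e ≠ 0
  eq : N ^ 2 = (b₁ : K) * M ^ 4 + ((-D ^ 2 / b₁ : ℤ) : K) * e ^ 4

open Classical in
/-- the value of `b₁ M² - D e²` modulo squares; at its zeros it is computed from the relation
`b₁ N² = (b₁ M² - D e²) (b₁ M² + D e²)` -/
noncomputable def val {K : Type} [Field K] {D b₁ : ℤ} (P : Pt K D b₁) : K :=
  if (b₁ : K) * P.M ^ 2 - D * P.e ^ 2 ≠ 0 then (b₁ : K) * P.M ^ 2 - D * P.e ^ 2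
  else b₁ * (b₁ * P.M ^ 2 + D * P.e ^ 2)

/-- an adelic point of the curve -/
structure AdPt (D b₁ : ℤ) where
  /-- the real component -/
  re : Pt ℝ D b₁
  /-- the `p`-adic components -/
  pa : ∀ p : Nat.Primes, Pt ℚ_[(p : ℕ)] D b₁

/-- the values at the components of an adelic point -/
noncomputable def vals {D b₁ : ℤ} (P : AdPt D b₁) : Fam := ⟨val P.re, fun p => val (P.pa p)⟩

/-- the class `(b₁ M² - D e², a)` of the Brauer group obstructs the adelic point: the number of the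
places where its value is not trivial is odd -/
def Obstr {D b₁ : ℤ} (P : AdPt D b₁) (a : ℤ) : Prop :=
  (ram (vals P) a).Finite ∧ ¬ Even (ram (vals P) a).ncard

section K

variable {K : Type} [Field K] [CharZero K] {D b₁ : ℤ} (hD : D ≠ 0) (hb : b₁ ≠ 0)
  (hdvd : b₁ ∣ -D ^ 2)

include hD hb hdvd

omit [CharZero K] hD in
lemma pt_eq (P : Pt K D b₁) : (b₁ : K) * P.N ^ 2 =
    (b₁ * P.M ^ 2 - D * P.e ^ 2) * (b₁ * P.M ^ 2 + D * P.e ^ 2) := by
  obtain ⟨c, hc⟩ := hdvd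
  have hdiv : -D ^ 2 / b₁ = c := by
    rw [hc]
    exact Int.mul_ediv_cancel_left c hb
  have hc' : -(D : K) ^ 2 = b₁ * c := by exact_mod_cast congrArg (Int.cast : ℤ → K) hc
  rw [P.eq, hdiv]
  linear_combination (-(P.e ^ 4)) * hc'

/-- the first factor vanishes -/
lemma pt_zero (P : Pt K D b₁) (h : (b₁ : K) * P.M ^ 2 - D * P.e ^ 2 = 0) :
    P.M ≠ 0 ∧ P.e ≠ 0 := by
  have hD0 : (D : K) ≠ 0 := by exact_mod_cast hD
  have hb0 : (b₁ : K) ≠ 0 := by exact_mod_cast hb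
  constructor
  · intro h0
    rw [h0] at h
    have h1 : (D : K) * P.e ^ 2 = 0 := by linear_combination -h
    have h2 : P.e = 0 := pow_eq_zero_iff two_ne_zero |>.1 ((mul_eq_zero.1 h1).resolve_left hD0)
    rcases P.ne with h3 | h3
    · exact h3 h0
    · exact h3 h2
  · intro h0
    rw [h0] at h
    have h1 : (b₁ : K) * P.M ^ 2 = 0 := by linear_combination h
    have h2 : P.M = 0 := pow_eq_zero_iff two_ne_zero |>.1 ((mul_eq_zero.1 h1).resolve_left hb0)
    rcases P.ne with h3 | h3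
    · exact h3 h2
    · exact h3 h0

lemma val_ne (P : Pt K D b₁) : val P ≠ 0 := by
  have hb0 : (b₁ : K) ≠ 0 := by exact_mod_cast hb
  unfold val
  split_ifs with h
  · exact h
  · rw [not_not] at h
    obtain ⟨hM, -⟩ := pt_zero hD hb hdvd P h
    have h1 : (b₁ : K) * P.M ^ 2 + D * P.e ^ 2 = 2 * (b₁ * P.M ^ 2) := by linear_combination -h
    rw [h1]
    exact mul_ne_zero hb0 (mul_ne_zero two_ne_zero (mul_ne_zero hb0 (pow_ne_zero 2 hM)))

lemma cov_of_val (P : Pt K D b₁) {n : ℤ} (hn : n ≠ 0) (h : IsSquare (val P * n)) :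
    Cov K D b₁ n := by
  have hb0 : (b₁ : K) ≠ 0 := by exact_mod_cast hb
  have hn0 : (n : K) ≠ 0 := by exact_mod_cast hn
  have heq := pt_eq (K := K) hb hdvd P
  obtain ⟨s, hs⟩ := h
  unfold val at hs
  split_ifs at hs with h
  · have hs0 : s ≠ 0 := by
      rintro rfl
      rw [mul_zero] at hs
      exact mul_ne_zero h hn0 hs
    refine ⟨P.M, P.e, s / n, P.N / s, P.ne, ?_, ?_⟩
    · rw [div_pow, mul_div_assoc', eq_div_iff (pow_ne_zero 2 hn0)]
      linear_combination (n : K) * hs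
    · have h1 : (b₁ : K) * P.M ^ 2 - D * P.e ^ 2 = s * s / n := by
        rw [eq_div_iff hn0]
        exact hs
      rw [h1] at heq
      rw [div_pow, mul_div_assoc', eq_div_iff (pow_ne_zero 2 hs0)]
      have h2 : (b₁ : K) * n * P.N ^ 2 = s * s * (b₁ * P.M ^ 2 + D * P.e ^ 2) := by
        have : (b₁ : K) * n * P.N ^ 2 = n * (b₁ * P.N ^ 2) := by ring
        rw [this, heq]
        field_simp
      rw [h2]
      ring
  · rw [not_not] at h
    refine ⟨P.M, P.e, 0, s / (b₁ * n), P.ne, ?_, ?_⟩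
    · rw [h]
      ring
    · rw [div_pow, mul_div_assoc', eq_div_iff (pow_ne_zero 2 (mul_ne_zero hb0 hn0))]
      linear_combination (b₁ : K) * n * hs

end K

section pad

variable {p : ℕ} [hp : Fact p.Prime] {D b₁ : ℤ} (hD : D ≠ 0) (hb : b₁ ≠ 0)
  (hdvd : b₁ ∣ -D ^ 2)

include hD hb hdvd

/-- even valuation at the good primes -/
lemma norm_val (h2 : ¬ (p : ℤ) ∣ 2) (hpD : ¬ (p : ℤ) ∣ D) (hpb : ¬ (p : ℤ) ∣ b₁)
    (P : Pt ℚ_[p] D b₁) : ∃ z : ℚ_[p], z ≠ 0 ∧ ‖val P‖ = ‖z‖ ^ 2 := by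
  have heq := pt_eq (K := ℚ_[p]) hb hdvd P
  have n2 : ‖(2 : ℚ_[p])‖ = 1 := by
    have := norm_unit (p := p) (z := 2) h2
    exact_mod_cast this
  have nD : ‖(D : ℚ_[p])‖ = 1 := norm_unit hpD
  have nb : ‖(b₁ : ℚ_[p])‖ = 1 := norm_unit hpb
  set x : ℚ_[p] := b₁ * P.M ^ 2 - D * P.e ^ 2 with hx
  set y : ℚ_[p] := b₁ * P.M ^ 2 + D * P.e ^ 2 with hy
  -- the larger coordinate
  obtain ⟨w, hw0, hMw, hew, hwxy⟩ : ∃ w : ℚ_[p], w ≠ 0 ∧ ‖P.M‖ ≤ ‖w‖ ∧ ‖P.e‖ ≤ ‖w‖ ∧
      ‖w‖ ^ 2 ≤ max ‖x‖ ‖y‖ := by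
    have hsum : ‖P.M‖ ^ 2 ≤ max ‖x‖ ‖y‖ := by
      have h1 : x + y = 2 * b₁ * P.M ^ 2 := by rw [hx, hy]; ring
      have h3 : ‖x + y‖ = ‖P.M‖ ^ 2 := by
        rw [h1, norm_mul, norm_mul, n2, nb, norm_pow]
        ring
      rw [← h3]
      exact Padic.nonarchimedean x y
    have hdiff : ‖P.e‖ ^ 2 ≤ max ‖x‖ ‖y‖ := by
      have h1 : y + -x = 2 * D * P.e ^ 2 := by rw [hx, hy]; ring
      have h3 : ‖y + -x‖ = ‖P.e‖ ^ 2 := by
        rw [h1, norm_mul, norm_mul, n2, nD, norm_pow]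
        ring
      rw [← h3]
      refine (Padic.nonarchimedean y (-x)).trans ?_
      rw [norm_neg, max_comm]
    rcases le_total ‖P.M‖ ‖P.e‖ with hle | hle
    · refine ⟨P.e, ?_, hle, le_rfl, hdiff⟩
      intro h0
      rw [h0, norm_zero] at hle
      have h3 : P.M = 0 := norm_eq_zero.1 (le_antisymm hle (norm_nonneg _))
      rcases P.ne with h | h
      · exact h h3
      · exact h h0
    · refine ⟨P.M, ?_, le_rfl, hle, hsum⟩
      intro h0
      rw [h0, norm_zero] at hle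
      have h3 : P.e = 0 := norm_eq_zero.1 (le_antisymm hle (norm_nonneg _))
      rcases P.ne with h | h
      · exact h h0
      · exact h h3
  have hM2 : ‖(b₁ : ℚ_[p]) * P.M ^ 2‖ ≤ ‖w‖ ^ 2 := by
    rw [norm_mul, nb, one_mul, norm_pow]
    exact pow_le_pow_left₀ (norm_nonneg _) hMw 2
  have he2 : ‖(D : ℚ_[p]) * P.e ^ 2‖ ≤ ‖w‖ ^ 2 := by
    rw [norm_mul, nD, one_mul, norm_pow]
    exact pow_le_pow_left₀ (norm_nonneg _) hew 2
  have hxw : ‖x‖ ≤ ‖w‖ ^ 2 := by
    rw [hx, sub_eq_add_neg]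
    refine (Padic.nonarchimedean _ _).trans (max_le hM2 ?_)
    rw [norm_neg]
    exact he2
  have hyw : ‖y‖ ≤ ‖w‖ ^ 2 := (Padic.nonarchimedean _ _).trans (max_le hM2 he2)
  have hwpos : 0 < ‖w‖ := norm_pos_iff.2 hw0
  unfold val
  split_ifs with h
  · -- the first factor does not vanish
    rcases lt_or_eq_of_le hxw with hlt | heq'
    · have hyeq : ‖y‖ = ‖w‖ ^ 2 := by
        rcases max_choice ‖x‖ ‖y‖ with hm | hm
        · rw [hm] at hwxy
          exact absurd hwxy (not_le.2 hlt)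
        · rw [hm] at hwxy
          exact le_antisymm hyw hwxy
      have hN : P.N ≠ 0 := by
        intro h0
        have h5 : x * y = 0 := by
          rw [← heq, h0]
          ring
        rcases mul_eq_zero.1 h5 with h6 | h6
        · exact h h6
        · rw [h6, norm_zero] at hyeq
          have : 0 < ‖w‖ ^ 2 := by positivity
          linarith
      refine ⟨P.N / w, div_ne_zero hN hw0, ?_⟩
      have h5 := congrArg norm heq
      rw [norm_mul, nb, one_mul, norm_pow, norm_mul, hyeq] at h5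
      rw [norm_div, div_pow, h5, mul_div_assoc, div_self (pow_ne_zero 2 hwpos.ne'), mul_one]
    · exact ⟨w, hw0, heq'⟩
  · rw [not_not] at h
    have hx0 : ‖x‖ = 0 := by
      rw [norm_eq_zero]
      exact h
    refine ⟨w, hw0, ?_⟩
    rw [norm_mul, nb, one_mul]
    rw [hx0] at hwxy
    have h5 : max 0 ‖y‖ = ‖y‖ := max_eq_right (norm_nonneg _)
    rw [h5] at hwxy
    exact le_antisymm hyw hwxy

lemma rep_val (h2 : ¬ (p : ℤ) ∣ 2) (hpD : ¬ (p : ℤ) ∣ D) (hpb : ¬ (p : ℤ) ∣ b₁)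
    (P : Pt ℚ_[p] D b₁) : ∃ (m : ℤ) (c : ℚ_[p]), ¬ (p : ℤ) ∣ m ∧ c ≠ 0 ∧ val P = m * c ^ 2 := by
  obtain ⟨t, m, c, ht, hm, hc, hval⟩ :=
    Pool.Agent.W310.BMX.odd4 p (val P) (val_ne hD hb hdvd P)
  obtain ⟨z, hz, hnorm⟩ := norm_val hD hb hdvd h2 hpD hpb P
  have ht' : t = 0 := by
    by_contra h0
    have h1 : t = 1 := by omega
    rw [hval, h1] at hnorm
    push_cast at hnorm
    rw [pow_one, norm_mul, norm_mul, norm_unit hm, mul_one, Padic.norm_p, norm_pow] at hnorm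
    exact odd_ne hc hz hnorm
  refine ⟨m, c, hm, hc, ?_⟩
  rw [hval, ht']
  push_cast
  ring

end pad

section adelic

variable {D b₁ : ℤ} (hD : D ≠ 0) (hb : b₁ ≠ 0) (hdvd : b₁ ∣ -D ^ 2)

include hD hb hdvd

/-- the sum of the local invariants is a finite sum -/
lemma ram_fin (P : AdPt D b₁) (a : ℤ) (ha : a ≠ 0) : (ram (vals P) a).Finite := by
  have h1 : {p : Nat.Primes | (p : ℕ) ≤ max 2 (max D.natAbs (max b₁.natAbs a.natAbs))}.Finite := by
    have h2 : (Set.Iic (max 2 (max D.natAbs (max b₁.natAbs a.natAbs)))).Finite :=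
      Set.finite_Iic _
    exact h2.preimage (Subtype.val_injective.injOn)
  apply ((h1.image some).insert none).subset
  intro v hv
  match v with
  | none => exact Or.inl rfl
  | some p =>
    refine Or.inr ⟨p, ?_, rfl⟩
    by_contra hpz
    have hpz' : max 2 (max D.natAbs (max b₁.natAbs a.natAbs)) < (p : ℕ) := not_le.1 hpz
    have key : ∀ z : ℤ, z ≠ 0 → z.natAbs < (p : ℕ) → ¬ ((p : ℕ) : ℤ) ∣ z := by
      intro z hz hlt h
      have h3 := Int.natCast_dvd.1 h
      have := Nat.le_of_dvd (Int.natAbs_pos.2 hz) h3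
      omega
    obtain ⟨m, c, hm, hc, hmc⟩ := rep_val (p := (p : ℕ)) hD hb hdvd
      (key 2 two_ne_zero (by norm_num; omega)) (key D hD (by omega)) (key b₁ hb (by omega))
      (P.pa p)
    apply hv
    change Splits (val (P.pa p)) _
    rw [hmc, splits_mul_sq hc]
    exact Pool.Agent.W335.BMX.odd2 _ (by omega) m a hm (key a ha (by omega))

/-- **every adelic point is obstructed if no covering has points everywhere locally** -/
theorem obstr_of (hno : ∀ d : ℤ, d ≠ 0 → ¬ ELS D b₁ d) (P : AdPt D b₁) :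
    ∃ a : ℤ, a ≠ 0 ∧ Obstr P a := by
  by_contra hcon
  push Not at hcon
  obtain ⟨n, hn, hr, hp⟩ := Pool.Agent.W313.BMX.hexact (vals P) (val_ne hD hb hdvd P.re)
    (fun p => val_ne hD hb hdvd (P.pa p)) (by
      have h1 : {p : Nat.Primes | (p : ℕ) ≤ max 2 (max D.natAbs b₁.natAbs)}.Finite := by
        have h2 : (Set.Iic (max 2 (max D.natAbs b₁.natAbs))).Finite := Set.finite_Iic _
        exact h2.preimage (Subtype.val_injective.injOn)
      apply h1.subset
      intro p hp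
      by_contra hpz
      have hpz' : max 2 (max D.natAbs b₁.natAbs) < (p : ℕ) := not_le.1 hpz
      have key : ∀ z : ℤ, z ≠ 0 → z.natAbs < (p : ℕ) → ¬ ((p : ℕ) : ℤ) ∣ z := by
        intro z hz hlt h
        have h3 := Int.natCast_dvd.1 h
        have := Nat.le_of_dvd (Int.natAbs_pos.2 hz) h3
        omega
      obtain ⟨m, c, hm, -, hmc⟩ := rep_val (p := (p : ℕ)) hD hb hdvd
        (key 2 two_ne_zero (by norm_num; omega)) (key D hD (by omega)) (key b₁ hb (by omega))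
        (P.pa p)
      exact hp m c hm hmc) (by
      intro a ha hfin
      by_contra hodd
      refine hcon a ?_ ⟨hfin, hodd⟩
      rcases ha with rfl | rfl | ⟨h1, h2⟩
      · norm_num
      · norm_num
      · rintro rfl
        norm_num at h2)
  apply hno n hn.ne_zero
  refine ⟨cov_of_val hD hb hdvd P.re hn.ne_zero hr, fun p hpp => ?_⟩
  have := hp ⟨p, hpp.out⟩
  exact cov_of_val hD hb hdvd (P.pa ⟨p, hpp.out⟩) hn.ne_zero this

end adelic

end Pool.Agent.TH715.CN.ISO
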