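import Mathlib
import Pool.Agent.TH841.SH.ShaDef

/-!
# The classes `χ_d T` (copied from the project LS of helper841, module TH841.LS.Stm, without the
modules that are not needed here)
-/

set_option autoImplicit false

namespace Pool.Agent.TH715.CN.LS

open Finset Polynomial WeierstrassCurve

open Pool.Agent.TH841.SH.D

/-- the curve `y² = x³ + 2 (A + B) x² + (A - B)² x` -/
def WI (A B : ℤ) : WeierstrassCurve ℚ := ⟨0, 2 * ((A : ℚ) + B), 0, ((A : ℚ) - B) ^ 2, 0⟩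

/-- a point `(X, Y)` of `y² = x (x - A) (x - B)` over `K` with `X ∈ d K*²` -/
def LocI (K : Type) [Field K] (A B d : ℤ) : Prop :=
  ∃ X Y r : K, X ≠ 0 ∧ Y ^ 2 = X * (X - (A : K)) * (X - (B : K)) ∧ X = (d : K) * r ^ 2

/-- the integer `∏ p ^ (ε p)` -/
def dd (G : Finset ℕ) (ε : G → ZMod 2) : ℤ := ∏ p : G, if ε p = 1 then ((p : ℕ) : ℤ) else 1

lemma ns0 {A B : ℤ} (h : A ≠ B) (L : Type) [Field L] [Algebra ℚ L] :
    ((WI A B).baseChange L).toAffine.Nonsingular 0 0 := by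
  rw [Affine.nonsingular_zero]
  have hne : ((A : ℚ) - B) ^ 2 ≠ 0 := pow_ne_zero 2 (sub_ne_zero.2 (by exact_mod_cast h))
  refine ⟨?_, Or.inr ?_⟩
  · exact map_zero (algebraMap ℚ L)
  · intro h0
    exact hne ((algebraMap ℚ L).injective (by rw [map_zero]; exact h0))

/-- the point `(0, 0)` -/
def T0 {A B : ℤ} (h : A ≠ B) (L : Type) [Field L] [Algebra ℚ L] : Pt (WI A B) L :=
  Affine.Point.some 0 0 (ns0 h L)

open Classical in
/-- the cocycle `χ_d T` -/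
noncomputable def coc {A B : ℤ} (h : A ≠ B) (d : ℤ) : Coch (WI A B) := fun σ =>
  if ∃ s : AlgebraicClosure ℚ, s ^ 2 = (d : AlgebraicClosure ℚ) ∧ σ s ≠ s then
    T0 h (AlgebraicClosure ℚ) else 0

/-! ### Tate-Shafarevich groups -/

/-- LS-COC: `χ_d T` is a continuous cocycle, `χ_d T` is a homomorphism in `d`, with values killed by
two. -/
def COC : Prop := ∀ (A B : ℤ) (h : A ≠ B),
  (∀ d : ℤ, IsCoc (WI A B) (coc h d)) ∧ (∀ d : ℤ, coc h d + coc h d = 0) ∧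
  ∀ (G : Finset ℕ), (∀ p ∈ G, p.Prime) → ∀ ε ε' : G → ZMod 2,
    coc h (dd G (ε + ε')) = coc h (dd G ε) + coc h (dd G ε')

/-- LS-LOT: local triviality. -/
def LOT : Prop := ∀ (A B : ℤ) (h : A ≠ B) (d : ℤ), A ≠ 0 → B ≠ 0 → d ≠ 0 →
  ∀ (K : Type) [Field K] [Algebra ℚ K], LocI K A B d → LocTriv (WI A B) K (coc h d)

/-- LS-COB: if `χ_d T` is a coboundary then `d` comes from a rational point. -/
def COB : Prop := ∀ (A B : ℤ) (h : A ≠ B) (d : ℤ), A ≠ 0 → B ≠ 0 → d ≠ 0 →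
  IsCob (WI A B) (coc h d) → IsSquare (d : ℚ) ∨ IsSquare ((d : ℚ) * (A * B)) ∨ LocI ℚ A B d

end Pool.Agent.TH715.CN.LS
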