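import Mathlib
import Pool.Agent.TH715.CN.LsD

/-!
# The cocycle `χ_d T` (helper757, job 4157)
-/

set_option autoImplicit false

namespace Pool.Agent.TH715.CN.LS.COCf

open Finset WeierstrassCurve

open Pool.Agent.TH841.SH.D

attribute [-instance] DivisionRing.toRatAlgebra

/-- the algebraic closure of `ℚ` -/
abbrev QB : Type := AlgebraicClosure ℚ

lemma lc_apply (x : QB) : IsLocallyConstant (fun σ : Gal ℚ => σ x) := by
  rw [IsLocallyConstant.iff_exists_open]
  intro σ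
  have hx : IsIntegral ℚ x := Algebra.IsIntegral.isIntegral x
  have : FiniteDimensional ℚ (IntermediateField.adjoin ℚ {x}) :=
    IntermediateField.adjoin.finiteDimensional hx
  refine ⟨(fun τ => σ⁻¹ * τ) ⁻¹'
    ((IntermediateField.adjoin ℚ {x}).fixingSubgroup : Set (QB ≃ₐ[ℚ] QB)),
    (IntermediateField.fixingSubgroup_isOpen _).preimage (continuous_const_mul _), ?_, ?_⟩
  · show σ⁻¹ * σ ∈ (IntermediateField.adjoin ℚ {x}).fixingSubgroup
    rw [inv_mul_cancel]
    exact one_mem _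
  · intro τ hτ
    have h1 : σ⁻¹ * τ ∈ (IntermediateField.adjoin ℚ {x}).fixingSubgroup := hτ
    rw [IntermediateField.mem_fixingSubgroup_iff] at h1
    have h2 := h1 x (IntermediateField.mem_adjoin_simple_self ℚ x)
    rw [AlgEquiv.mul_apply] at h2
    have h3 := congrArg σ h2
    rw [← AlgEquiv.mul_apply, mul_inv_cancel, AlgEquiv.one_apply] at h3
    exact h3

lemma exists_root (d : ℤ) : ∃ s : QB, s ^ 2 = (d : QB) :=
  IsAlgClosed.exists_pow_nat_eq _ two_pos

lemma ap_sq {d : ℤ} {s : QB} (hs : s ^ 2 = (d : QB)) (σ : Gal ℚ) : σ s = s ∨ σ s = -s := by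
  apply sq_eq_sq_iff_eq_or_eq_neg.1
  rw [← map_pow, hs, map_intCast]

lemma coc_pos {A B : ℤ} (h : A ≠ B) {d : ℤ} {σ : Gal ℚ}
    (hex : ∃ s : QB, s ^ 2 = (d : QB) ∧ σ s ≠ s) : coc h d σ = T0 h QB := if_pos hex

lemma coc_neg {A B : ℤ} (h : A ≠ B) {d : ℤ} {σ : Gal ℚ}
    (hex : ¬ ∃ s : QB, s ^ 2 = (d : QB) ∧ σ s ≠ s) : coc h d σ = 0 := if_neg hex

lemma coc_eq {A B : ℤ} (h : A ≠ B) {d : ℤ} {s : QB} (hs : s ^ 2 = (d : QB)) (σ : Gal ℚ) :
    (σ s = s → coc h d σ = 0) ∧ (σ s ≠ s → coc h d σ = T0 h QB) := by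
  constructor
  · intro h1
    apply coc_neg
    rintro ⟨t, h2, h3⟩
    apply h3
    rw [← hs] at h2
    rcases sq_eq_sq_iff_eq_or_eq_neg.1 h2 with rfl | rfl
    · exact h1
    · rw [map_neg, h1]
  · intro h1
    exact coc_pos h ⟨s, hs, h1⟩

lemma T0_add {A B : ℤ} (h : A ≠ B) : T0 h QB + T0 h QB = 0 := by
  refine @Affine.Point.add_of_Y_eq QB _ ((WI A B).baseChange QB).toAffine (Classical.decEq QB)
    0 0 0 0 (ns0 h QB) (ns0 h QB) rfl ?_
  have h1 : ((WI A B).baseChange QB).toAffine.a₁ = 0 := map_zero (algebraMap ℚ QB)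
  have h3 : ((WI A B).baseChange QB).toAffine.a₃ = 0 := map_zero (algebraMap ℚ QB)
  rw [Affine.negY, h1, h3]
  ring

lemma act_T0 {A B : ℤ} (h : A ≠ B) (σ : Gal ℚ) : act (WI A B) σ.toAlgHom (T0 h QB) = T0 h QB := by
  have h1 : act (WI A B) σ.toAlgHom (T0 h QB) = (Affine.Point.some (σ 0) (σ 0)
    ((Affine.baseChange_nonsingular (WI A B) σ.toAlgHom.injective ..).mpr (ns0 h QB)) :
      Pt (WI A B) QB) := rfl
  rw [h1]
  unfold T0
  congr 1
  · exact map_zero σ
  · exact map_zero σ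

lemma neg_ne {s : QB} (h : -s ≠ s) : s ≠ 0 := by
  rintro rfl
  exact h neg_zero

lemma coc_coc {A B : ℤ} (h : A ≠ B) (d : ℤ) : IsCoc (WI A B) (coc h d) := by
  classical
  obtain ⟨s, hs⟩ := exists_root d
  constructor
  · have h1 : coc h d = (fun x : QB => if x = s then (0 : Pt (WI A B) QB) else T0 h QB) ∘
        (fun σ : Gal ℚ => σ s) := by
      funext σ
      show coc h d σ = if σ s = s then 0 else T0 h QB
      split_ifs with h2
      · exact (coc_eq h hs σ).1 h2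
      · exact (coc_eq h hs σ).2 h2
    rw [h1]
    exact (lc_apply s).comp _
  · intro σ τ
    have hm : (σ * τ) s = σ (τ s) := rfl
    rcases ap_sq hs τ with h1 | h1
    · rw [(coc_eq h hs τ).1 h1, map_zero, add_zero]
      rw [h1] at hm
      by_cases h2 : σ s = s
      · rw [(coc_eq h hs σ).1 h2, (coc_eq h hs (σ * τ)).1 (hm.trans h2)]
      · rw [(coc_eq h hs σ).2 h2, (coc_eq h hs (σ * τ)).2 (by rw [hm]; exact h2)]
    · by_cases h0 : -s = s
      · rw [h0] at h1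
        rw [(coc_eq h hs τ).1 h1, map_zero, add_zero]
        rw [h1] at hm
        by_cases h2 : σ s = s
        · rw [(coc_eq h hs σ).1 h2, (coc_eq h hs (σ * τ)).1 (hm.trans h2)]
        · rw [(coc_eq h hs σ).2 h2, (coc_eq h hs (σ * τ)).2 (by rw [hm]; exact h2)]
      · rw [(coc_eq h hs τ).2 (by rw [h1]; exact h0), act_T0]
        rw [h1, map_neg] at hm
        by_cases h2 : σ s = s
        · rw [h2] at hm
          rw [(coc_eq h hs σ).1 h2, (coc_eq h hs (σ * τ)).2 (by rw [hm]; exact h0), zero_add]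
        · have h3 : σ s = -s := (ap_sq hs σ).resolve_left h2
          rw [h3, neg_neg] at hm
          rw [(coc_eq h hs σ).2 h2, (coc_eq h hs (σ * τ)).1 hm, T0_add]

lemma coc_two {A B : ℤ} (h : A ≠ B) (d : ℤ) : coc h d + coc h d = 0 := by
  obtain ⟨s, hs⟩ := exists_root d
  funext σ
  show coc h d σ + coc h d σ = 0
  by_cases h2 : σ s = s
  · rw [(coc_eq h hs σ).1 h2, add_zero]
  · rw [(coc_eq h hs σ).2 h2, T0_add]

lemma dd_mul (G : Finset ℕ) (ε ε' : G → ZMod 2) : dd G ε * dd G ε' = dd G (ε + ε') *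
    (∏ p : G, if ε p = 1 ∧ ε' p = 1 then ((p : ℕ) : ℤ) else 1) ^ 2 := by
  unfold dd
  rw [← Finset.prod_mul_distrib, ← Finset.prod_pow, ← Finset.prod_mul_distrib]
  refine Finset.prod_congr rfl fun p _ => ?_
  rw [Pi.add_apply]
  generalize ε p = a
  generalize ε' p = b
  have h2 : ∀ x : ZMod 2, x = 0 ∨ x = 1 := by decide
  have e1 : (0 : ZMod 2) ≠ 1 := by decide
  have e2 : (1 + 1 : ZMod 2) ≠ 1 := by decide
  rcases h2 a with rfl | rfl <;> rcases h2 b with rfl | rfl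
  · simp
  · simp
  · simp
  · rw [if_pos rfl, if_neg e2, if_pos ⟨rfl, rfl⟩]
    ring

lemma dd_ne (G : Finset ℕ) (hG : ∀ p ∈ G, p.Prime) (ε : G → ZMod 2) : dd G ε ≠ 0 := by
  unfold dd
  rw [Finset.prod_ne_zero_iff]
  intro p _
  split_ifs
  · exact_mod_cast (hG p p.2).ne_zero
  · exact one_ne_zero

lemma mm_ne (G : Finset ℕ) (hG : ∀ p ∈ G, p.Prime) (ε ε' : G → ZMod 2) :
    (∏ p : G, if ε p = 1 ∧ ε' p = 1 then ((p : ℕ) : ℤ) else 1) ≠ 0 := by
  rw [Finset.prod_ne_zero_iff]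
  intro p _
  split_ifs
  · exact_mod_cast (hG p p.2).ne_zero
  · exact one_ne_zero

lemma coc_add' {A B : ℤ} (h : A ≠ B) {a b c m : ℤ} (ha : a ≠ 0) (hb : b ≠ 0) (hm : m ≠ 0)
    (hab : a * b = c * m ^ 2) : coc h c = coc h a + coc h b := by
  obtain ⟨s, hs⟩ := exists_root a
  obtain ⟨t, ht⟩ := exists_root b
  have haQ : (a : QB) ≠ 0 := by exact_mod_cast ha
  have hbQ : (b : QB) ≠ 0 := by exact_mod_cast hb
  have hmQ : (m : QB) ≠ 0 := by exact_mod_cast hm
  have hs0 : s ≠ 0 := by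
    rintro rfl
    apply haQ
    rw [← hs]
    ring
  have ht0 : t ≠ 0 := by
    rintro rfl
    apply hbQ
    rw [← ht]
    ring
  have hne : ∀ x : QB, x ≠ 0 → -x ≠ x := by
    intro x hx h
    apply hx
    have h1 : (2 : QB) * x = 0 := by linear_combination -h
    rcases mul_eq_zero.1 h1 with h2 | h2
    · exact absurd h2 two_ne_zero
    · exact h2
  have hu : (s * t / m) ^ 2 = (c : QB) := by
    have h1 : (a : QB) * b = c * (m : QB) ^ 2 := by exact_mod_cast hab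
    rw [div_pow, mul_pow, hs, ht, h1]
    field_simp
  have hu0 : s * t / m ≠ 0 := div_ne_zero (mul_ne_zero hs0 ht0) hmQ
  funext σ
  show coc h c σ = coc h a σ + coc h b σ
  have hσ : σ (s * t / m) = σ s * σ t / m := by
    rw [map_div₀, map_mul, map_intCast]
  rcases ap_sq hs σ with h1 | h1 <;> rcases ap_sq ht σ with h2 | h2
  · rw [h1, h2] at hσ
    rw [(coc_eq h hs σ).1 h1, (coc_eq h ht σ).1 h2, (coc_eq h hu σ).1 hσ, add_zero]
  · rw [h1, h2] at hσ
    have h3 : σ (s * t / m) ≠ s * t / m := by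
      rw [hσ]
      have h4 := hne _ hu0
      intro h5
      exact h4 ((by ring : -(s * t / (m : QB)) = s * -t / m).trans h5)
    rw [(coc_eq h hs σ).1 h1, (coc_eq h ht σ).2 (by rw [h2]; exact hne t ht0),
      (coc_eq h hu σ).2 h3, zero_add]
  · rw [h1, h2] at hσ
    have h3 : σ (s * t / m) ≠ s * t / m := by
      rw [hσ]
      have h4 := hne _ hu0
      intro h5
      exact h4 ((by ring : -(s * t / (m : QB)) = -s * t / m).trans h5)
    rw [(coc_eq h hs σ).2 (by rw [h1]; exact hne s hs0), (coc_eq h ht σ).1 h2,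
      (coc_eq h hu σ).2 h3, add_zero]
  · rw [h1, h2, neg_mul_neg] at hσ
    rw [(coc_eq h hs σ).2 (by rw [h1]; exact hne s hs0),
      (coc_eq h ht σ).2 (by rw [h2]; exact hne t ht0), (coc_eq h hu σ).1 hσ, T0_add]

theorem coc_all : Pool.Agent.TH715.CN.LS.COC := by
  intro A B h
  refine ⟨coc_coc h, coc_two h, ?_⟩
  intro G hG ε ε'
  exact coc_add' h (dd_ne G hG ε) (dd_ne G hG ε') (mm_ne G hG ε ε') (dd_mul G ε ε')

end Pool.Agent.TH715.CN.LS.COCf
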