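import Mathlib
import Pool.Agent.TH715.CN.Cov2
import Pool.Agent.TH715.CN.LsCoc
import Pool.Agent.TH715.CN.LsLot
import Pool.Agent.TH715.CN.LsCob
import Pool.Agent.TH841.SH.Sel

/-!
# The Tate-Shafarevich group of `y² = x³ + 4 D² x`

The construction of the classes is by helper841 (project LS); here the kernel is determined
exactly, for curves with the smallest possible 2-Selmer group.
-/

set_option autoImplicit false

namespace Pool.Agent.TH715.CN.LS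

open Finset WeierstrassCurve

open Pool.Agent.TH841.SH.D

open Pool.Agent.TH715.CN.ISO (Qu SQ Bad)

lemma dd_ne {G : Finset ℕ} (hG : ∀ p ∈ G, p.Prime) (ε : G → ZMod 2) : dd G ε ≠ 0 := by
  unfold dd
  rw [prod_ne_zero_iff]
  intro p _
  split_ifs
  · exact_mod_cast (hG p.1 p.2).ne_zero
  · exact one_ne_zero

/-- from a point with `x` a nonzero square to a point with `X ∈ d K*²`, `d` a square -/
theorem of_sq {K : Type} [Field K] {A B d : ℤ} (hd : (d : K) ≠ 0) (hsq : IsSquare (d : K))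
    (h : ∃ x y : K, y ≠ 0 ∧ y ^ 2 = (x - ((0 : ℤ) : K)) * (x - (A : K)) * (x - (B : K)) ∧
      IsSquare (x - ((0 : ℤ) : K)) ∧ IsSquare (x - (A : K)) ∧ IsSquare (x - (B : K))) :
    LocI K A B d := by
  obtain ⟨s, hs⟩ := hsq
  obtain ⟨x, y, hy, he, ⟨q, hq⟩, -, -⟩ := h
  rw [Int.cast_zero, sub_zero] at he hq
  have hs0 : s ≠ 0 := by
    rintro rfl
    apply hd
    rw [hs, zero_mul]
  refine ⟨x, y, q / s, ?_, he, ?_⟩
  · rintro rfl
    rw [zero_mul, zero_mul] at he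
    exact hy (pow_eq_zero_iff (two_ne_zero) |>.1 he)
  · rw [hq, hs, div_pow]
    field_simp

/-- **a lower bound for the Tate-Shafarevich group** -/
theorem shl_two (A B : ℤ) (h : A ≠ B) (hA : A ≠ 0) (hB : B ≠ 0) (G : Finset ℕ)
    (hG : ∀ p ∈ G, p.Prime) (V : Submodule (ZMod 2) (G → ZMod 2))
    (hV : ∀ ε ∈ V, (∀ (p : ℕ) [Fact p.Prime], LocI ℚ_[p] A B (dd G ε)) ∧ LocI ℝ A B (dd G ε))
    (ε₀ : G → ZMod 2) (hker : ∀ ε ∈ V, (IsSquare (dd G ε : ℚ) ∨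
      IsSquare ((dd G ε : ℚ) * (A * B)) ∨ LocI ℚ A B (dd G ε)) → ε = 0 ∨ ε = ε₀) :
    ∃ k : ℕ, Module.finrank (ZMod 2) V ≤ k + 1 ∧
      ∃ φ : (Fin k → ZMod 2) →+ Sha (WI A B), Function.Injective φ := by
  classical
  have : Fact (Nat.Prime 2) := ⟨Nat.prime_two⟩
  obtain ⟨c1, c2, c3⟩ := COCf.coc_all A B h
  -- the cocycles
  have hsha : ∀ ε : V, coc h (dd G ε.1) ∈ shaCoc (WI A B) := fun ε =>
    ⟨c1 _, fun p _ => LOTf.lot A B h _ hA hB (dd_ne hG _) _ ((hV ε.1 ε.2).1 p),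
      LOTf.lot A B h _ hA hB (dd_ne hG _) _ (hV ε.1 ε.2).2⟩
  let Θ₀ : V → shaCoc (WI A B) := fun ε => ⟨coc h (dd G ε.1), hsha ε⟩
  have hadd : ∀ ε ε' : V, Θ₀ (ε + ε') = Θ₀ ε + Θ₀ ε' := fun ε ε' =>
    Subtype.ext (c3 G hG ε.1 ε'.1)
  let Θ₁ : V →+ shaCoc (WI A B) := AddMonoidHom.mk' Θ₀ hadd
  let Θ : V →+ Sha (WI A B) :=
    (QuotientAddGroup.mk' ((cob (WI A B)).addSubgroupOf (shaCoc (WI A B)))).comp Θ₁
  have hk : ∀ ε : V, Θ ε = 0 → IsCob (WI A B) (coc h (dd G ε.1)) := by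
    intro ε hε
    have h1 : (QuotientAddGroup.mk' ((cob (WI A B)).addSubgroupOf (shaCoc (WI A B)))) (Θ₁ ε) = 0 :=
      hε
    rw [← AddMonoidHom.mem_ker, QuotientAddGroup.ker_mk', AddSubgroup.mem_addSubgroupOf] at h1
    exact h1
  -- the kernel
  let Kr : Submodule (ZMod 2) V := AddSubgroup.toZModSubmodule 2 Θ.ker
  have hKr : ∀ ε : V, ε ∈ Kr ↔ Θ ε = 0 := fun ε => Iff.rfl
  have hcard : Nat.card Kr ≤ 2 ^ 1 := by
    let S : Finset (G → ZMod 2) := {0, ε₀}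
    have h1 : S.card ≤ 2 ^ 1 := card_le_two
    refine le_trans ?_ h1
    have h2 : Nat.card S = S.card := by
      rw [Nat.card_eq_fintype_card, Fintype.card_coe]
    rw [← h2]
    refine Nat.card_le_card_of_injective (fun x : Kr => (⟨x.1.1, by
      rw [mem_insert, mem_singleton]
      exact hker x.1.1 x.1.2 (COBf.cob_pt A B h _ hA hB (dd_ne hG x.1.1)
        (hk x.1 ((hKr x.1).1 x.2)))⟩ : S)) ?_
    intro x y hxy
    have h3 : x.1.1 = y.1.1 := congrArg (fun z : S => z.1) hxy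
    exact Subtype.ext (Subtype.ext h3)
  have hfr : Module.finrank (ZMod 2) Kr ≤ 1 := by
    rw [Module.natCard_eq_pow_finrank (K := ZMod 2), Nat.card_zmod] at hcard
    exact (Nat.pow_le_pow_iff_right (by norm_num)).1 hcard
  obtain ⟨Q, hQ⟩ := Submodule.exists_isCompl Kr
  have hsum := Submodule.finrank_add_eq_of_isCompl hQ
  refine ⟨Module.finrank (ZMod 2) Q, by omega, ?_⟩
  let e : (Fin (Module.finrank (ZMod 2) Q) → ZMod 2) ≃ₗ[ZMod 2] Q :=
    (Module.finBasis (ZMod 2) Q).equivFun.symm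
  refine ⟨(Θ.comp Q.subtype.toAddMonoidHom).comp e.toLinearMap.toAddMonoidHom, ?_⟩
  rw [injective_iff_map_eq_zero]
  intro x hx
  have h1 : (e x : V) ∈ Kr := (hKr _).2 hx
  have h2 : (e x : V) ∈ Kr ⊓ Q := ⟨h1, (e x).2⟩
  rw [hQ.inf_eq_bot, Submodule.mem_bot] at h2
  have h3 : e x = 0 := Subtype.ext h2
  exact (LinearEquiv.map_eq_zero_iff e).1 h3

end Pool.Agent.TH715.CN.LS
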