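import Mathlib
import Pool.Agent.TH715.CN.LsV

/-!
# The classes for products of primes that are three modulo eight
-/

set_option autoImplicit false

namespace Pool.Agent.TH715.CN.LS

open Finset WeierstrassCurve

open Pool.Agent.TH841.SH.D

open Pool.Agent.TH841.SH (SelG)

open Pool.Agent.TH715.CN.ISO

section loc

variable {K : Type} [Field K] [CharZero K] {D b : ℤ} (hD : D ≠ 0) (hb : b ≠ 0)
  (hdvd : b ∣ -D ^ 2)

include hD hb hdvd

/-- from a point of the quartic to a point of the cubic -/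
lemma loc_of_qu (hpt : ∃ x y : K, y ≠ 0 ∧
      y ^ 2 = (x - ((0 : ℤ) : K)) * (x - (D : K)) * (x - ((-D : ℤ) : K)) ∧
      IsSquare (x - ((0 : ℤ) : K)) ∧ IsSquare (x - (D : K)) ∧ IsSquare (x - ((-D : ℤ) : K)))
    (h : Qu K 0 (-D ^ 2) b) : LocI K D (-D) b := by
  obtain ⟨c, hc⟩ := hdvd
  have hdiv : -D ^ 2 / b = c := by
    rw [hc]
    exact Int.mul_ediv_cancel_left c hb
  have hc' : -(D : K) ^ 2 = b * c := by exact_mod_cast congrArg (Int.cast : ℤ → K) hc
  have hD0 : (D : K) ≠ 0 := by exact_mod_cast hD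
  have hb0 : (b : K) ≠ 0 := by exact_mod_cast hb
  obtain ⟨N, M, e, hne, hN⟩ := h
  rw [hdiv, Int.cast_zero, zero_mul, zero_mul, add_zero] at hN
  by_cases he : e = 0
  · have hM : M ≠ 0 := by
      rcases hne with h | h
      · exact h
      · exact absurd he h
    refine of_sq hb0 ⟨N / M ^ 2, ?_⟩ hpt
    rw [he] at hN
    have h1 : N ^ 2 = (b : K) * M ^ 4 := by rw [hN]; ring
    rw [div_mul_div_comm, eq_div_iff (by positivity)]
    linear_combination -h1
  · by_cases hM : M = 0
    · rw [hM] at hN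
      have h1 : N ^ 2 = (c : K) * e ^ 4 := by rw [hN]; ring
      have hc0 : (c : K) ≠ 0 := by
        intro h0
        rw [h0, mul_zero] at hc'
        exact hD0 (by simpa using hc')
      have hN0 : N ≠ 0 := by
        rintro rfl
        have h2 : (c : K) * e ^ 4 = 0 := by rw [← h1]; ring
        rcases mul_eq_zero.1 h2 with h3 | h3
        · exact hc0 h3
        · exact he (pow_eq_zero_iff (by norm_num) |>.1 h3)
      have hsq : IsSquare ((-b : ℤ) : K) := by
        refine ⟨D * e ^ 2 / N, ?_⟩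
        rw [div_mul_div_comm, eq_div_iff (mul_ne_zero hN0 hN0)]
        push_cast
        linear_combination (-(b : K)) * h1 + e ^ 4 * hc'
      have hbn : ((-b : ℤ) : K) ≠ 0 := by
        push_cast
        exact neg_ne_zero.2 hb0
      obtain ⟨X, Y, r, hX, hY, hXr⟩ := of_sq hbn hsq hpt
      have hr : r ≠ 0 := by
        rintro rfl
        apply hX
        rw [hXr]
        ring
      refine ⟨-(D : K) ^ 2 / X, D ^ 2 * Y / X ^ 2, D / (b * r), ?_, ?_, ?_⟩
      · exact div_ne_zero (neg_ne_zero.2 (pow_ne_zero 2 hD0)) hX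
      · push_cast at hY ⊢
        field_simp
        linear_combination hY
      · rw [hXr]
        push_cast
        field_simp
    · refine ⟨b * (M / e) ^ 2, b * M * N / e ^ 3, M / e, ?_, ?_, rfl⟩
      · exact mul_ne_zero hb0 (pow_ne_zero 2 (div_ne_zero hM he))
      · push_cast
        field_simp
        linear_combination (b : K) * hN - e ^ 4 * hc'

omit [CharZero K] hD in
/-- from a point of the cubic to a point of the quartic -/
lemma qu_of_loc (hb0 : (b : K) ≠ 0) (h : LocI K D (-D) b) : Qu K 0 (-D ^ 2) b := by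
  obtain ⟨c, hc⟩ := hdvd
  have hdiv : -D ^ 2 / b = c := by
    rw [hc]
    exact Int.mul_ediv_cancel_left c hb
  have hc' : -(D : K) ^ 2 = b * c := by exact_mod_cast congrArg (Int.cast : ℤ → K) hc
  obtain ⟨X, Y, r, hX, hY, hXr⟩ := h
  have hr : r ≠ 0 := by
    rintro rfl
    apply hX
    rw [hXr]
    ring
  refine ⟨Y / (r * b), r, 1, Or.inl hr, ?_⟩
  rw [hdiv, Int.cast_zero, zero_mul, zero_mul, add_zero, one_pow, mul_one, div_pow,
    div_eq_iff (pow_ne_zero 2 (mul_ne_zero hr hb0)), hY, hXr]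
  push_cast
  linear_combination ((b : K) * r ^ 2) * hc'

end loc

/-- the support -/
def sp {T : Finset ℕ} (ε : T → ZMod 2) : Finset ℕ :=
  (univ.filter (fun p : T => ε p = 1)).map (Function.Embedding.subtype _)

lemma sp_sub {T : Finset ℕ} (ε : T → ZMod 2) : sp ε ⊆ T := by
  intro q hq
  obtain ⟨p, -, rfl⟩ := mem_map.1 hq
  exact p.2

lemma dd_eq {T : Finset ℕ} (ε : T → ZMod 2) : dd T ε = fT (sp ε, false) := by
  unfold dd fT sp
  simp only [Bool.false_eq_true, if_false, one_mul]
  rw [prod_map, prod_filter]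
  rfl

lemma sp_card {T : Finset ℕ} (ε : T → ZMod 2) : ((sp ε).card : ZMod 2) = ∑ p, ε p := by
  unfold sp
  rw [card_map, card_filter]
  push_cast
  refine sum_congr rfl fun p _ => ?_
  generalize ε p = c
  revert c
  decide

section

variable {T : Finset ℕ} (hT : ∀ q ∈ T, q.Prime ∧ q % 8 = 3) (hne : T.Nonempty)

include hT hne

/-- **the Tate-Shafarevich group of `y² = x³ + 4 D² x` is large** -/
theorem large_sha (hfin : (SelG 0 (∏ q ∈ T, (q : ℤ)) (-(∏ q ∈ T, (q : ℤ)))).Finite)
    (h4 : (SelG 0 (∏ q ∈ T, (q : ℤ)) (-(∏ q ∈ T, (q : ℤ)))).ncard ≤ 4) :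
    ∃ k : ℕ, 2 * ((T.card - 1) / 2) ≤ k ∧ ∃ φ : (Fin k → ZMod 2) →+
      Sha (WI (∏ q ∈ T, (q : ℤ)) (-(∏ q ∈ T, (q : ℤ)))), Function.Injective φ := by
  classical
  have hmod := mod_fT hT (Finset.Subset.refl T)
  have hD : Squarefree (∏ q ∈ T, (q : ℤ)) := prod_sqf hT
  have hpos : 0 < ∏ q ∈ T, (q : ℤ) := prod_pos fun q hq => by exact_mod_cast (hT q hq).1.pos
  have hprim := sq_prim hT
  have hinj := inj_fT hT
  have hT0 : 0 < T.card := card_pos.2 hne
  have hdd0 : ∀ ε : T → ZMod 2, 0 < dd T ε := by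
    intro ε
    unfold dd
    refine prod_pos fun p _ => ?_
    split_ifs
    · exact_mod_cast (hT p.1 p.2).1.pos
    · exact one_pos
  have hfTT : fT (T, false) = ∏ q ∈ T, (q : ℤ) := by
    unfold fT
    simp only [Bool.false_eq_true, if_false, one_mul]
  have hfT0 : fT (∅, false) = 1 := by
    unfold fT
    simp only [Bool.false_eq_true, if_false, one_mul, prod_empty]
  obtain ⟨q, hq⟩ := hne
  have hqD : (q : ℤ) ∣ ∏ q ∈ T, (q : ℤ) := dvd_prod_of_mem (fun q : ℕ => (q : ℤ)) hq
  have hq3 : (3 : ℤ) ≤ q := by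
    have := (hT q hq).2
    have : 3 ≤ q := by omega
    exact_mod_cast this
  have hD3 : 3 ≤ ∏ q ∈ T, (q : ℤ) := hq3.trans (Int.le_of_dvd hpos hqD)
  have hodd : ¬ (2 : ℤ) ∣ ∏ q ∈ T, (q : ℤ) := by
    intro h
    split_ifs at hmod <;> omega
  set D : ℤ := ∏ q ∈ T, (q : ℤ) with hDdef
  have hD0 : D ≠ 0 := hpos.ne'
  have hmemP : ∀ S : Finset ℕ, S ⊆ T → ((S, false) : Finset ℕ × Bool) ∈
      ((T.powerset ×ˢ (univ : Finset Bool) : Finset (Finset ℕ × Bool)) : Set _) := by
    intro S hS
    rw [mem_coe, mem_product, mem_powerset]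
    exact ⟨hS, mem_univ _⟩
  -- the space
  let L : (T → ZMod 2) →ₗ[ZMod 2] ZMod 2 := ∑ p, LinearMap.proj p
  have hL : ∀ ε, L ε = ∑ p, ε p := by
    intro ε
    simp only [L, LinearMap.sum_apply, LinearMap.proj_apply]
  let V : Submodule (ZMod 2) (T → ZMod 2) := if Even T.card then LinearMap.ker L else ⊤
  have hVm : ∀ ε ∈ V, Even T.card → Even (sp ε).card := by
    intro ε hε he
    simp only [V, if_pos he, LinearMap.mem_ker] at hε
    rw [hL, ← sp_card] at hε
    exact (ZMod.natCast_eq_zero_iff_even).1 hε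
  have hVd : 2 * ((T.card - 1) / 2) + 1 ≤ Module.finrank (ZMod 2) V := by
    by_cases he : Even T.card
    · have h5 : V = LinearMap.ker L := by simp only [V, if_pos he]
      rw [h5]
      have h6 := LinearMap.finrank_range_add_finrank_ker L
      have h7 : Module.finrank (ZMod 2) (LinearMap.range L) ≤ 1 := by
        refine (Submodule.finrank_le _).trans (le_of_eq ?_)
        exact Module.finrank_self (ZMod 2)
      rw [Module.finrank_fintype_fun_eq_card, Fintype.card_coe] at h6
      obtain ⟨r, hr⟩ := he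
      omega
    · have h5 : V = ⊤ := by simp only [V, if_neg he]
      rw [h5, finrank_top, Module.finrank_fintype_fun_eq_card, Fintype.card_coe]
      rw [Nat.not_even_iff_odd] at he
      obtain ⟨r, hr⟩ := he
      omega
  have hSQ : ∀ ε ∈ V, dd T ε ∈ SQ 0 (-D ^ 2) := by
    intro ε hε
    rw [hprim, dd_eq]
    refine Set.mem_image_of_mem _ ?_
    rw [mem_coe, mem_product, mem_filter, mem_powerset]
    exact ⟨⟨sp_sub ε, hVm ε hε⟩, mem_univ _⟩
  have hAB : D ≠ -D := by omega
  obtain ⟨k, hk, hφ⟩ := shl_two D (-D) hAB hD0 (by omega) T (fun p hp => (hT p hp).1) V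
    (fun ε hε => by
      obtain ⟨s1, s2, s3, s4⟩ := hSQ ε hε
      refine ⟨fun p _ => loc_of_qu hD0 s1.ne_zero s2 (Pool.Agent.TH841.SH.pt_pad p 0 D (-D))
        (s4 p), ?_⟩
      have hdr : (0 : ℝ) < (dd T ε : ℝ) := by exact_mod_cast hdd0 ε
      exact of_sq hdr.ne' ⟨Real.sqrt (dd T ε), (Real.mul_self_sqrt hdr.le).symm⟩
        (Pool.Agent.TH841.SH.pt_real 0 D (-D)))
    (fun _ => 1) (fun ε hε hcase => by
      obtain ⟨s1, s2, s3, s4⟩ := hSQ ε hε
      have hone : dd T ε = 1 → ε = 0 := by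
        intro h1
        rw [dd_eq, ← hfT0] at h1
        have h2 := hinj (hmemP _ (sp_sub ε)) (hmemP _ (empty_subset T)) h1
        have h3 : sp ε = ∅ := congrArg Prod.fst h2
        funext p
        have h4 : ε p ≠ 1 := by
          intro h5
          have h6 : p.1 ∈ sp ε := mem_map.2 ⟨p, mem_filter.2 ⟨mem_univ _, h5⟩, rfl⟩
          rw [h3] at h6
          exact notMem_empty _ h6
        have h7 : ∀ c : ZMod 2, c ≠ 1 → c = 0 := by decide
        exact h7 _ h4
      have hall : dd T ε = D → ε = fun _ => 1 := by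
        intro h1
        rw [dd_eq, ← hfTT] at h1
        have h2 := hinj (hmemP _ (sp_sub ε)) (hmemP _ (Finset.Subset.refl T)) h1
        have h3 : sp ε = T := congrArg Prod.fst h2
        funext p
        have h4 : p.1 ∈ sp ε := by rw [h3]; exact p.2
        obtain ⟨p', hp', h5⟩ := mem_map.1 h4
        have h6 : p' = p := Subtype.ext h5
        rw [← h6]
        exact (mem_filter.1 hp').2
      have hp := hdd0 ε
      rcases hcase with h | h | h
      · left
        apply hone
        have h1 : IsSquare (dd T ε) := Rat.isSquare_intCast_iff.1 h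
        obtain ⟨r, hr⟩ := h1
        have h2 : IsUnit r := s1 r (hr ▸ dvd_rfl)
        rcases Int.isUnit_iff.1 h2 with h3 | h3 <;> rw [hr, h3] <;> norm_num
      · exfalso
        have h1 := h.nonneg
        push_cast at h1
        have h2 : (0 : ℚ) < (dd T ε : ℚ) := by exact_mod_cast hp
        have h3 : (0 : ℚ) < (D : ℚ) := by exact_mod_cast hpos
        have h5 : (0 : ℚ) < (dd T ε : ℚ) * ((D : ℚ) * D) := by positivity
        linarith
      · have hdq : ((dd T ε : ℤ) : ℚ) ≠ 0 := by exact_mod_cast hp.ne'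
        have h1 := qu_of_loc hp.ne' s2 hdq h
        obtain ⟨d, hd, hels⟩ := cov_of_rat s1.ne_zero s2 h1
        by_contra hcon
        refine no_cover hD hodd hD3 hfin h4 s1 (fun h5 => hcon ?_) hd hels
        rcases h5 with h5 | h5 | h5 | h5
        · exact Or.inl (hone h5)
        · omega
        · exact Or.inr (hall h5)
        · omega)
  exact ⟨k, by omega, hφ⟩

end

end Pool.Agent.TH715.CN.LS
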